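import Pool.Agent.MP_82452b_an.H8.Defs
import Pool.Agent.MP_755d6b_an.H98.L2
import Pool.Agent.MP_755d6b_an.H98.UltraProps

/-!
# Standard forms, bounded limits and minimising averages
-/

namespace Pool.Agent.MP_82452b_an.H8

open Filter Topology Pool.Agent.MP_755d6b_an.H98
open scoped InnerProductSpace

variable {H : Type} [NormedAddCommGroup H] [InnerProductSpace ℂ H] [CompleteSpace H]

/-- A cyclic separating tracial unit vector. -/
structure IsSF (M : VonNeumannAlgebra H) (Ω : H) : Prop where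
  tv : IsTV M Ω
  dense : Dense {ξ | ∃ x ∈ M, x Ω = ξ}

theorem IsStdII1.isSF {M : VonNeumannAlgebra H} {Ω : H} (h : IsStdII1 M Ω) : IsSF M Ω := by
  refine ⟨⟨?_, fun x hx h0 => h.ii1.isTrace.faithful x hx ?_, fun x hx y hy => ?_⟩, h.cyclic⟩
  · have h1 : ⟪Ω, Ω⟫_ℂ = 1 := h.ii1.isTrace.unital
    rw [inner_self_eq_norm_sq_to_K] at h1
    have h3 : ((‖Ω‖ ^ 2 : ℝ) : ℂ) = 1 := by simpa using h1
    have h2 : ‖Ω‖ ^ 2 = 1 := by exact_mod_cast h3
    exact (pow_eq_one_iff_of_nonneg (norm_nonneg _) two_ne_zero).1 h2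
  · show ⟪Ω, (star x) (x Ω)⟫_ℂ = 0
    rw [h0, map_zero, inner_zero_right]
  · exact h.ii1.isTrace.tracial x hx y hy

theorem IsSF.induction {M : VonNeumannAlgebra H} {Ω : H} (h : IsSF M Ω) {p : H → Prop}
    (hp : IsClosed {ξ | p ξ}) (ih : ∀ x ∈ M, p (x Ω)) (ξ : H) : p ξ :=
  h.dense.induction (fun _ ⟨x, hx, hx'⟩ => hx' ▸ ih x hx) hp ξ

theorem IsSF.op_ext {M : VonNeumannAlgebra H} {Ω : H} (h : IsSF M Ω) {S T : H →L[ℂ] H}
    (hST : ∀ x ∈ M, S (x Ω) = T (x Ω)) : S = T :=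
  ContinuousLinearMap.ext fun ξ => h.induction (p := fun ξ => S ξ = T ξ)
    (isClosed_eq S.continuous T.continuous) hST ξ

theorem isSF_LG (G : Type) [Group G] : IsSF (LG G) (dl (1 : G)) := by
  refine ⟨isTV_LG, ?_⟩
  let V : Submodule ℂ (L2 G) :=
    { carrier := {ξ | ∃ x ∈ LG G, x (dl 1) = ξ}
      add_mem' := fun ⟨x, hx, hx'⟩ ⟨y, hy, hy'⟩ => ⟨x + y, add_mem hx hy, by rw [← hx', ← hy']; rfl⟩
      zero_mem' := ⟨0, zero_mem _, rfl⟩
      smul_mem' := fun c _ ⟨x, hx, hx'⟩ => ⟨c • x, smul_mem_vN c hx, by rw [← hx']; rfl⟩ }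
  have : Vᗮ = ⊥ := by
    rw [Submodule.eq_bot_iff]
    intro ξ hξ
    refine eq_zero_of_inner_dl fun g => ?_
    exact (Submodule.mem_orthogonal' V ξ).1 hξ _ ⟨lam g, lam_mem g, by rw [lam_dl, mul_one]⟩
  exact Submodule.dense_iff_topologicalClosure_eq_top.2
    (Submodule.topologicalClosure_eq_top_iff.2 this)

/-- A bounded sequence of a subalgebra which converges in `L²` has its limit in the subalgebra,
and converges strongly. -/
theorem IsSF.cb {M : VonNeumannAlgebra H} {Ω : H} (h : IsSF M Ω) {P : VonNeumannAlgebra H}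
    (hP : ∀ x ∈ P, x ∈ M) {C : ℝ} {x : ℕ → H →L[ℂ] H} (hx : ∀ n, x n ∈ P) (hC : ∀ n, ‖x n‖ ≤ C)
    {ξ : H} (hξ : Tendsto (fun n => x n Ω) atTop (𝓝 ξ)) :
    ∃ y ∈ P, ‖y‖ ≤ C ∧ y Ω = ξ ∧ ∀ η, Tendsto (fun n => x n η) atTop (𝓝 (y η)) := by
  have hC0 : 0 ≤ C := (norm_nonneg _).trans (hC 0)
  have hcau : ∀ η, CauchySeq fun n => x n η := by
    intro η
    rw [Metric.cauchySeq_iff]
    intro ε hε
    obtain ⟨_, ⟨z, hz, rfl⟩, hzη⟩ := Metric.mem_closure_iff.1 (h.dense η) (ε / (3 * (C + 1)))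
      (by positivity)
    obtain ⟨N, hN⟩ := Metric.cauchySeq_iff.1 hξ.cauchySeq (ε / (3 * (‖z‖ + 1))) (by positivity)
    refine ⟨N, fun m hm n hn => ?_⟩
    have h1 := hN m hm n hn
    rw [dist_eq_norm] at h1 hzη ⊢
    have h2 : x m η - x n η = x m (η - z Ω) - x n (η - z Ω) + (x m - x n) (z Ω) := by
      simp only [map_sub, sub_apply]; abel
    have h3 := h.tv.norm_mul_right (sub_mem (hP _ (hx m)) (hP _ (hx n))) hz
    have h4 : ∀ k, ‖x k (η - z Ω)‖ ≤ ε / 3 := fun k => by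
      refine ((x k).le_opNorm _).trans ?_
      calc ‖x k‖ * ‖η - z Ω‖ ≤ (C + 1) * (ε / (3 * (C + 1))) :=
            mul_le_mul ((hC k).trans (by linarith)) hzη.le (norm_nonneg _) (by positivity)
        _ = ε / 3 := by field_simp
    have h5 : ‖z‖ * ‖(x m - x n) Ω‖ < ε / 3 := by
      have h6 : ‖(x m - x n) Ω‖ < ε / (3 * (‖z‖ + 1)) := h1
      calc ‖z‖ * ‖(x m - x n) Ω‖ ≤ (‖z‖ + 1) * ‖(x m - x n) Ω‖ := by gcongr; linarith
        _ < (‖z‖ + 1) * (ε / (3 * (‖z‖ + 1))) := by gcongr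
        _ = ε / 3 := by field_simp
    rw [h2]
    have h7 := norm_add_le (x m (η - z Ω) - x n (η - z Ω)) ((x m - x n) (z Ω))
    have h8 := norm_sub_le (x m (η - z Ω)) (x n (η - z Ω))
    linarith [h4 m, h4 n]
  choose f hf using fun η => cauchySeq_tendsto_of_complete (hcau η)
  have hb : ∀ η, ‖f η‖ ≤ C * ‖η‖ := fun η =>
    le_of_tendsto' (hf η).norm fun n =>
      ((x n).le_opNorm η).trans (mul_le_mul_of_nonneg_right (hC n) (norm_nonneg _))
  let yl : H →ₗ[ℂ] H :=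
    { toFun := f
      map_add' := fun a b => tendsto_nhds_unique (hf (a + b))
        (by simpa using (hf a).add (hf b))
      map_smul' := fun c a => tendsto_nhds_unique (hf (c • a))
        (by simpa using (hf a).const_smul c) }
  let y : H →L[ℂ] H := yl.mkContinuous C hb
  refine ⟨y, ?_, yl.mkContinuous_norm_le hC0 hb, tendsto_nhds_unique (hf Ω) hξ, hf⟩
  rw [← P.commutant_commutant, VonNeumannAlgebra.mem_commutant_iff]
  intro g hg
  rw [VonNeumannAlgebra.mem_commutant_iff] at hg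
  ext η
  refine tendsto_nhds_unique ((g.continuous.tendsto _).comp (hf η)) ((hf (g η)).congr fun n => ?_)
  exact congrArg (fun T : H →L[ℂ] H => T η) (hg _ (hx n))

section Avg

variable {G : Type*}

/-- Finitely supported probability weights. -/
structure IsProb (ν : G →₀ ℝ) : Prop where
  nonneg : ∀ a, 0 ≤ ν a
  sum : ∑ a ∈ ν.support, ν a = 1

/-- The average of `f` for the weights `ν`. -/
noncomputable def avg {E : Type*} [AddCommMonoid E] [Module ℂ E] (ν : G →₀ ℝ) (f : G → E) : E :=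
  ∑ a ∈ ν.support, (ν a : ℂ) • f a

variable {E : Type*}

theorem avg_eq_sum [AddCommMonoid E] [Module ℂ E] (ν : G →₀ ℝ) (f : G → E) :
    avg ν f = ν.sum fun a r => (r : ℂ) • f a := rfl

theorem avg_add [AddCommMonoid E] [Module ℂ E] (ν μ : G →₀ ℝ) (f : G → E) :
    avg (ν + μ) f = avg ν f + avg μ f := by
  simp only [avg_eq_sum]
  exact Finsupp.sum_add_index' (by simp) (by simp [add_smul])

theorem avg_smul [AddCommMonoid E] [Module ℂ E] (c : ℝ) (ν : G →₀ ℝ) (f : G → E) :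
    avg (c • ν) f = (c : ℂ) • avg ν f := by
  simp only [avg_eq_sum]
  rw [Finsupp.sum_smul_index' (by simp), Finsupp.smul_sum]
  simp [mul_smul]

theorem avg_mapDomain [AddCommMonoid E] [Module ℂ E] (σ : G → G) (ν : G →₀ ℝ) (f : G → E) :
    avg (ν.mapDomain σ) f = avg ν fun a => f (σ a) := by
  simp only [avg_eq_sum]
  exact Finsupp.sum_mapDomain_index (by simp) (by simp [add_smul])

theorem avg_single [AddCommMonoid E] [Module ℂ E] (a : G) (f : G → E) :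
    avg (Finsupp.single a 1) f = f a := by
  simp [avg_eq_sum]

theorem map_avg {F L : Type*} [AddCommMonoid E] [Module ℂ E] [AddCommMonoid F] [Module ℂ F]
    [FunLike L E F] [LinearMapClass L ℂ E F] (T : L) (ν : G →₀ ℝ) (f : G → E) :
    T (avg ν f) = avg ν fun a => T (f a) := by
  simp [avg, map_sum]

theorem IsProb.avg_const [AddCommMonoid E] [Module ℂ E] {ν : G →₀ ℝ} (h : IsProb ν) (e : E) :
    avg ν (fun _ => e) = e := by
  rw [avg, ← Finset.sum_smul, ← Complex.ofReal_sum, h.sum, Complex.ofReal_one, one_smul]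

theorem isProb_iff {ν : G →₀ ℝ} :
    IsProb ν ↔ (∀ a, 0 ≤ ν a) ∧ avg ν (fun _ => (1 : ℂ)) = 1 := by
  refine ⟨fun h => ⟨h.nonneg, h.avg_const 1⟩, fun h => ⟨h.1, ?_⟩⟩
  have := h.2
  simp only [avg, smul_eq_mul, mul_one] at this
  exact_mod_cast this

theorem isProb_single (a : G) : IsProb (Finsupp.single a (1 : ℝ)) := by
  classical
  refine isProb_iff.2 ⟨fun b => ?_, avg_single _ _⟩
  rw [Finsupp.single_apply]
  split_ifs <;> norm_num

theorem IsProb.mapDomain {ν : G →₀ ℝ} (h : IsProb ν) (σ : G → G) : IsProb (ν.mapDomain σ) := by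
  classical
  refine isProb_iff.2 ⟨fun b => ?_, by rw [avg_mapDomain, h.avg_const]⟩
  rw [Finsupp.mapDomain, Finsupp.sum_apply]
  refine Finset.sum_nonneg fun a _ => ?_
  show 0 ≤ Finsupp.single (σ a) (ν a) b
  rw [Finsupp.single_apply]
  split_ifs
  · exact h.nonneg a
  · exact le_rfl

theorem IsProb.mid {ν μ : G →₀ ℝ} (h : IsProb ν) (h' : IsProb μ) :
    IsProb ((1 / 2 : ℝ) • (ν + μ)) := by
  refine isProb_iff.2 ⟨fun b => ?_, ?_⟩
  · have := h.nonneg b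
    have := h'.nonneg b
    simp only [Finsupp.smul_apply, Finsupp.add_apply, smul_eq_mul]
    positivity
  · rw [avg_smul, avg_add, h.avg_const, h'.avg_const]
    norm_num

theorem IsProb.norm_avg_le [SeminormedAddCommGroup E] [NormedSpace ℂ E] {ν : G →₀ ℝ}
    (h : IsProb ν) {f : G → E} {C : ℝ} (hf : ∀ a, ‖f a‖ ≤ C) : ‖avg ν f‖ ≤ C := by
  refine (norm_sum_le _ _).trans ?_
  calc ∑ a ∈ ν.support, ‖(ν a : ℂ) • f a‖ ≤ ∑ a ∈ ν.support, ν a * C :=
        Finset.sum_le_sum fun a _ => by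
          rw [norm_smul, Complex.norm_real, Real.norm_of_nonneg (h.nonneg a)]
          exact mul_le_mul_of_nonneg_left (hf a) (h.nonneg a)
    _ = C := by rw [← Finset.sum_mul, h.sum, one_mul]

theorem avg_mem {S : Type*} [AddCommMonoid E] [Module ℂ E] [SetLike S E] [AddSubmonoidClass S E]
    [SMulMemClass S ℂ E] {V : S} (ν : G →₀ ℝ) {f : G → E} (hf : ∀ a, f a ∈ V) : avg ν f ∈ V :=
  sum_mem fun a _ => SMulMemClass.smul_mem _ (hf a)

theorem avg_sub [AddCommGroup E] [Module ℂ E] (ν : G →₀ ℝ) (f g : G → E) :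
    avg ν (fun a => f a - g a) = avg ν f - avg ν g := by
  simp [avg, smul_sub]

/-- Minimising averages of an orbit are Cauchy and uniformly almost invariant. -/
theorem exists_minimizing [Group G] [NormedAddCommGroup E] [InnerProductSpace ℂ E] (v : G → E)
    (hv : ∀ g a b, ⟪v (g * a), v (g * b)⟫_ℂ = ⟪v a, v b⟫_ℂ) :
    ∃ (ν : ℕ → G →₀ ℝ) (ε : ℕ → ℝ), (∀ n, IsProb (ν n)) ∧ Tendsto ε atTop (𝓝 0) ∧
      (∀ n m, ‖avg (ν n) v - avg (ν m) v‖ ≤ ε n + ε m) ∧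
      ∀ n g, ‖avg (ν n) (fun a => v (g * a)) - avg (ν n) v‖ ≤ ε n := by
  let A : Set ℝ := {r | ∃ ν, IsProb ν ∧ ‖avg ν v‖ ^ 2 = r}
  have hne : A.Nonempty := ⟨_, _, isProb_single 1, rfl⟩
  have hbd : BddBelow A := ⟨0, by rintro _ ⟨ν, -, rfl⟩; positivity⟩
  have hle : ∀ ν, IsProb ν → sInf A ≤ ‖avg ν v‖ ^ 2 := fun ν hν => csInf_le hbd ⟨ν, hν, rfl⟩
  have hex : ∀ n : ℕ, ∃ ν, IsProb ν ∧ ‖avg ν v‖ ^ 2 < sInf A + (1 / ((n : ℝ) + 1)) ^ 2 := by
    intro n
    obtain ⟨_, ⟨ν, hν, rfl⟩, h⟩ := exists_lt_of_csInf_lt hne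
      (lt_add_of_pos_right (sInf A) (show (0 : ℝ) < (1 / ((n : ℝ) + 1)) ^ 2 by positivity))
    exact ⟨ν, hν, h⟩
  choose ν hν hν' using hex
  have key : ∀ (μ μ' : G →₀ ℝ) (s t : ℝ), 0 ≤ s → 0 ≤ t → IsProb μ → IsProb μ' →
      ‖avg μ v‖ ^ 2 < sInf A + s ^ 2 → ‖avg μ' v‖ ^ 2 < sInf A + t ^ 2 →
      ‖avg μ v - avg μ' v‖ ≤ 2 * s + 2 * t ∧ (s = t → ‖avg μ v - avg μ' v‖ ≤ 2 * s) := by
    intro μ μ' s t hs ht hμ hμ' h1 h2
    have h3 := hle _ (hμ.mid hμ')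
    rw [avg_smul, avg_add, norm_smul] at h3
    have h4 := parallelogram_law_with_norm ℂ (avg μ v) (avg μ' v)
    have h5 : ‖((1 / 2 : ℝ) : ℂ)‖ = 1 / 2 := by simp
    rw [h5] at h3
    have h6 : ‖avg μ v - avg μ' v‖ ^ 2 ≤ 2 * s ^ 2 + 2 * t ^ 2 := by nlinarith
    refine ⟨(pow_le_pow_iff_left₀ (norm_nonneg _) (by positivity) two_ne_zero).1 ?_, ?_⟩
    · nlinarith [mul_nonneg hs ht]
    · rintro rfl
      refine (pow_le_pow_iff_left₀ (norm_nonneg _) (by positivity) two_ne_zero).1 ?_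
      nlinarith
  refine ⟨ν, fun n => 2 * (1 / ((n : ℝ) + 1)), hν, ?_, fun n m => ?_, fun n g => ?_⟩
  · simpa using (tendsto_one_div_add_atTop_nhds_zero_nat (𝕜 := ℝ)).const_mul 2
  · exact (key _ _ _ _ (by positivity) (by positivity) (hν n) (hν m) (hν' n) (hν' m)).1
  · rw [← avg_mapDomain (fun a => g * a) (ν n) v]
    refine (key _ _ _ _ (by positivity) (by positivity) ((hν n).mapDomain _) (hν n) ?_
      (hν' n)).2 rfl
    have h1 : ‖avg (Finsupp.mapDomain (fun a => g * a) (ν n)) v‖ = ‖avg (ν n) v‖ := by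
      rw [avg_mapDomain, norm_eq_sqrt_re_inner (𝕜 := ℂ), norm_eq_sqrt_re_inner (𝕜 := ℂ)]
      simp only [avg, sum_inner, inner_sum, inner_smul_left, inner_smul_right, hv]
    rw [h1]
    exact hν' n

end Avg

end Pool.Agent.MP_82452b_an.H8
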