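import Pool.Agent.MP_82452b_an.H8.Stmt
import Pool.Agent.MP_82452b_an.H8.Base

/-!
# Comparison of the definitions of the statement with the working ones
-/

namespace Pool.Agent.MP_82452b_an.H8

open Filter Topology
open scoped InnerProductSpace

variable {H : Type} [NormedAddCommGroup H] [InnerProductSpace ℂ H] [CompleteSpace H]
  {K : Type} [NormedAddCommGroup K] [InnerProductSpace ℂ K] [CompleteSpace K]

theorem isTrace_iff {N : VonNeumannAlgebra H} {τ : (H →L[ℂ] H) → ℂ} :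
    Stmt.IsTrace N τ ↔ MP_755d6b_an.H98.IsTrace N τ :=
  ⟨fun ⟨h1, h2, h3, h4, h5, h6, h7⟩ => ⟨h1, h2, h3, h4, h5, h6, h7⟩,
    fun ⟨h1, h2, h3, h4, h5, h6, h7⟩ => ⟨h1, h2, h3, h4, h5, h6, h7⟩⟩

theorem isStd_iff {N : VonNeumannAlgebra H} {Ω : H} : Stmt.IsStdII1 N Ω ↔ IsStdII1 N Ω :=
  ⟨fun ⟨h1, h2, h3, h4⟩ => ⟨⟨isTrace_iff.1 h1, h2, h3⟩, h4⟩,
    fun ⟨⟨h1, h2, h3⟩, h4⟩ => ⟨isTrace_iff.2 h1, h2, h3, h4⟩⟩

theorem indexTwo_iff {P M : VonNeumannAlgebra H} {Ω : H} :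
    Stmt.IndexTwo P M Ω ↔ IndexTwo P M Ω :=
  ⟨fun ⟨h1, h2, tr, h3, h4⟩ => ⟨h1, h2, tr, isTrace_iff.1 h3, h4⟩,
    fun ⟨h1, h2, tr, h3, h4⟩ => ⟨h1, h2, tr, isTrace_iff.2 h3, h4⟩⟩

variable {M : VonNeumannAlgebra H} {Ω : H} {U : Ultrafilter ℕ} {L : VonNeumannAlgebra K} {Ψ : K}

theorem IsUltrapower.toStmt {π : BddSeq M →⋆ₐ[ℂ] (K →L[ℂ] K)} (h : IsUltrapower M Ω U L Ψ π) :
    ∃ π', Stmt.IsUltrapower M Ω U L Ψ π' := by
  classical
  let π' : (ℕ → (H →L[ℂ] H)) → (K →L[ℂ] K) := fun x => if hx : x ∈ BddSeq M then π ⟨x, hx⟩ else 0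
  have h1 : ∀ x : BddSeq M, π' x.1 = π x := fun x => dif_pos x.2
  refine ⟨π', isStd_iff.2 h.std, fun x y hx hy => ?_, fun x y hx hy => ?_, fun c x hx => ?_,
    fun x hx => ?_, fun y => ?_, fun x hx => ?_⟩
  · exact (h1 (⟨x, hx⟩ + ⟨y, hy⟩)).trans ((map_add π _ _).trans (by rw [← h1, ← h1]))
  · exact (h1 (⟨x, hx⟩ * ⟨y, hy⟩)).trans ((map_mul π _ _).trans (by rw [← h1, ← h1]))
  · exact (h1 (c • ⟨x, hx⟩)).trans ((map_smul π _ _).trans (by rw [← h1]))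
  · exact (h1 (star ⟨x, hx⟩)).trans ((map_star π _).trans (by rw [← h1]))
  · rw [h.onto]
    exact ⟨fun ⟨x, hx⟩ => ⟨x.1, x.2, (h1 x).trans hx⟩,
      fun ⟨x, hx, h2⟩ => ⟨⟨x, hx⟩, (h1 ⟨x, hx⟩).symm.trans h2⟩⟩
  · have := h.trace ⟨x, hx⟩
    rwa [← h1] at this

theorem isUltrapower_of_stmt {π : (ℕ → (H →L[ℂ] H)) → (K →L[ℂ] K)}
    (h : Stmt.IsUltrapower M Ω U L Ψ π) :
    ∃ π' : BddSeq M →⋆ₐ[ℂ] (K →L[ℂ] K), IsUltrapower M Ω U L Ψ π' := by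
  have h1 : π (1 : BddSeq M).1 = 1 := by
    obtain ⟨x, hx, h2⟩ := (h.onto 1).1 (one_mem L)
    have h3 := h.mul _ x (1 : BddSeq M).2 hx
    rw [h2, mul_one] at h3
    rw [← h3, ← h2]
    exact congrArg π (funext fun i => one_mul (x i))
  have h0 : π (0 : BddSeq M).1 = 0 := by
    have h3 := h.smul 0 _ (0 : BddSeq M).2
    rw [zero_smul] at h3
    rw [← h3]
    exact congrArg π (funext fun i => (zero_smul _ _).symm)
  refine ⟨{ toFun := fun x => π x.1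
            map_one' := h1
            map_mul' := fun x y => h.mul _ _ x.2 y.2
            map_zero' := h0
            map_add' := fun x y => h.add _ _ x.2 y.2
            commutes' := fun c => ?_
            map_star' := fun x => h.star _ x.2 }, isStd_iff.1 h.std, fun y => ?_,
    fun x => h.trace _ x.2⟩
  · rw [Algebra.algebraMap_eq_smul_one, Algebra.algebraMap_eq_smul_one, ← h1]
    exact h.smul c _ (1 : BddSeq M).2
  · rw [h.onto]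
    exact ⟨fun ⟨x, hx, h2⟩ => ⟨⟨x, hx⟩, h2⟩, fun ⟨x, hx⟩ => ⟨x.1, x.2, hx⟩⟩

end Pool.Agent.MP_82452b_an.H8
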