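import Pool.Agent.MP_82452b_an.H8.Coc

/-!
# Almost disjoint families, ladders, conflict-free assignments
-/

namespace Pool.Agent.MP_82452b_an.H8

open Filter Topology Cardinal
open scoped ENNReal

/-- The almost disjoint family of branches. -/
def AD (x : TT) : Set ℕ := Set.range fun n => Encodable.encode (List.ofFn fun i : Fin n => x i)

theorem AD_infinite (x : TT) : (AD x).Infinite := by
  refine Set.infinite_range_of_injective fun n m h => ?_
  have := congrArg List.length (Encodable.encode_injective h)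
  simpa using this

theorem AD_inter {x y : TT} (h : x ≠ y) : (AD x ∩ AD y).Finite := by
  obtain ⟨k, hk⟩ := Function.ne_iff.1 h
  refine ((Set.finite_le_nat k).image
    fun n => Encodable.encode (List.ofFn fun i : Fin n => x i)).subset ?_
  rintro _ ⟨⟨n, rfl⟩, m, hm⟩
  refine ⟨n, ?_, rfl⟩
  have h1 := Encodable.encode_injective hm
  have h2 : m = n := by simpa using congrArg List.length h1
  subst h2
  by_contra h3
  exact hk (congrFun (List.ofFn_injective h1) ⟨k, not_le.1 h3⟩).symm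

theorem exists_gt_countable {A : Set W} (hA : A.Countable) : ∃ α, ∀ γ ∈ A, γ < α := by
  by_contra h
  push Not at h
  refine Set.not_countable_univ (α := W) ((hA.biUnion fun γ _ =>
    (countable_Iio γ).insert γ).mono fun α _ => ?_)
  obtain ⟨γ, h1, h2⟩ := h α
  exact Set.mem_biUnion h1 (Set.mem_insert_iff.2 h2.eq_or_lt)

/-- Limit levels. -/
def Lim (α : W) : Prop := (∃ γ, γ < α) ∧ ∀ γ < α, ∃ γ', γ < γ' ∧ γ' < α

theorem Lim.exists_bound {α : W} (h : Lim α) {A : Set W} (hA : A.Finite) (h1 : ∀ γ ∈ A, γ < α) :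
    ∃ δ < α, ∀ γ ∈ A, γ < δ := by
  rcases A.eq_empty_or_nonempty with rfl | hne
  · obtain ⟨γ, h2⟩ := h.1
    exact ⟨γ, h2, by simp⟩
  · obtain ⟨γ, h2, h3⟩ := hA.exists_maximal hne
    obtain ⟨δ, h4, h5⟩ := h.2 γ (h1 γ h2)
    exact ⟨δ, h5, fun γ' h6 => lt_of_le_of_lt (le_of_not_gt fun h7 => h7.not_ge (h3 h6 h7.le)) h4⟩

/-- A ladder on `α`. -/
structure IsLad (α : W) (l : ℕ → W) : Prop where
  lt : ∀ n, l n < α
  inj : Function.Injective l
  fin : ∀ γ < α, {n | l n ≤ γ}.Finite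

theorem Lim.exists_lad {α : W} (h : Lim α) : ∃ l, IsLad α l := by
  obtain ⟨e, he⟩ := (countable_Iio α).exists_eq_range h.1
  have he1 : ∀ n, e n < α := fun n => (he ▸ Set.mem_range_self n : e n ∈ Set.Iio α)
  choose! s hs1 hs2 using h.2
  let l : ℕ → W := fun n => Nat.rec (e 0) (fun k a => s (max a (e k))) n
  have hl : ∀ n, l n < α := fun n => by
    induction n with
    | zero => exact he1 0
    | succ n ih => exact hs2 _ (max_lt ih (he1 n))
  have hm : StrictMono l := strictMono_nat_of_lt_succ fun n =>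
    lt_of_le_of_lt (le_max_left _ _) (hs1 _ (max_lt (hl n) (he1 n)))
  refine ⟨l, hl, hm.injective, fun γ hγ => ?_⟩
  obtain ⟨k, rfl⟩ : γ ∈ Set.range e := he ▸ hγ
  refine (Set.finite_le_nat k).subset fun n hn => ?_
  by_contra h1
  have h2 : e k < l (k + 1) := lt_of_le_of_lt (le_max_right _ _) (hs1 _ (max_lt (hl k) (he1 k)))
  exact (h2.trans_le (hm.monotone (Nat.succ_le_of_lt (not_le.1 h1)))).not_ge hn

open Classical in
/-- The chosen ladders. -/
noncomputable def lad (α : W) : ℕ → W := if h : Lim α then h.exists_lad.choose else fun _ => α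

theorem Lim.isLad {α : W} (h : Lim α) : IsLad α (lad α) := by
  rw [lad, dif_pos h]
  exact h.exists_lad.choose_spec

theorem mk_TT : #TT = 𝔠 := by simp

theorem exists_assignment (Bad : TT → TT → Prop) (Conf : TT → TT → TT → TT → Prop)
    (h1 : ∀ t, {x | Bad t x}.Countable) (h2 : ∀ t x t', {x' | Conf t x t' x'}.Countable)
    (h3 : ∀ t t' x', {x | Conf t x t' x'}.Countable) :
    ∃ f : TT → TT, (∀ t, ¬ Bad t (f t)) ∧ ∀ t t', t ≠ t' → f t ≠ f t' ∧ ¬ Conf t (f t) t' (f t') := by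
  obtain ⟨r, hr, hord⟩ := Cardinal.exists_ord_eq TT
  have key : ∀ (t : TT) (g : ∀ s, r s t → TT), ∃ x, ¬ Bad t x ∧
      ∀ s (h : r s t), g s h ≠ x ∧ ¬ Conf s (g s h) t x ∧ ¬ Conf t x s (g s h) := by
    intro t g
    let B : {s // r s t} → Set TT := fun s =>
      insert (g s.1 s.2) ({x | Conf s.1 (g s.1 s.2) t x} ∪ {x | Conf t x s.1 (g s.1 s.2)})
    have hB : ∀ s, #(B s) ≤ ℵ₀ := fun s => le_aleph0_iff_set_countable.2
      (((h2 _ _ _).union (h3 _ _ _)).insert _)
    have hs : #{s // r s t} < 𝔠 := mk_TT ▸ card_typein_lt t hord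
    have hU : #({x | Bad t x} ∪ ⋃ s, B s : Set TT) < 𝔠 := by
      refine (mk_union_le _ _).trans_lt (add_lt_of_lt aleph0_le_continuum
        ((le_aleph0_iff_set_countable.2 (h1 t)).trans_lt aleph0_lt_continuum) ?_)
      refine (mk_iUnion_le B).trans_lt (mul_lt_of_lt aleph0_le_continuum hs ?_)
      exact (ciSup_le' hB).trans_lt aleph0_lt_continuum
    have hne : ({x | Bad t x} ∪ ⋃ s, B s : Set TT) ≠ Set.univ := fun h => by
      rw [h, mk_univ, mk_TT] at hU
      exact lt_irrefl _ hU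
    obtain ⟨x, hx⟩ := (Set.ne_univ_iff_exists_notMem _).1 hne
    simp only [Set.mem_union, Set.mem_iUnion, not_or, not_exists, B, Set.mem_insert_iff,
      Set.mem_ofPred_eq] at hx
    exact ⟨x, hx.1, fun s h => ⟨Ne.symm (hx.2 ⟨s, h⟩).1, (hx.2 ⟨s, h⟩).2⟩⟩
  choose k hk1 hk2 using key
  let f : TT → TT := hr.wf.fix k
  have hf : ∀ t, f t = k t fun s _ => f s := fun t => hr.wf.fix_eq k t
  refine ⟨f, fun t => hf t ▸ hk1 t _, fun t t' h => ?_⟩
  rcases trichotomous_of r t t' with h4 | h4 | h4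
  · have := hk2 t' (fun s _ => f s) t h4
    rw [← hf] at this
    exact ⟨this.1, this.2.1⟩
  · exact absurd h4 h
  · have := hk2 t (fun s _ => f s) t' h4
    rw [← hf] at this
    exact ⟨this.1.symm, this.2.2⟩

/-- The mass of a set of integers. -/
noncomputable def mass (w : ℕ → ℝ≥0∞) (D : Set ℕ) : ℝ≥0∞ := ∑' k, D.indicator w k

theorem mass_mono (w : ℕ → ℝ≥0∞) {D D' : Set ℕ} (h : D ⊆ D') : mass w D ≤ mass w D' :=
  ENNReal.tsum_le_tsum fun k => Set.indicator_le_indicator_of_subset h (fun _ => zero_le) k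

theorem sum_mass_le {X : Type} (w : ℕ → ℝ≥0∞) (s : Finset X) (D : X → Set ℕ) (B : Finset ℕ)
    (h : ∀ x ∈ s, ∀ y ∈ s, x ≠ y → D x ∩ D y ⊆ B) :
    ∑ x ∈ s, mass w (D x) ≤ ∑' k, w k + s.card * ∑ k ∈ B, w k := by
  classical
  have h1 : ∀ k, ∑ x ∈ s, (D x).indicator w k ≤ w k + s.card * (B : Set ℕ).indicator w k := by
    intro k
    by_cases hk : k ∈ B
    · rw [Set.indicator_of_mem (Finset.mem_coe.2 hk), ← nsmul_eq_mul]
      exact (Finset.sum_le_card_nsmul _ _ _ fun x _ => Set.indicator_le_self _ _ k).trans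
        le_add_self
    · refine le_add_right ?_
      by_cases h2 : ∃ x ∈ s, k ∈ D x
      · obtain ⟨x, hx, hx'⟩ := h2
        rw [Finset.sum_eq_single_of_mem x hx fun y hy hyx =>
          Set.indicator_of_notMem (fun h3 => hk (h y hy x hx hyx ⟨h3, hx'⟩)) _]
        exact Set.indicator_le_self _ _ k
      · push Not at h2
        rw [Finset.sum_eq_zero fun x hx => Set.indicator_of_notMem (h2 x hx) _]
        exact zero_le
  unfold mass
  rw [← Summable.tsum_finsetSum fun _ _ => ENNReal.summable]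
  refine (ENNReal.tsum_le_tsum h1).trans ?_
  rw [ENNReal.tsum_add, ENNReal.tsum_mul_left, sum_eq_tsum_indicator]

theorem countable_emb {X Y : Type} [Nonempty Y] (w : ℕ → ℕ → ℝ≥0∞) (hw : ∀ i, ∑' k, w i k ≤ 1)
    (hw0 : ∀ k, Tendsto (fun i => w i k) atTop (𝓝 0)) (D : X → Y → Set ℕ)
    (hD : ∀ x x', x ≠ x' → ∀ y y', (D x y ∩ D x' y').Finite) {I : Set ℕ} (hI : I.Infinite) :
    {x | ∃ (y : Y) (δ : ℝ≥0∞), 0 < δ ∧ ∀ i ∈ I, δ ≤ mass (w i) (D x y)}.Countable := by
  classical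
  refine (Set.countable_iUnion fun n : ℕ => Set.Finite.countable
    (s := {x | ∃ y : Y, ∀ i ∈ I, (n : ℝ≥0∞)⁻¹ ≤ mass (w i) (D x y)}) ?_).mono ?_
  · by_contra hinf
    obtain ⟨s, hs1, hs2⟩ := Set.Infinite.exists_subset_card_eq hinf (2 * n + 2)
    choose! y hy using fun x (hx : x ∈ s) => hs1 hx
    have hB : (⋃ x ∈ s, ⋃ x' ∈ s.erase x, D x (y x) ∩ D x' (y x')).Finite :=
      s.finite_toSet.biUnion fun x _ => (s.erase x).finite_toSet.biUnion fun x' hx' =>
        hD x x' (Finset.ne_of_mem_erase hx').symm _ _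
    have ht : Tendsto (fun i => (s.card : ℝ≥0∞) * ∑ k ∈ hB.toFinset, w i k) atTop (𝓝 0) := by
      have := ENNReal.Tendsto.const_mul (a := (s.card : ℝ≥0∞))
        (tendsto_finsetSum hB.toFinset fun k _ => hw0 k) (Or.inr (by simp))
      simpa using this
    obtain ⟨N, hN⟩ := eventually_atTop.1 (ht.eventually (gt_mem_nhds zero_lt_one))
    obtain ⟨i, hi, hiN⟩ := hI.exists_gt N
    have h1 := sum_mass_le (w i) s (fun x => D x (y x)) hB.toFinset fun x hx x' hx' h k hk => by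
      rw [Finset.mem_coe, Set.Finite.mem_toFinset]
      exact Set.mem_biUnion hx (Set.mem_biUnion (Finset.mem_erase.2 ⟨h.symm, hx'⟩) hk)
    have h2 : s.card • (n : ℝ≥0∞)⁻¹ ≤ ∑ x ∈ s, mass (w i) (D x (y x)) :=
      Finset.card_nsmul_le_sum _ _ _ fun x hx => hy x hx i hi
    have h3 : s.card • (n : ℝ≥0∞)⁻¹ < 1 + 1 :=
      (h2.trans h1).trans_lt (ENNReal.add_lt_add_of_le_of_lt
        ((hw i).trans_lt ENNReal.one_lt_top).ne (hw i) (hN i hiN.le))
    rw [hs2, nsmul_eq_mul, ← div_eq_mul_inv, ENNReal.div_lt_iff (Or.inr (by simp))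
      (Or.inl (by simp))] at h3
    norm_cast at h3
    omega
  · rintro x ⟨y, δ, hδ, h⟩
    obtain ⟨n, hn⟩ := ENNReal.exists_inv_nat_lt hδ.ne'
    exact Set.mem_iUnion.2 ⟨n, y, fun i hi => hn.le.trans (h i hi)⟩

theorem exists_countable_closed {X : Type} (Φ : X → Set X) (hΦ : ∀ x, (Φ x).Countable)
    {A : Set X} (hA : A.Countable) : ∃ B, A ⊆ B ∧ B.Countable ∧ ∀ x ∈ B, Φ x ⊆ B := by
  let C : ℕ → Set X := fun n => Nat.rec A (fun _ D => ⋃ x ∈ D, Φ x) n
  have hC : ∀ n, (C n).Countable := fun n => by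
    induction n with
    | zero => exact hA
    | succ n ih => exact ih.biUnion fun x _ => hΦ x
  refine ⟨⋃ n, C n, Set.subset_iUnion C 0, Set.countable_iUnion hC, fun x hx y hy => ?_⟩
  obtain ⟨n, hn⟩ := Set.mem_iUnion.1 hx
  exact Set.mem_iUnion.2 ⟨n + 1, Set.mem_biUnion hn hy⟩

end Pool.Agent.MP_82452b_an.H8
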