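import Mathlib

/-!
# Iterated wreath products of length `ω₁`, described by cocycles
-/

namespace Pool.Agent.MP_82452b_an.H8

open Sum
open FreeGroup (of)

/-- The levels. -/
def W : Type := (Cardinal.aleph 1).ord.ToType

noncomputable instance : LinearOrder W :=
  inferInstanceAs (LinearOrder (Cardinal.aleph 1).ord.ToType)

instance : WellFoundedLT W := inferInstanceAs (WellFoundedLT (Cardinal.aleph 1).ord.ToType)

theorem mk_W : Cardinal.mk W = Cardinal.aleph 1 := Cardinal.mk_ord_toType _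

theorem countable_Iio (γ : W) : (Set.Iio γ).Countable := by
  rw [← Cardinal.le_aleph0_iff_set_countable, ← Order.lt_succ_iff, Cardinal.succ_aleph0]
  exact Cardinal.mk_Iio_toType_ord_lt γ

instance : Uncountable W := by
  rw [← Cardinal.aleph0_lt_mk_iff, mk_W]
  exact Cardinal.aleph0_lt_aleph_one

/-- Names of the marker columns. -/
abbrev TT : Type := ℕ → Bool

/-- The columns. -/
abbrev J : Type := ℕ ⊕ Option TT

/-- The central column. -/
abbrev cD : J := inr none

/-- The base group. -/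
abbrev Bs : Type := ℕ → Equiv.Perm (Fin 6)

/-- The base generators. -/
abbrev BG : Type := ℕ × {σ : Equiv.Perm (Fin 6) // σ ^ 3 = 1}

/-- The generators. -/
abbrev Gen : Type := BG ⊕ (W × J)

/-- The free group. -/
abbrev F : Type := FreeGroup Gen

/-- Points: a column and a subset of the group. -/
@[ext] structure Pt (G : Type) where
  col : J
  set : Set G

/-- Configurations. -/
abbrev V (G : Type) : Type := Pt G →₀ ZMod 3

section Act

variable {G : Type} [Group G]

instance : MulAction G (Pt G) where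
  smul g p := ⟨p.col, {x | g⁻¹ * x ∈ p.set}⟩
  one_smul p := Pt.ext rfl (Set.ext fun x => by
    show (1 : G)⁻¹ * x ∈ p.set ↔ _
    rw [inv_one, one_mul])
  mul_smul g h p := Pt.ext rfl (Set.ext fun x => by
    show (g * h)⁻¹ * x ∈ p.set ↔ h⁻¹ * (g⁻¹ * x) ∈ p.set
    rw [mul_inv_rev, mul_assoc])

@[simp] theorem smul_col (g : G) (p : Pt G) : (g • p).col = p.col := rfl

theorem mem_smul_set (g : G) (p : Pt G) (x : G) : x ∈ (g • p).set ↔ g⁻¹ * x ∈ p.set := Iff.rfl

theorem smul_base_iff {g : G} {j : J} {K : Subgroup G} :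
    g • (⟨j, K⟩ : Pt G) = ⟨j, K⟩ ↔ g ∈ K := by
  constructor
  · intro h
    have h1 : g ∈ (g • (⟨j, K⟩ : Pt G)).set := by
      rw [mem_smul_set, inv_mul_cancel]; exact K.one_mem
    rw [h] at h1
    exact h1
  · intro h
    exact Pt.ext rfl (Set.ext fun x => K.mul_mem_cancel_left (K.inv_mem h))

/-- The action on configurations. -/
noncomputable def act (g : G) : V G →+ V G := Finsupp.mapDomain.addMonoidHom (g • ·)

theorem act_single (g : G) (p : Pt G) (c : ZMod 3) :
    act g (Finsupp.single p c) = Finsupp.single (g • p) c := Finsupp.mapDomain_single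

theorem act_smul (g : G) (v : V G) (p : Pt G) : act g v (g • p) = v p :=
  Finsupp.mapDomain_apply (MulAction.injective g) v p

theorem act_apply (g : G) (v : V G) (p : Pt G) : act g v p = v (g⁻¹ • p) := by
  rw [← act_smul g v, smul_inv_smul]

theorem act_mul (g h : G) (v : V G) : act (g * h) v = act g (act h v) := by
  ext p; simp only [act_apply, mul_inv_rev, mul_smul]

theorem act_one (v : V G) : act 1 v = v := by
  ext p; simp only [act_apply, inv_one, one_smul]

theorem act_nsmul (g : G) (c : ZMod 3) (v : V G) : act g (c • v) = c • act g v := by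
  ext p; simp only [act_apply, Finsupp.smul_apply]

theorem act_eq_self {g : G} {v : V G} (h : ∀ p, v p ≠ 0 → g • p = p) : act g v = v := by
  ext p
  rw [act_apply]
  by_cases h1 : v p = 0
  · by_contra h2
    rw [h1] at h2
    have h3 := h _ h2
    rw [smul_inv_smul] at h3
    rw [← h3] at h2
    exact h2 h1
  · rw [← h p h1, inv_smul_smul, h p h1]

/-- An affine permutation of the configurations. -/
noncomputable def aff (c : V G) (g : G) : Equiv.Perm (V G) where
  toFun v := c + act g v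
  invFun v := act g⁻¹ (v - c)
  left_inv v := by simp [← act_mul, act_one]
  right_inv v := by simp only [← act_mul, mul_inv_cancel, act_one]; abel

/-- The cocycle with given values on the generators. -/
noncomputable def coc (φ : F →* G) (c : Gen → V G) (f : F) : V G :=
  FreeGroup.lift (fun s => aff (c s) (φ (of s))) f 0

theorem lift_aff (φ : F →* G) (c : Gen → V G) (f : F) (v : V G) :
    FreeGroup.lift (fun s => aff (c s) (φ (of s))) f v = coc φ c f + act (φ f) v := by
  unfold coc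
  induction f using FreeGroup.induction_on generalizing v with
  | C1 => simp [act_one]
  | of s => simp [aff]
  | inv_of s _ =>
    simp only [map_inv, FreeGroup.lift_apply_of]
    show act _ (v - c s) = act _ (0 - c s) + _
    rw [← map_add]; congr 1; abel
  | mul f g hf hg =>
    simp only [map_mul, Equiv.Perm.mul_apply]
    rw [hf, hg, hf (FreeGroup.lift (fun s => aff (c s) (φ (of s))) g 0), map_add, act_mul,
      add_assoc]

theorem coc_mul (φ : F →* G) (c : Gen → V G) (f g : F) :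
    coc φ c (f * g) = coc φ c f + act (φ f) (coc φ c g) := by
  rw [← lift_aff, coc, map_mul]; rfl

theorem coc_of (φ : F →* G) (c : Gen → V G) (s : Gen) : coc φ c (of s) = c s := by
  simp [coc, aff]

theorem cocycle_one {G' : Type} [Group G'] {φ : G' →* G} {u : G' → V G}
    (hu : ∀ f g, u (f * g) = u f + act (φ f) (u g)) : u 1 = 0 := by
  have := hu 1 1
  rw [mul_one, map_one, act_one] at this
  exact left_eq_add.1 this

theorem cocycle_inv {G' : Type} [Group G'] {φ : G' →* G} {u : G' → V G}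
    (hu : ∀ f g, u (f * g) = u f + act (φ f) (u g)) (f : G') : u f⁻¹ = -act (φ f)⁻¹ (u f) := by
  have := hu f⁻¹ f
  rw [inv_mul_cancel, cocycle_one hu, map_inv] at this
  exact eq_neg_of_add_eq_zero_left this.symm

theorem cocycle_ext {φ : F →* G} {u v : F → V G} (hu : ∀ f g, u (f * g) = u f + act (φ f) (u g))
    (hv : ∀ f g, v (f * g) = v f + act (φ f) (v g)) (h : ∀ s, u (of s) = v (of s)) (f : F) :
    u f = v f := by
  induction f using FreeGroup.induction_on with
  | C1 => rw [cocycle_one hu, cocycle_one hv]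
  | of s => exact h s
  | inv_of s hs => rw [cocycle_inv hu, cocycle_inv hv, hs]
  | mul f g hf hg => rw [hu, hv, hf, hg]

end Act

/-- A group generated by the base generators and the lamps, with its level cocycles. -/
structure PreTw (G : Type) [Group G] where
  pr : F →* G
  surj : Function.Surjective pr
  b : G →* Bs
  b_inl : ∀ s : BG, b (pr (of (inl s))) = Pi.mulSingle s.1 s.2.1
  b_inr : ∀ s, b (pr (of (inr s))) = 1
  K : W → J → Subgroup G
  om : W → G → V G
  om_mul : ∀ γ g h, om γ (g * h) = om γ g + act g (om γ h)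
  om_inl : ∀ γ s, om γ (pr (of (inl s))) = 0
  om_self : ∀ γ j, om γ (pr (of (inr (γ, j)))) = Finsupp.single ⟨j, K γ j⟩ 1
  om_ne : ∀ γ γ' j, γ' ≠ γ → om γ (pr (of (inr (γ', j)))) = 0
  Z_le : ∀ γ j g, b g = 1 → (∀ γ' < γ, om γ' g = 0) → g ∈ K γ j

namespace PreTw

variable {G : Type} [Group G] (T : PreTw G)

/-- The generators. -/
def gen (s : Gen) : G := T.pr (of s)

/-- The lamp at the base point. -/
def x (γ : W) (j : J) : G := T.gen (inr (γ, j))

/-- The base points. -/
def base (γ : W) (j : J) : Pt G := ⟨j, T.K γ j⟩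

theorem om_one (γ : W) : T.om γ 1 = 0 := cocycle_one (φ := MonoidHom.id G) (T.om_mul γ)

theorem om_inv (γ : W) (g : G) : T.om γ g⁻¹ = -act g⁻¹ (T.om γ g) :=
  cocycle_inv (φ := MonoidHom.id G) (T.om_mul γ) g

theorem om_x_self (γ : W) (j : J) : T.om γ (T.x γ j) = Finsupp.single (T.base γ j) 1 :=
  T.om_self γ j

theorem om_x_ne {γ γ' : W} (h : γ' ≠ γ) (j : J) : T.om γ (T.x γ' j) = 0 := T.om_ne γ γ' j h

theorem b_x (γ : W) (j : J) : T.b (T.x γ j) = 1 := T.b_inr _

theorem smul_base {g : G} {γ : W} {j : J} : g • T.base γ j = T.base γ j ↔ g ∈ T.K γ j :=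
  smul_base_iff

@[simp] theorem base_col (γ : W) (j : J) : (T.base γ j).col = j := rfl

/-- The subgroup generated by a set of generators. -/
def Γ (A : Set Gen) : Subgroup G := Subgroup.closure (T.gen '' A)

theorem gen_mem {A : Set Gen} {s : Gen} (hs : s ∈ A) : T.gen s ∈ T.Γ A :=
  Subgroup.subset_closure ⟨s, hs, rfl⟩

theorem Γ_mono {A B : Set Gen} (h : A ⊆ B) : T.Γ A ≤ T.Γ B :=
  Subgroup.closure_mono (Set.image_mono h)

theorem Γ_induction {A : Set Gen} {p : G → Prop} (h1 : p 1) (hs : ∀ s ∈ A, p (T.gen s))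
    (hi : ∀ g ∈ T.Γ A, p g → p g⁻¹) (hm : ∀ g ∈ T.Γ A, ∀ h ∈ T.Γ A, p g → p h → p (g * h))
    {g : G} (hg : g ∈ T.Γ A) : p g := by
  induction hg using Subgroup.closure_induction with
  | mem _ h => obtain ⟨s, h, rfl⟩ := h; exact hs s h
  | one => exact h1
  | mul g h hg hh pg ph => exact hm g hg h hh pg ph
  | inv g hg pg => exact hi g hg pg

theorem mem_Γ_univ (g : G) : g ∈ T.Γ Set.univ := by
  obtain ⟨f, rfl⟩ := T.surj g
  induction f using FreeGroup.induction_on with
  | C1 => rw [map_one]; exact one_mem _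
  | of s => exact T.gen_mem (Set.mem_univ s)
  | inv_of s hs => rw [map_inv]; exact inv_mem hs
  | mul f g hf hg => rw [map_mul]; exact mul_mem hf hg

theorem supp_Γ {A : Set Gen} {g : G} (hg : g ∈ T.Γ A) (γ : W) :
    ∀ p, T.om γ g p ≠ 0 → ∃ c ∈ T.Γ A, inr (γ, p.col) ∈ A ∧ p = c • T.base γ p.col := by
  refine T.Γ_induction (p := fun g => ∀ p, T.om γ g p ≠ 0 →
    ∃ c ∈ T.Γ A, inr (γ, p.col) ∈ A ∧ p = c • T.base γ p.col) ?_ ?_ ?_ ?_ hg
  · simp [T.om_one]
  · rintro (s | ⟨γ', j⟩) hs p hp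
    · exact absurd (by rw [gen, T.om_inl]; rfl) hp
    · by_cases h : γ' = γ
      · subst h
        rw [gen, T.om_self] at hp
        have h1 := (Finsupp.single_apply_ne_zero.1 hp).1
        subst h1
        exact ⟨1, one_mem _, hs, by rw [one_smul]; rfl⟩
      · exact absurd (by rw [gen, T.om_ne _ _ _ h]; rfl) hp
  · intro g hg ih p hp
    rw [T.om_inv, Finsupp.neg_apply, neg_ne_zero, act_apply, inv_inv] at hp
    obtain ⟨c, hc, h1, h2⟩ := ih _ hp
    refine ⟨g⁻¹ * c, mul_mem (inv_mem hg) hc, h1, ?_⟩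
    rw [mul_smul, eq_inv_smul_iff]
    exact h2
  · intro g hg h hh ihg ihh p hp
    rw [T.om_mul, Finsupp.add_apply] at hp
    by_cases h0 : T.om γ g p = 0
    · rw [h0, zero_add, act_apply] at hp
      obtain ⟨c, hc, h1, h2⟩ := ihh _ hp
      refine ⟨g * c, mul_mem hg hc, h1, ?_⟩
      rw [mul_smul, ← inv_smul_eq_iff]
      exact h2
    · exact ihg p h0

theorem supp_orbit {g : G} {γ : W} {p : Pt G} (hp : T.om γ g p ≠ 0) :
    ∃ c : G, p = c • T.base γ p.col := by
  obtain ⟨c, -, -, h⟩ := T.supp_Γ (T.mem_Γ_univ g) γ p hp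
  exact ⟨c, h⟩

theorem om_eq_zero {A : Set Gen} {g : G} (hg : g ∈ T.Γ A) {γ : W} (h : ∀ j, inr (γ, j) ∉ A) :
    T.om γ g = 0 := by
  ext p
  by_contra hp
  obtain ⟨-, -, h1, -⟩ := T.supp_Γ hg γ p hp
  exact h _ h1

/-- The elements which are trivial on the base and on a set of levels. -/
def ZS (A : Set W) : Subgroup G where
  carrier := {g | T.b g = 1 ∧ ∀ γ ∈ A, T.om γ g = 0}
  one_mem' := ⟨map_one _, fun γ _ => T.om_one γ⟩
  mul_mem' := fun {g h} hg hh => ⟨by rw [map_mul, hg.1, hh.1, mul_one], fun γ hγ => by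
    rw [T.om_mul, hg.2 γ hγ, hh.2 γ hγ, map_zero, add_zero]⟩
  inv_mem' := fun {g} hg => ⟨by rw [map_inv, hg.1, inv_one], fun γ hγ => by
    rw [T.om_inv, hg.2 γ hγ, map_zero, neg_zero]⟩

/-- The elements which are trivial below a level. -/
def Z (γ : W) : Subgroup G := T.ZS (Set.Iio γ)

theorem mem_Z {γ : W} {g : G} : g ∈ T.Z γ ↔ T.b g = 1 ∧ ∀ γ' < γ, T.om γ' g = 0 := Iff.rfl

theorem Z_anti {γ γ' : W} (h : γ ≤ γ') : T.Z γ' ≤ T.Z γ :=
  fun _ hg => ⟨hg.1, fun δ hδ => hg.2 δ (lt_of_lt_of_le hδ h)⟩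

theorem Z_le_K (γ : W) (j : J) : T.Z γ ≤ T.K γ j := fun g hg => T.Z_le γ j g hg.1 hg.2

theorem conj_mem_ZS {A : Set W} (hA : ∀ γ ∈ A, Set.Iio γ ⊆ A)
    (ih : ∀ γ ∈ A, ∀ g ∈ T.Z γ, ∀ c, c * g * c⁻¹ ∈ T.Z γ) {g : G} (hg : g ∈ T.ZS A) (c : G) :
    c * g * c⁻¹ ∈ T.ZS A := by
  refine ⟨by rw [map_mul, map_mul, hg.1, mul_one, ← map_mul, mul_inv_cancel, map_one],
    fun γ hγ => ?_⟩
  have h1 : act g (T.om γ c⁻¹) = T.om γ c⁻¹ := act_eq_self fun p hp => by
    obtain ⟨d, hd⟩ := T.supp_orbit hp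
    have h2 := T.Z_le_K γ p.col (ih γ hγ g ⟨hg.1, fun δ hδ => hg.2 δ (hA γ hγ hδ)⟩ d⁻¹)
    rw [← T.smul_base, inv_inv, mul_smul, mul_smul, inv_smul_eq_iff, ← hd] at h2
    exact h2
  rw [T.om_mul, T.om_mul, hg.2 γ hγ, map_zero, add_zero, act_mul, h1, ← T.om_mul, mul_inv_cancel,
    T.om_one]

theorem conj_mem_Z (γ : W) : ∀ g ∈ T.Z γ, ∀ c, c * g * c⁻¹ ∈ T.Z γ := by
  induction γ using WellFoundedLT.induction with
  | ind γ ih =>
    exact fun g hg c => T.conj_mem_ZS (A := Set.Iio γ) (fun _ h => Set.Iio_subset_Iio (le_of_lt h)) ih hg c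

instance (γ : W) : (T.Z γ).Normal := ⟨T.conj_mem_Z γ⟩

instance : (T.ZS Set.univ).Normal :=
  ⟨fun _ hg c => T.conj_mem_ZS (fun _ _ => Set.subset_univ _) (fun γ _ => T.conj_mem_Z γ) hg c⟩

theorem Z_smul {γ : W} {g : G} (hg : g ∈ T.Z γ) (c : G) (j : J) :
    g • c • T.base γ j = c • T.base γ j := by
  have h2 := T.Z_le_K γ j (T.conj_mem_Z γ g hg c⁻¹)
  rwa [← T.smul_base, inv_inv, mul_smul, mul_smul, inv_smul_eq_iff] at h2

theorem act_om {γ : W} {g : G} (hg : g ∈ T.Z γ) (h : G) : act g (T.om γ h) = T.om γ h :=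
  act_eq_self fun p hp => by
    obtain ⟨d, hd⟩ := T.supp_orbit hp
    rw [hd]
    exact T.Z_smul hg d _

end PreTw

/-- A tower in which the base map and the cocycles separate the points. -/
structure Tw (G : Type) [Group G] extends PreTw G where
  sep : ∀ g, b g = 1 → (∀ γ, om γ g = 0) → g = 1

section Quot

variable {G G' : Type} [Group G] [Group G']

/-- Direct image of points. -/
def imPt (φ : G →* G') (p : Pt G) : Pt G' := ⟨p.col, φ '' p.set⟩

theorem imPt_smul (φ : G →* G') (g : G) (p : Pt G) : imPt φ (g • p) = φ g • imPt φ p := by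
  refine Pt.ext rfl (Set.ext fun y => ⟨?_, ?_⟩)
  · rintro ⟨x, hx, rfl⟩
    exact ⟨g⁻¹ * x, hx, by simp⟩
  · rintro ⟨x, hx, h⟩
    refine ⟨g * x, ?_, by rw [map_mul, h, mul_inv_cancel_left]⟩
    rw [mem_smul_set, inv_mul_cancel_left]
    exact hx

theorem mapDomain_act (φ : G →* G') (g : G) (v : V G) :
    (act g v).mapDomain (imPt φ) = act (φ g) (v.mapDomain (imPt φ)) := by
  show (v.mapDomain _).mapDomain _ = (v.mapDomain _).mapDomain _
  rw [← Finsupp.mapDomain_comp, ← Finsupp.mapDomain_comp]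
  congr 1
  exact funext fun p => imPt_smul φ g p

theorem PreTw.mapDomain_eq_zero (T : PreTw G) (φ : G →* G') {γ : W} (hφ : φ.ker ≤ T.Z γ) (g : G)
    (h : (T.om γ g).mapDomain (imPt φ) = 0) : T.om γ g = 0 := by
  have hinj : Set.InjOn (imPt φ) {p | ∃ c : G, p = c • T.base γ p.col} := by
    have key : ∀ p q : Pt G, (∃ c : G, q = c • T.base γ q.col) → imPt φ p = imPt φ q →
        p.set ⊆ q.set := by
      rintro p q ⟨c, hc⟩ hpq y hy
      have h1 : φ y ∈ (imPt φ q).set := hpq ▸ ⟨y, hy, rfl⟩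
      obtain ⟨z, hz, h2⟩ := h1
      have h3 : y * z⁻¹ ∈ T.Z γ := hφ (by rw [MonoidHom.mem_ker, map_mul, map_inv, h2, mul_inv_cancel])
      have h4 : (y * z⁻¹) • q = q := by rw [hc]; exact T.Z_smul h3 c _
      rw [← h4, mem_smul_set]
      simpa using hz
    intro p hp q hq hpq
    exact Pt.ext (congrArg Pt.col hpq :) ((key p q hq hpq).antisymm (key q p hp hpq.symm))
  refine Finsupp.mapDomain_injOn _ hinj (fun p hp => ?_) (by simp) (by rw [h]; simp)
  exact T.supp_orbit (Finsupp.mem_support_iff.1 hp)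

/-- The quotient tower. -/
noncomputable def PreTw.quot (T : PreTw G) : Tw (G ⧸ T.ZS Set.univ) where
  pr := (QuotientGroup.mk' _).comp T.pr
  surj := (QuotientGroup.mk'_surjective _).comp T.surj
  b := QuotientGroup.lift _ T.b fun _ hg => hg.1
  b_inl := T.b_inl
  b_inr := T.b_inr
  K γ j := (T.K γ j).map (QuotientGroup.mk' _)
  om γ := Quotient.lift (fun g => (T.om γ g).mapDomain (imPt (QuotientGroup.mk' _))) (by
    intro g h hgh
    have h1 : g⁻¹ * h ∈ T.ZS Set.univ := QuotientGroup.leftRel_apply.1 hgh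
    have h2 : T.om γ h = T.om γ g := by
      rw [← mul_inv_cancel_left g h, T.om_mul, h1.2 γ (Set.mem_univ _), map_zero, add_zero]
    rw [h2])
  om_mul γ g h := by
    induction g using QuotientGroup.induction_on with | H g => ?_
    induction h using QuotientGroup.induction_on with | H h => ?_
    show (T.om γ (g * h)).mapDomain _ = (T.om γ g).mapDomain _ + act _ ((T.om γ h).mapDomain _)
    rw [T.om_mul, Finsupp.mapDomain_add, mapDomain_act]
    rfl
  om_inl γ s := by
    show (T.om γ _).mapDomain _ = 0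
    rw [T.om_inl, Finsupp.mapDomain_zero]
  om_self γ j := by
    show (T.om γ _).mapDomain _ = _
    rw [T.om_self, Finsupp.mapDomain_single]
    rfl
  om_ne γ γ' j h := by
    show (T.om γ _).mapDomain _ = 0
    rw [T.om_ne _ _ _ h, Finsupp.mapDomain_zero]
  Z_le γ j g := by
    induction g using QuotientGroup.induction_on with | H g => ?_
    intro h1 h2
    refine ⟨g, T.Z_le γ j g h1 fun γ' h => T.mapDomain_eq_zero _ ?_ g (h2 γ' h), rfl⟩
    rw [QuotientGroup.ker_mk']
    exact fun k hk => ⟨hk.1, fun δ _ => hk.2 δ (Set.mem_univ _)⟩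
  sep g := by
    induction g using QuotientGroup.induction_on with | H g => ?_
    intro h1 h2
    refine (QuotientGroup.eq_one_iff g).2 ⟨h1, fun γ _ => T.mapDomain_eq_zero _ ?_ g (h2 γ)⟩
    rw [QuotientGroup.ker_mk']
    exact fun k hk => ⟨hk.1, fun δ _ => hk.2 δ (Set.mem_univ _)⟩

theorem PreTw.quot_Z (T : PreTw G) (γ : W) (g : G) :
    (g : G ⧸ T.ZS Set.univ) ∈ T.quot.toPreTw.Z γ ↔ g ∈ T.Z γ := by
  refine ⟨fun h => ⟨h.1, fun γ' h' => T.mapDomain_eq_zero _ ?_ g (h.2 γ' h')⟩,
    fun h => ⟨h.1, fun γ' h' => ?_⟩⟩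
  · rw [QuotientGroup.ker_mk']
    exact fun k hk => ⟨hk.1, fun δ _ => hk.2 δ (Set.mem_univ _)⟩
  · show (T.om γ' g).mapDomain _ = 0
    rw [h.2 γ' h', Finsupp.mapDomain_zero]

end Quot

section Rec

open Classical in
/-- The values on the generators of the cocycle of level `γ`. -/
noncomputable def cF (K : J → Subgroup F) (γ : W) : Gen → V F
  | inl _ => 0
  | inr (γ', j) => if γ' = γ then Finsupp.single ⟨j, K j⟩ 1 else 0

/-- The base map on the free group. -/
noncomputable def bF : F →* Bs :=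
  FreeGroup.lift fun
    | inl s => Pi.mulSingle s.1 s.2.1
    | inr _ => 1

/-- The trivial elements below `α`, from the stabilisers below `α`. -/
noncomputable def ZI (α : W) (K : ∀ γ, γ < α → J → Subgroup F) : Set F :=
  {f | bF f = 1 ∧ ∀ γ (h : γ < α), coc (MonoidHom.id F) (cF (K γ h) γ) f = 0}

variable (Step : W → Set F → J → Subgroup F)

/-- The stabilisers, by recursion on the level. -/
noncomputable def KF : W → J → Subgroup F :=
  (wellFounded_lt (α := W)).fix fun α K => Step α (ZI α K)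

theorem KF_eq (α : W) : KF Step α = Step α (ZI α fun γ _ => KF Step γ) := by
  rw [KF, WellFounded.fix_eq]

theorem exists_tw (hStep : ∀ α (R : Subgroup F) j, R ≤ Step α R j) :
    ∃ (Q : Type) (_ : Group Q) (T : Tw Q), ∀ α j,
      T.K α j = (Step α ((T.toPreTw.Z α).comap T.pr : Subgroup F) j).map T.pr := by
  have hZ : ∀ α, ∃ R : Subgroup F, (R : Set F) = ZI α fun γ _ => KF Step γ := fun α =>
    ⟨{ carrier := ZI α fun γ _ => KF Step γ
       one_mem' := ⟨map_one _, fun γ _ => cocycle_one (coc_mul _ _)⟩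
       mul_mem' := fun {g h} hg hh => ⟨by rw [map_mul, hg.1, hh.1, mul_one], fun γ hγ => by
         rw [coc_mul, hg.2 γ hγ, hh.2 γ hγ, map_zero, add_zero]⟩
       inv_mem' := fun {g} hg => ⟨by rw [map_inv, hg.1, inv_one], fun γ hγ => by
         rw [cocycle_inv (coc_mul _ _), hg.2 γ hγ, map_zero, neg_zero]⟩ }, rfl⟩
  let T : PreTw F :=
    { pr := MonoidHom.id F
      surj := Function.surjective_id
      b := bF
      b_inl := fun s => by simp [bF]
      b_inr := fun s => by simp [bF]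
      K := KF Step
      om := fun γ => coc (MonoidHom.id F) (cF (KF Step γ) γ)
      om_mul := fun γ => coc_mul _ _
      om_inl := fun γ s => coc_of _ _ _
      om_self := fun γ j => (coc_of _ _ _).trans (if_pos rfl)
      om_ne := fun γ γ' j h => (coc_of _ _ _).trans (if_neg h)
      Z_le := fun γ j g h1 h2 => by
        obtain ⟨R, hR⟩ := hZ γ
        rw [KF_eq, ← hR]
        refine hStep γ R j ?_
        rw [← SetLike.mem_coe, hR]
        exact ⟨h1, h2⟩ }
  refine ⟨_, inferInstance, T.quot, fun α j => ?_⟩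
  have h1 : ((T.quot.toPreTw.Z α).comap T.quot.pr : Set F) = ZI α fun γ _ => KF Step γ :=
    Set.ext fun f => T.quot_Z α f
  rw [h1, ← KF_eq Step α]
  rfl

end Rec

end Pool.Agent.MP_82452b_an.H8
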