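import Pool.Agent.MP_82452b_an.H8.RT
import Pool.Agent.MP_82452b_an.H8.Choice

/-!
# Masses of vectors of `ℓ²(G)`
-/

namespace Pool.Agent.MP_82452b_an.H8

open Filter Topology Pool.Agent.MP_755d6b_an.H98
open scoped ENNReal

section

variable {G : Type}

/-- The mass of a vector on a set. -/
noncomputable def ms (ξ : L2 G) (D : Set G) : ℝ≥0∞ := ∑' q, D.indicator (fun q => ‖ξ q‖ₑ ^ 2) q

theorem ms_eq (ξ : L2 G) (D : Set G) : ms ξ D = ENNReal.ofReal (‖ind D ξ‖ ^ 2) := by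
  classical
  rw [← (hasSum_sq (ind D ξ)).tsum_eq,
    ENNReal.ofReal_tsum_of_nonneg (fun _ => sq_nonneg _) (hasSum_sq _).summable]
  refine tsum_congr fun q => ?_
  rw [ind_apply, Set.indicator_apply]
  split_ifs
  · rw [ENNReal.ofReal_pow (norm_nonneg _), ofReal_norm]
  · simp

theorem ms_mono' {ξ : L2 G} {D D' : Set G} (h : ∀ q ∈ D, ξ q ≠ 0 → q ∈ D') : ms ξ D ≤ ms ξ D' := by
  refine ENNReal.tsum_le_tsum fun q => ?_
  by_cases h0 : ξ q = 0
  · refine (Set.indicator_le_self _ _ q).trans ?_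
    simp [h0]
  · by_cases h1 : q ∈ D
    · rw [Set.indicator_of_mem h1, Set.indicator_of_mem (h q h1 h0)]
    · rw [Set.indicator_of_notMem h1]
      exact zero_le

theorem ms_mono {ξ : L2 G} {D D' : Set G} (h : D ⊆ D') : ms ξ D ≤ ms ξ D' :=
  ms_mono' fun _ hq _ => h hq

theorem ms_union_le (ξ : L2 G) (D D' : Set G) : ms ξ (D ∪ D') ≤ ms ξ D + ms ξ D' := by
  unfold ms
  rw [← ENNReal.tsum_add]
  refine ENNReal.tsum_le_tsum fun q => ?_
  by_cases h1 : q ∈ D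
  · rw [Set.indicator_of_mem h1, Set.indicator_of_mem (Set.mem_union_left _ h1)]
    exact le_self_add
  · by_cases h2 : q ∈ D'
    · rw [Set.indicator_of_mem h2, Set.indicator_of_mem (Set.mem_union_right _ h2)]
      exact le_add_self
    · rw [Set.indicator_of_notMem (fun h => h.elim h1 h2)]
      exact zero_le

theorem ms_biUnion_le {X : Type} (ξ : L2 G) (s : Finset X) (D : X → Set G) :
    ms ξ {q | ∃ x ∈ s, q ∈ D x} ≤ ∑ x ∈ s, ms ξ (D x) := by
  classical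
  induction s using Finset.induction_on with
  | empty => simp [ms]
  | insert a s ha ih =>
    rw [Finset.sum_insert ha]
    refine le_trans (ms_mono fun q hq => ?_) ((ms_union_le ξ _ _).trans (add_le_add le_rfl ih))
    simpa using hq

theorem ms_singleton (ξ : L2 G) (q : G) : ms ξ {q} = ‖ξ q‖ₑ ^ 2 := by
  rw [ms, tsum_eq_single q fun p hp => Set.indicator_of_notMem (s := {q}) hp _,
    Set.indicator_of_mem (Set.mem_singleton q)]

theorem exists_ms_compl_le (ξ : L2 G) {ε : ℝ≥0∞} (hε : 0 < ε) :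
    ∃ E : Finset G, ms ξ (E : Set G)ᶜ ≤ ε := by
  have h1 : ∑' q, ‖ξ q‖ₑ ^ 2 ≠ ∞ := by
    have := ms_eq ξ Set.univ
    simp only [ms, Set.indicator_univ] at this
    rw [this]
    exact ENNReal.ofReal_ne_top
  obtain ⟨E, hE⟩ := ((ENNReal.tendsto_tsum_compl_atTop_zero h1).eventually
    (ge_mem_nhds hε)).exists
  exact ⟨E, (tsum_subtype (E : Set G)ᶜ fun q => ‖ξ q‖ₑ ^ 2).symm.le.trans hE⟩

theorem mass_eq_ms {ξ : L2 G} {g : ℕ → G} (hg : Function.Injective g) (h : Supp ξ (Set.range g))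
    (D : Set G) : mass (fun k => ‖ξ (g k)‖ₑ ^ 2) (g ⁻¹' D) = ms ξ D := by
  rw [ms, ← hg.tsum_eq fun q hq => h q fun h0 => hq ?_]
  · rfl
  · refine le_antisymm ((Set.indicator_le_self _ _ q).trans ?_) zero_le
    simp [h0]

end

variable {G : Type} [Group G] {S : L2 G →L[ℂ] L2 G}

theorem RT.ms_le_one (h : RT S) (g : G) (D : Set G) : ms (S (dl g)) D ≤ 1 := by
  rw [ms_eq, ← ENNReal.ofReal_one]
  refine ENNReal.ofReal_le_ofReal (pow_le_one₀ (norm_nonneg _) ((norm_ind_le _ _).trans ?_))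
  rw [h.norm_apply, norm_dl]

theorem RT.tendsto_coeff (h : RT S) (q : G) :
    Tendsto (fun k => ‖S (dl k) q‖ₑ ^ 2) cofinite (𝓝 0) := by
  have h1 : Tendsto (fun k => S (dl k) q) cofinite (𝓝 0) := by
    refine Metric.tendsto_nhds.2 fun ε hε => eventually_cofinite.2 ?_
    simpa using h.finite_coeff q hε
  have h2 : Continuous fun z : ℂ => ‖z‖ₑ ^ 2 := (ENNReal.continuous_pow 2).comp continuous_enorm
  simpa [Function.comp_def] using (h2.tendsto 0).comp h1

theorem RT.finite_ms (h : RT S) {D : Set G} (hD : D.Finite) {δ : ℝ≥0∞} (hδ : 0 < δ) :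
    {k | δ ≤ ms (S (dl k)) D}.Finite := by
  have h1 := tendsto_finsetSum hD.toFinset fun q _ => h.tendsto_coeff q
  rw [Finset.sum_const_zero] at h1
  refine (eventually_cofinite.1 (h1.eventually (gt_mem_nhds hδ))).subset fun k hk => not_lt.2 ?_
  refine le_trans hk (le_trans (ms_mono fun q hq => ?_)
    ((ms_biUnion_le _ hD.toFinset fun q => {q}).trans ?_))
  · exact ⟨q, hD.mem_toFinset.2 hq, rfl⟩
  · simp only [ms_singleton, le_refl]

/-- The images of the elements of `I` have mass bounded below on translates of `H`. -/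
def EmbG (S : L2 G →L[ℂ] L2 G) (I : Set G) (H : Subgroup G) : Prop :=
  ∃ (E : Finset (G × G)) (δ : ℝ≥0∞), 0 < δ ∧
    ∀ k ∈ I, δ ≤ ms (S (dl k)) {q | ∃ p ∈ E, p.1⁻¹ * q * p.2⁻¹ ∈ H}

theorem EmbG.mono {I I' : Set G} {H : Subgroup G} (h : EmbG S I H) (h' : I' ⊆ I) : EmbG S I' H :=
  let ⟨E, δ, h1, h2⟩ := h
  ⟨E, δ, h1, fun k hk => h2 k (h' hk)⟩

theorem EmbG.trans {I : Set G} {H H' : Subgroup G} (h : EmbG S I H)
    (h' : ∃ E : Finset (G × G), ∀ q ∈ H, ∃ p ∈ E, p.1⁻¹ * q * p.2⁻¹ ∈ H') : EmbG S I H' := by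
  classical
  obtain ⟨E, δ, h1, h2⟩ := h
  obtain ⟨E', h3⟩ := h'
  refine ⟨(E ×ˢ E').image fun p => (p.1.1 * p.2.1, p.2.2 * p.1.2), δ, h1,
    fun k hk => (h2 k hk).trans (ms_mono ?_)⟩
  rintro q ⟨p, hp, h4⟩
  obtain ⟨p', hp', h5⟩ := h3 _ h4
  refine ⟨_, Finset.mem_image_of_mem _ (Finset.mk_mem_product hp hp'), ?_⟩
  simpa [mul_assoc] using h5

theorem EmbG.infinite (hS : RT S) {I : Set G} {H : Subgroup G} (h : EmbG S I H)
    (hI : I.Infinite) : (H : Set G).Infinite := by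
  obtain ⟨E, δ, h1, h2⟩ := h
  intro hH
  refine hI ((hS.finite_ms ((E.finite_toSet.biUnion fun p _ =>
    hH.image fun y => p.1 * y * p.2).subset ?_) h1).subset h2)
  rintro q ⟨p, hp, h3⟩
  exact Set.mem_biUnion hp ⟨_, h3, by group⟩

end Pool.Agent.MP_82452b_an.H8
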