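import Pool.Agent.MP_82452b_an.H8.Stab
import Pool.Agent.MP_82452b_an.H8.Mass
import Pool.Agent.MP_82452b_an.H12.LemmaA

/-!
# A marker cannot be moved away from itself
-/

namespace Pool.Agent.MP_82452b_an.H8

open Sum Filter Topology Pool.Agent.MP_755d6b_an.H98
open FreeGroup (of)
open scoped ENNReal

variable {G : Type} [Group G] {S : L2 G →L[ℂ] L2 G}

/-- The intersection of `Γ` with a conjugate. -/
def K0 (Γ : Subgroup G) (l : G) : Subgroup G := Γ ⊓ Γ.comap (MulAut.conj l⁻¹).toMonoidHom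

theorem mem_K0 {Γ : Subgroup G} {l k : G} : k ∈ K0 Γ l ↔ k ∈ Γ ∧ l⁻¹ * k * l ∈ Γ := by
  simp [K0]

theorem RT.embG (h : RT S) {Γ : Subgroup G} (hΓ : Inv S Γ) {t l : G} (ht : S (dl t) l ≠ 0) :
    EmbG S (K0 Γ t) (K0 Γ l) := by
  classical
  obtain ⟨E, δ, h1, -, h2⟩ := h.lemmaA hΓ ht
  refine ⟨E.image fun y => (1, y), ENNReal.ofReal (δ ^ 2), by positivity, fun k hk => ?_⟩
  have h3 := h2 k (mem_K0.1 hk).1 (mem_K0.1 hk).2
  refine le_trans (ENNReal.ofReal_le_ofReal (pow_le_pow_left₀ h1.le h3 2)) ?_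
  rw [← ms_eq]
  refine ms_mono ?_
  rintro q ⟨y, hy, h4⟩
  exact ⟨_, Finset.mem_image_of_mem _ hy, by simpa using mem_K0.2 h4⟩

namespace MT

variable {T : MT G} {α : W}

theorem emb_of {τ τ' : Task} {B : Set ℕ} {Γ : Subgroup G} (hinv : Inv S Γ)
    (hg : Function.Injective fun i => T.pr (τ.g i)) (hr : Set.range (fun i => T.pr (τ.g i)) = Γ)
    (hw : ∀ i k, τ.w i k = ‖S (dl (T.pr (τ.g i))) (T.pr (τ.g k))‖ₑ ^ 2) {I : Set G}
    (h : EmbG S I (T.HQ α τ' B)) {I' : Set ℕ} (hI : ∀ i ∈ I', T.pr (τ.g i) ∈ I) :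
    Emb (T.R α) τ I' (HF α τ' B) := by
  classical
  obtain ⟨E, δ, h1, h2⟩ := h
  choose s hs using T.surj
  refine ⟨E.image (fun p => s p.1) ∪ E.image (fun p => s p.2), δ, h1,
    fun i hi => (h2 _ (hI i hi)).trans ?_⟩
  have h3 : T.pr (τ.g i) ∈ Γ := by rw [← SetLike.mem_coe, ← hr]; exact ⟨i, rfl⟩
  rw [← mass_eq_ms hg (hr ▸ hinv _ h3), funext (hw i)]
  refine mass_mono _ ?_
  rintro k ⟨p, hp, h, hh, h4⟩
  refine ⟨_, Finset.mem_union_left _ (Finset.mem_image_of_mem _ hp), _,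
    Finset.mem_union_right _ (Finset.mem_image_of_mem _ hp), h, hh, ?_⟩
  show T.pr _ ∈ T.Z α
  simp only [map_mul, map_inv, hs, h4]
  convert one_mem (T.Z α) using 1
  group

theorem mem_Mk_of_conj {t : TT} (hv : Valid α (T.R α) (dec t)) {u : G} (hu : u ∈ T.Q α)
    (h : (T.x α (inr (some t)))⁻¹ * u * T.x α (inr (some t)) ∈ T.Q α) : u ∈ T.Mk α t := by
  have h1 : u * T.x α (inr (some t)) =
      T.x α (inr (some t)) * ((T.x α (inr (some t)))⁻¹ * u * T.x α (inr (some t))) := by group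
  have h2 := congrArg (T.om α) h1
  rw [T.om_mul, T.om_mul, T.om_of_mem_Q hu le_rfl, T.om_of_mem_Q h le_rfl, map_zero, zero_add,
    add_zero, T.om_x_self, act_single, Finsupp.single_left_inj one_ne_zero, T.smul_base,
    T.K_valid α t hv] at h2
  obtain ⟨k, hk, z, hz, rfl⟩ := Subgroup.mem_sup_of_normal_right.1 h2
  have h3 := mul_mem (inv_mem (HQ_le_Q hv.toWF hk)) hu
  rw [inv_mul_cancel_left] at h3
  rwa [T.eq_one_of_mem h3 hz, mul_one]

theorem comm_d {l : G} (hl : ∀ γ, α ≤ γ → ∀ p, T.om γ l p ≠ 0 → p.col = cD) {γ : W}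
    (h : ∀ γ', γ < γ' → γ' < α → T.om γ' l = 0) : T.d γ * l = l * T.d γ := by
  refine T.comm_of (T.b_x _ _) (fun γ' => ?_) fun γ' => ?_
  · rcases le_or_gt γ' γ with h1 | h1
    · exact T.act_om (T.x_mem_Z h1 _) l
    · rcases le_or_gt α γ' with h2 | h2
      · exact act_eq_self fun p hp => by rw [T.eq_baseD hp (hl γ' h2 p hp), T.smul_baseD]
      · rw [h γ' h1 h2, map_zero]
  · by_cases h1 : γ = γ'
    · subst h1
      rw [d, T.om_x_self, act_single, T.smul_baseD]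
    · rw [d, T.om_x_ne h1, map_zero]

theorem contra (hS : RT S) {A : Set Gen} (hA : T.Closed A) (hinv : Inv S (T.Γ A))
    (hlow : A ⊆ low α) (hD : ∀ γ < α, T.d γ ∈ T.Γ A) {t : TT} (hv : Valid α (T.R α) (dec t))
    (hg : Function.Injective fun i => T.pr ((dec t).g i))
    (hr : Set.range (fun i => T.pr ((dec t).g i)) = T.Γ A)
    (hw : ∀ i k, (dec t).w i k = ‖S (dl (T.pr ((dec t).g i))) (T.pr ((dec t).g k))‖ₑ ^ 2)
    (hH : T.Mk α t ≤ T.Γ A) (hsmall : ¬ EmbG S (T.Mk α t) (T.Mk α t)) : False := by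
  classical
  have hΓ : T.Γ A ≤ T.Q α := T.Γ_mono hlow
  have hgood := T.good α
  have hl := hv.lim.isLad
  have hgm : ∀ i, T.pr ((dec t).g i) ∈ T.Γ A := fun i => by
    rw [← SetLike.mem_coe, ← hr]; exact ⟨i, rfl⟩
  have hidx : ∀ {I : Set G}, I.Infinite → I ⊆ T.Γ A → {i | T.pr ((dec t).g i) ∈ I}.Infinite :=
    fun hI h => hI.preimage (hr ▸ h)
  set t₀ := T.x α (inr (some t)) with ht₀
  obtain ⟨l, hl0⟩ : ∃ l, S (dl t₀) l ≠ 0 := by
    by_contra h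
    push Not at h
    have h1 := hS.norm_apply (dl t₀)
    rw [L2.ext (η := 0) (funext h), norm_zero, norm_dl] at h1
    exact zero_ne_one h1
  have hK : K0 (T.Γ A) t₀ = T.Mk α t := by
    refine le_antisymm (fun u hu => mem_Mk_of_conj hv (hΓ (mem_K0.1 hu).1) (hΓ (mem_K0.1 hu).2))
      fun u hu => mem_K0.2 ⟨hH hu, ?_⟩
    rw [mul_assoc, T.x_comm (hΓ (hH hu)) (by rw [T.K_valid α t hv]; exact Subgroup.mem_sup_left hu),
      inv_mul_cancel_left]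
    exact hH hu
  have e1 : EmbG S (T.Mk α t) (K0 (T.Γ A) l) := hK ▸ hS.embG hinv hl0
  have e2 : EmbG S (K0 (T.Γ A) l) (T.Mk α t) := hK ▸ hS.embG hinv (hS.ne_zero_symm hl0)
  have hHinf : (T.Mk α t : Set G).Infinite := by
    obtain ⟨h1, h2⟩ := HQ_infinite (T := T) hv.toWF (AD_infinite (asg α (T.R α) t))
    exact (h1.image h2).mono (by rintro _ ⟨n, hn, rfl⟩; exact T.h_mem hn)
  have hK0 := e1.infinite hS hHinf
  by_cases hc : ∀ γ, α ≤ γ → ∀ p, T.om γ l p ≠ 0 → p.col = cD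
  · obtain ⟨δ, hδ, h1⟩ := hv.lim.exists_bound (A := {γ | T.om γ l ≠ 0 ∧ γ < α})
      ((T.finite_levels l).subset fun γ h => h.1) fun γ h => h.2
    obtain ⟨N, hN⟩ := (hl.fin δ hδ).bddAbove
    have h2 : ∀ n, N + 1 ≤ n → T.d (lad α n) ∈ K0 (T.Γ A) l := fun n hn => by
      have h3 : δ < lad α n := not_le.1 fun h => (Nat.succ_le_iff.1 hn).not_ge (hN h)
      refine mem_K0.2 ⟨hD _ (hl.lt n), ?_⟩
      rw [mul_assoc, comm_d hc fun γ' h4 h5 => by_contra fun h6 =>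
        (h1 γ' ⟨h6, h5⟩).not_ge (h3.trans h4).le, inv_mul_cancel_left]
      exact hD _ (hl.lt n)
    have h3 : Tl α (T.R α) (dec t) (N + 1) =
        {i | T.pr ((dec t).g i) ∈ (fun n => T.d (lad α n)) '' Set.Ici (N + 1)} := by
      ext i
      refine exists_congr fun n => and_congr_right fun _ => ?_
      show T.pr _ ∈ T.Z α ↔ _
      rw [map_mul, map_inv]
      exact ⟨fun h => (inv_mul_eq_one.1 (T.eq_one_of_mem
        (mul_mem (inv_mem (hΓ (hgm i))) (T.x_mem_Q (hl.lt n) _)) h)).symm,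
        fun h => by rw [← h]; exact (inv_mul_cancel (T.d (lad α n))).symm ▸ one_mem _⟩
    refine hgood.1 t ⟨hv, N + 1, ?_, emb_of hinv hg hr hw e2 ?_⟩
    · rw [h3]
      refine hidx ((Set.Ici_infinite _).image (T.d_injective.comp hl.inj).injOn) ?_
      rintro _ ⟨n, -, rfl⟩
      exact hD _ (hl.lt n)
    · rw [h3]
      rintro i ⟨n, hn, h4⟩
      exact h4 ▸ h2 n hn
  push Not at hc
  obtain ⟨γ, hγ, p, hp, hpc⟩ := hc
  obtain ⟨c, hc⟩ := T.supp_orbit hp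
  have hact : ∀ k ∈ K0 (T.Γ A) l, act k (T.om γ l) = T.om γ l := fun k hk => by
    have h1 : k * l = l * (l⁻¹ * k * l) := by group
    have h2 := congrArg (T.om γ) h1
    rwa [T.om_mul, T.om_mul, T.om_of_mem_Q (hΓ (mem_K0.1 hk).1) hγ,
      T.om_of_mem_Q (hΓ (mem_K0.1 hk).2) hγ, map_zero, zero_add, add_zero] at h2
  have hS1 : {s | s ∈ K0 (T.Γ A) l ∧ s • p = p}.Infinite := by
    obtain ⟨s₀, h0, h1⟩ := infinite_stab hK0 hact hp
    refine (h1.image (f := fun s => s₀⁻¹ * s) (mul_right_injective _).injOn).mono ?_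
    rintro _ ⟨s, hs, rfl⟩
    exact ⟨mul_mem (inv_mem h0) hs.1, hs.2⟩
  obtain ⟨t', hj, hv', rfl⟩ : ∃ t', p.col = inr (some t') ∧ Valid γ (T.R γ) (dec t') ∧ γ = α := by
    by_contra h
    push Not at h
    rw [hc] at hS1
    exact hS1 (finite_stab_Q (fun k hk => hΓ (mem_K0.1 hk).1) hγ hpc c h)
  set c₀ := T.ρ γ c with hc₀
  have hstab : ∀ s ∈ K0 (T.Γ A) l, s • p = p → c₀⁻¹ * s * c₀ ∈ T.Mk γ t' := fun s hs h => by
    rw [hc] at h
    rcases stab_cases h hpc with h1 | ⟨t'', h1, -, k, hk, h2⟩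
    · rw [T.eq_one_of_mem (hΓ (mem_K0.1 hs).1) h1, mul_one, inv_mul_cancel]
      exact one_mem _
    · obtain rfl : t'' = t' := by simpa [hj] using h1.symm
      rw [eq_conj_of_stab (hΓ (mem_K0.1 hs).1) (HQ_le_Q hv'.toWF hk) h2, ← hc₀]
      convert hk using 1
      group
  have e3 : EmbG S (T.Mk γ t) (T.Mk γ t') := by
    refine e1.trans ?_
    have h1 : ∀ q : Pt G, ∃ y : G, ∀ s ∈ K0 (T.Γ A) l, s • p = q →
        y ∈ K0 (T.Γ A) l ∧ y • p = q := fun q => by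
      by_cases h : ∃ y ∈ K0 (T.Γ A) l, y • p = q
      · exact ⟨h.choose, fun _ _ _ => h.choose_spec⟩
      · exact ⟨1, fun s hs h' => absurd ⟨s, hs, h'⟩ h⟩
    choose y hy using h1
    refine ⟨(T.om γ l).support.image fun q => (y q * c₀, c₀⁻¹), fun s hs =>
      ⟨_, Finset.mem_image_of_mem _ (a := s • p) ?_, ?_⟩⟩
    · rw [Finsupp.mem_support_iff, ← hact s hs, act_smul]
      exact hp
    · obtain ⟨h2, h3⟩ := hy _ s hs rfl
      convert hstab _ (mul_mem (inv_mem h2) hs) (by rw [mul_smul, inv_smul_eq_iff, h3]) using 1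
      group
  by_cases htt : t = t'
  · subst htt
    exact hsmall e3
  have hz : ∀ k ∈ T.Γ A, c₀⁻¹ * k * c₀ ∈ T.Mk γ t' → k ∈ K0 (T.Γ A) l := by
    have h1 := comm_Mk hv' hgood (z := c₀⁻¹ * (l * (T.κ hA l)⁻¹) * c₀)
      (hS1.image (f := fun s => c₀⁻¹ * s * c₀)
        ((mul_left_injective _).comp (mul_right_injective _)).injOn)
      (by rintro _ ⟨s, hs, rfl⟩; exact hstab s hs.1 hs.2) (by
        rintro _ ⟨s, hs, rfl⟩
        have h2 := Tw.κ_fix hA (mem_K0.1 hs.1).2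
        rw [map_mul, map_mul, map_inv, Tw.κ_fix hA (mem_K0.1 hs.1).1] at h2
        calc c₀⁻¹ * s * c₀ * (c₀⁻¹ * (l * (T.κ hA l)⁻¹) * c₀)
            = c₀⁻¹ * l * (l⁻¹ * s * l) * (T.κ hA l)⁻¹ * c₀ := by group
          _ = _ := by rw [← h2]; group)
    intro k hk h2
    refine mem_K0.2 ⟨hk, ?_⟩
    have h3 : l⁻¹ * k * l = (T.κ hA l)⁻¹ * k * T.κ hA l := by
      calc l⁻¹ * k * l = l⁻¹ * c₀ * (c₀⁻¹ * k * c₀ * (c₀⁻¹ * (l * (T.κ hA l)⁻¹) * c₀)) * c₀⁻¹ *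
            T.κ hA l := by group
        _ = _ := by rw [h1 _ h2]; group
    rw [h3]
    exact mul_mem (mul_mem (inv_mem (Tw.κ_mem hA l)) hk) (Tw.κ_mem hA l)
  obtain ⟨cf, hcf⟩ := T.surj c
  have hI1 : Idx (T.R γ) (dec t) cf (HF γ (dec t') (AD (asg γ (T.R γ) t'))) =
      {i | T.pr ((dec t).g i) ∈ {k | k ∈ T.Γ A ∧ c₀⁻¹ * k * c₀ ∈ T.Mk γ t'}} := by
    ext i
    rw [mem_Idx hv'.toWF, hcf, T.ρ_fix (hΓ (hgm i)), ← hc₀]
    refine ⟨fun ⟨h, hh, h1⟩ => ⟨hgm i, ?_⟩, fun h => ⟨_, h.2, by group⟩⟩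
    rw [h1, show c₀⁻¹ * (c₀ * h * c₀⁻¹) * c₀ = h by group]
    exact hh
  have hI2 : Idx (T.R γ) (dec t) 1 (HF γ (dec t) (AD (asg γ (T.R γ) t))) =
      {i | T.pr ((dec t).g i) ∈ T.Mk γ t} := by
    ext i
    rw [mem_Idx hv.toWF, T.ρ_fix (hΓ (hgm i))]
    simp [Tw.Mk]
  refine (hgood.2 t t' htt).2 ⟨hv, hv', ⟨cf, ?_, emb_of hinv hg hr hw e2 ?_⟩, ?_,
    emb_of hinv hg hr hw e3 ?_⟩
  · rw [hI1]
    exact hidx (hS1.mono fun s hs => ⟨(mem_K0.1 hs.1).1, hstab s hs.1 hs.2⟩) fun s hs => hs.1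
  · rw [hI1]
    exact fun i hi => hz _ hi.1 hi.2
  · rw [hI2]
    exact hidx hHinf hH
  · rw [hI2]
    exact fun i hi => hi

end MT

end Pool.Agent.MP_82452b_an.H8
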