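import Pool.Agent.MP_755d6b_an.H98.Defs

/-!
# II₁ factors in standard form, tracial ultrapowers and index 2 subfactors

A II₁ factor `M` with trace `τ` is taken in its standard form: it acts on `H = L²(M, τ)`, with the
cyclic trace vector `Ω` (the image of `1`).
-/

namespace Pool.Agent.MP_82452b_an.H8

open Filter Topology Pool.Agent.MP_755d6b_an.H98
open scoped InnerProductSpace

variable {H : Type} [NormedAddCommGroup H] [InnerProductSpace ℂ H] [CompleteSpace H]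

/-- `M` is a II₁ factor acting on `H = L²(M, τ)`: its trace is `τ = ⟪Ω, · Ω⟫` and `MΩ` is dense. -/
structure IsStdII1 (M : VonNeumannAlgebra H) (Ω : H) : Prop where
  ii1 : IsII1Factor M (fun x => ⟪Ω, x Ω⟫_ℂ)
  cyclic : Dense {ξ | ∃ x ∈ M, x Ω = ξ}

/-- The orthogonal projection `[Pξ]` onto the closure of `Pξ`. -/
noncomputable def cycProj (P : VonNeumannAlgebra H) (ξ : H) : H →L[ℂ] H :=
  (Submodule.span ℂ {η | ∃ x ∈ P, x ξ = η}).topologicalClosure.starProjection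

/-- `P` is an index 2 subfactor of `M` acting on `H = L²(M, τ)`: `P ⊆ M` is a factor, its commutant
`P'` is finite with normalised trace `tr`, and the Murray-von Neumann coupling constant
`τ([P'Ω]) / tr([PΩ])` of the `P`-module `H` is `2`. -/
structure IndexTwo (P M : VonNeumannAlgebra H) (Ω : H) : Prop where
  le : ∀ x ∈ P, x ∈ M
  factor : ∀ z ∈ P, (∀ x ∈ P, z * x = x * z) → ∃ c : ℂ, z = c • (1 : H →L[ℂ] H)
  coupling : ∃ tr : (H →L[ℂ] H) → ℂ, IsTrace P.commutant tr ∧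
    ⟪Ω, cycProj P.commutant Ω Ω⟫_ℂ = 2 * tr (cycProj P Ω)

/-- `ℓ^∞(ℕ, M)`: the norm-bounded sequences in `M`, with pointwise operations. -/
def BddSeq (M : VonNeumannAlgebra H) : StarSubalgebra ℂ (ℕ → (H →L[ℂ] H)) where
  carrier := {x | (∀ i, x i ∈ M) ∧ ∃ C : ℝ, ∀ i, ‖x i‖ ≤ C}
  mul_mem' := fun ⟨hx, C, hC⟩ ⟨hy, D, hD⟩ => ⟨fun i => mul_mem (hx i) (hy i), C * D, fun i =>
    (norm_mul_le _ _).trans
      (mul_le_mul (hC i) (hD i) (norm_nonneg _) ((norm_nonneg _).trans (hC i)))⟩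
  add_mem' := fun ⟨hx, C, hC⟩ ⟨hy, D, hD⟩ => ⟨fun i => add_mem (hx i) (hy i), C + D, fun i =>
    (norm_add_le _ _).trans (add_le_add (hC i) (hD i))⟩
  algebraMap_mem' := fun c =>
    ⟨fun _ => M.toStarSubalgebra.algebraMap_mem c, ‖algebraMap ℂ (H →L[ℂ] H) c‖, fun _ => le_rfl⟩
  star_mem' := fun ⟨hx, C, hC⟩ => ⟨fun i => star_mem (hx i), C, fun i => by simpa using hC i⟩

variable {K : Type} [NormedAddCommGroup K] [InnerProductSpace ℂ K] [CompleteSpace K]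

/-- `L`, a II₁ factor acting on `K = L²(L)` with trace vector `Ψ`, is the tracial ultrapower `M^U`:
`π` is a ⋆-homomorphism from `ℓ^∞(ℕ, M)` onto `L` with `τ_L(π x) = lim_U τ(x_i)`. (As `τ_L` is
faithful, the kernel of `π` is `{x : lim_U τ(x_i⋆ x_i) = 0}`.) -/
structure IsUltrapower (M : VonNeumannAlgebra H) (Ω : H) (U : Ultrafilter ℕ)
    (L : VonNeumannAlgebra K) (Ψ : K) (π : BddSeq M →⋆ₐ[ℂ] (K →L[ℂ] K)) : Prop where
  std : IsStdII1 L Ψ
  onto : ∀ y, y ∈ L ↔ ∃ x, π x = y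
  trace : ∀ x : BddSeq M, Tendsto (fun i => ⟪Ω, x.1 i Ω⟫_ℂ) U (𝓝 ⟪Ψ, π x Ψ⟫_ℂ)

end Pool.Agent.MP_82452b_an.H8
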