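import Pool.Agent.MP_82452b_an.H8.Rigid
import Pool.Agent.MP_82452b_an.H8.Bridge
import Pool.Agent.MP_82452b_an.H78.Goldman
import Pool.Agent.MP_82452b_an.H63.UExists
import Pool.Agent.MP_82452b_an.H15.UInv

namespace Pool.Agent.MP_82452b_an.H8

open Filter Pool.Agent.MP_755d6b_an.H98

theorem main :
    ∃ (H : Type) (_ : NormedAddCommGroup H) (_ : InnerProductSpace ℂ H) (_ : CompleteSpace H)
      (N : VonNeumannAlgebra H) (Ω : H),
      Stmt.IsStdII1 N Ω ∧ (∀ P : VonNeumannAlgebra H, ¬ Stmt.IndexTwo P N Ω) ∧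
      ∀ U : Ultrafilter ℕ, (U : Filter ℕ) ≤ cofinite →
        (∃ (K : Type) (_ : NormedAddCommGroup K) (_ : InnerProductSpace ℂ K) (_ : CompleteSpace K)
          (L : VonNeumannAlgebra K) (Ψ : K) (π : (ℕ → (H →L[ℂ] H)) → (K →L[ℂ] K)),
          Stmt.IsUltrapower N Ω U L Ψ π) ∧
        ∀ (K : Type) [NormedAddCommGroup K] [InnerProductSpace ℂ K] [CompleteSpace K]
          (L : VonNeumannAlgebra K) (Ψ : K) (π : (ℕ → (H →L[ℂ] H)) → (K →L[ℂ] K)),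
          Stmt.IsUltrapower N Ω U L Ψ π → ∃ N₀ : VonNeumannAlgebra K, Stmt.IndexTwo N₀ L Ψ := by
  obtain ⟨G, _, ⟨T⟩⟩ := exists_mt
  have : Infinite G := Infinite.of_injective _ T.d_injective
  obtain ⟨h1, h2⟩ := isStdII1_LG G T.icc_top
  refine ⟨L2 G, inferInstance, inferInstance, inferInstance, LG G, dl 1, isStd_iff.2 h1,
    fun P hP => ?_, fun U hU => ⟨?_, fun K _ _ _ L Ψ π h => ?_⟩⟩
  · obtain ⟨S, h3, h4, h5, h6, h7⟩ := goldman h1 (indexTwo_iff.1 hP)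
    exact h7 (T.rigid ⟨h3, h4, h5, h6⟩)
  · obtain ⟨K, i1, i2, i3, L, Ψ, π, h⟩ := exists_ultrapower h1 h2 U hU
    exact ⟨K, i1, i2, i3, L, Ψ, h.toStmt⟩
  · obtain ⟨π', h'⟩ := isUltrapower_of_stmt h
    exact (T.tdata.exists_indexTwo countable_Iio hU h').imp fun _ => indexTwo_iff.2

end Pool.Agent.MP_82452b_an.H8
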