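import Pool.Agent.MP_82452b_an.H8.Task

/-!
# Structure of the markers
-/

namespace Pool.Agent.MP_82452b_an.H8

open Sum
open FreeGroup (of)

namespace MT

variable {G : Type} [Group G] (T : MT G)

/-- The central lamps. -/
def d (γ : W) : G := T.x γ cD

/-- The coefficient of the central lamp. -/
def δ (γ : W) (g : G) : ZMod 3 := T.om γ g (T.base γ cD)

theorem smul_baseD (g : G) (γ : W) : g • T.base γ cD = T.base γ cD :=
  T.smul_base.2 (by rw [T.K_top]; trivial)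

theorem eq_baseD {γ : W} {g : G} {p : Pt G} (hp : T.om γ g p ≠ 0) (h : p.col = cD) :
    p = T.base γ cD := by
  obtain ⟨c, hc⟩ := T.supp_orbit hp
  rw [hc, h, T.smul_baseD]

theorem δ_mul (γ : W) (g h : G) : T.δ γ (g * h) = T.δ γ g + T.δ γ h := by
  simp only [δ, T.om_mul, Finsupp.add_apply, act_apply, T.smul_baseD]

theorem δ_inv (γ : W) (g : G) : T.δ γ g⁻¹ = -T.δ γ g := by
  simp only [δ, T.om_inv, Finsupp.neg_apply, act_apply, T.smul_baseD]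

theorem δ_conj (γ : W) (c g : G) : T.δ γ (c * g * c⁻¹) = T.δ γ g := by
  rw [δ_mul, δ_mul, δ_inv]; ring

theorem δ_of_mem_Q {α γ : W} {g : G} (hg : g ∈ T.Q α) (h : α ≤ γ) : T.δ γ g = 0 := by
  rw [δ, T.om_of_mem_Q hg h]; rfl

theorem δ_of_mem_Z {α γ : W} {g : G} (hg : g ∈ T.Z α) (h : γ < α) : T.δ γ g = 0 := by
  rw [δ, hg.2 γ h]; rfl

theorem finite_δ (g : G) : {γ | T.δ γ g ≠ 0}.Finite :=
  (T.finite_levels g).subset fun γ h h0 => h (by rw [δ, h0]; rfl)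

theorem δ_d (γ γ' : W) : T.δ γ (T.d γ') = if γ' = γ then 1 else 0 := by
  split_ifs with h
  · subst h
    rw [δ, d, T.om_x_self, Finsupp.single_eq_same]
  · rw [δ, d, T.om_x_ne h]; rfl

theorem d_injective : Function.Injective T.d := fun γ γ' h => by
  have h1 := T.δ_d γ γ'
  rw [← h, T.δ_d, if_pos rfl] at h1
  by_contra h2
  rw [if_neg (Ne.symm h2)] at h1
  exact one_ne_zero h1

theorem d_comm {γ : W} {g : G} (hg : g ∈ T.Q γ) : g * T.d γ = T.d γ * g :=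
  T.x_comm hg (by rw [T.K_top]; trivial)

theorem smul_free {γ : W} {c : ℕ} {g : G} :
    g • T.base γ (inl c) = T.base γ (inl c) ↔ g ∈ T.Z γ := by
  rw [T.smul_base, T.K_free]

theorem om_conj {β : W} {c : G} (hc : c ∈ T.Q β) (γ : W) (j : J) :
    T.om γ (c * T.x β j * c⁻¹) = act c (T.om γ (T.x β j)) := by
  have h1 : act (T.x β j) (T.om γ c⁻¹) = T.om γ c⁻¹ := by
    rcases le_or_gt γ β with h | h
    · exact T.act_om (T.x_mem_Z h j) _
    · rw [T.om_of_mem_Q (inv_mem hc) h.le, map_zero]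
  have h2 : T.om γ c + act c (T.om γ c⁻¹) = 0 := by rw [← T.om_mul, mul_inv_cancel, T.om_one]
  rw [T.om_mul, T.om_mul, act_mul, h1, add_right_comm, h2, zero_add]

/-- Lamps of level `β` and central lamps above `β`. -/
def Ab (β : W) : Subgroup G where
  carrier := {g | g ∈ T.Z β ∧ ∀ γ, β < γ → ∀ p, T.om γ g p ≠ 0 → p.col = cD}
  one_mem' := ⟨one_mem _, fun γ _ p hp => absurd (by rw [T.om_one]; rfl) hp⟩
  mul_mem' := fun {g h} hg hh => ⟨mul_mem hg.1 hh.1, fun γ hγ p hp => by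
    rw [T.om_mul, Finsupp.add_apply, act_apply] at hp
    by_cases h0 : T.om γ g p = 0
    · rw [h0, zero_add] at hp
      exact hh.2 γ hγ (g⁻¹ • p) hp
    · exact hg.2 γ hγ p h0⟩
  inv_mem' := fun {g} hg => ⟨inv_mem hg.1, fun γ hγ p hp => by
    rw [T.om_inv, Finsupp.neg_apply, neg_ne_zero, act_apply] at hp
    exact hg.2 γ hγ (g⁻¹⁻¹ • p) hp⟩

variable {T}

theorem act_Ab_gt {β γ : W} {g : G} (hg : g ∈ T.Ab β) (h : β < γ) (k : G) :
    act k (T.om γ g) = T.om γ g :=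
  act_eq_self fun p hp => by rw [T.eq_baseD hp (hg.2 γ h p hp), T.smul_baseD]

theorem act_Ab {β : W} {k g : G} (hk : k ∈ T.Z β) (hg : g ∈ T.Ab β) (γ : W) :
    act k (T.om γ g) = T.om γ g :=
  (le_or_gt γ β).elim (fun h => T.act_om (T.Z_anti h hk) g) fun h => act_Ab_gt hg h k

theorem om_mul_Ab {β : W} {k g : G} (hk : k ∈ T.Z β) (hg : g ∈ T.Ab β) (γ : W) :
    T.om γ (k * g) = T.om γ k + T.om γ g := by rw [T.om_mul, act_Ab hk hg]

theorem Ab_comm {β : W} {k g : G} (hk : k ∈ T.Ab β) (hg : g ∈ T.Ab β) : k * g = g * k :=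
  T.comm_of hk.1.1 (act_Ab hk.1 hg) (act_Ab hg.1 hk)

variable (T)

theorem x_mem_Ab (β : W) (j : J) : T.x β j ∈ T.Ab β :=
  ⟨T.x_mem_Z le_rfl j, fun γ h p hp => absurd (by rw [T.om_x_ne h.ne]; rfl) hp⟩

theorem d_mem_Ab {β γ : W} (h : β ≤ γ) : T.d γ ∈ T.Ab β := by
  refine ⟨T.x_mem_Z h _, fun γ' _ p hp => ?_⟩
  by_cases h1 : γ = γ'
  · subst h1
    rw [d, T.om_x_self] at hp
    rw [(Finsupp.single_apply_ne_zero.1 hp).1]
    rfl
  · exact absurd (by rw [d, T.om_x_ne h1]; rfl) hp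

/-- Lamps of the main column of level `β`. -/
def Mn (β : W) : Subgroup G where
  carrier := {g | g ∈ T.Ab β ∧ (∀ γ, γ ≠ β → T.om γ g = 0) ∧ ∀ p, T.om β g p ≠ 0 → p.col = inl 0}
  one_mem' := ⟨one_mem _, fun γ _ => T.om_one γ, fun p hp => absurd (by rw [T.om_one]; rfl) hp⟩
  mul_mem' := fun {g h} hg hh => ⟨mul_mem hg.1 hh.1, fun γ hγ => by
      rw [T.om_mul, hg.2.1 γ hγ, hh.2.1 γ hγ, map_zero, add_zero], fun p hp => by
    rw [T.om_mul, Finsupp.add_apply, act_apply] at hp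
    by_cases h0 : T.om β g p = 0
    · rw [h0, zero_add] at hp
      exact hh.2.2 (g⁻¹ • p) hp
    · exact hg.2.2 p h0⟩
  inv_mem' := fun {g} hg => ⟨inv_mem hg.1, fun γ hγ => by
      rw [T.om_inv, hg.2.1 γ hγ, map_zero, neg_zero], fun p hp => by
    rw [T.om_inv, Finsupp.neg_apply, neg_ne_zero, act_apply] at hp
    exact hg.2.2 (g⁻¹⁻¹ • p) hp⟩

theorem conj_mem_Mn {β : W} {c : G} (hc : c ∈ T.Q β) : c * T.x β (inl 0) * c⁻¹ ∈ T.Mn β := by
  have h1 : ∀ γ, γ ≠ β → T.om γ (c * T.x β (inl 0) * c⁻¹) = 0 := fun γ h => by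
    rw [T.om_conj hc, T.om_x_ne h.symm, map_zero]
  refine ⟨⟨T.conj_mem_Z β _ (T.x_mem_Z le_rfl _) c, fun γ h p hp => ?_⟩, h1, fun p hp => ?_⟩
  · exact absurd (by rw [h1 γ h.ne']; rfl) hp
  · rw [T.om_conj hc, T.om_x_self, act_single] at hp
    rw [(Finsupp.single_apply_ne_zero.1 hp).1]
    rfl

theorem map_low (β : W) : (Subgroup.closure (of '' low β)).map T.pr = T.Q β := by
  rw [MonoidHom.map_closure, ← Set.image_comp]
  rfl

theorem pr_mem_Mn {β : W} {f : F} (hf : f ∈ mainF β) : T.pr f ∈ T.Mn β := by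
  refine (Subgroup.closure_le ((T.Mn β).comap T.pr)).2 ?_ hf
  rintro _ ⟨c, hc, rfl⟩
  show T.pr _ ∈ T.Mn β
  rw [map_mul, map_mul, map_inv]
  exact T.conj_mem_Mn (T.map_low β ▸ Subgroup.mem_map_of_mem _ hc)

theorem exists_main {β : W} {c : G} (hc : c ∈ T.Q β) :
    ∃ f ∈ mainF β, T.pr f = c * T.x β (inl 0) * c⁻¹ := by
  rw [← T.map_low] at hc
  obtain ⟨f, hf, rfl⟩ := hc
  exact ⟨_, Subgroup.subset_closure ⟨f, hf, rfl⟩, by rw [map_mul, map_mul, map_inv]; rfl⟩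

/-- The generators of the markers. -/
noncomputable def h (α : W) (τ : Task) (n : ℕ) : G := T.pr (hF α τ n)

theorem h_eq (α : W) (τ : Task) (n : ℕ) :
    T.h α τ n = T.pr (τ.m n) * T.x τ.β (inl (τ.c n + 1)) * T.d (lad α n) := by
  rw [h, hF, map_mul, map_mul]; rfl

theorem HQ_eq (α : W) (τ : Task) (A : Set ℕ) :
    T.HQ α τ A = Subgroup.closure (T.h α τ '' AI α τ A) := by
  rw [Tw.HQ, HF, MonoidHom.map_closure, ← Set.image_comp]
  rfl

theorem h_mem {α : W} {τ : Task} {A : Set ℕ} {n : ℕ} (hn : n ∈ AI α τ A) :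
    T.h α τ n ∈ T.HQ α τ A := by
  rw [HQ_eq]
  exact Subgroup.subset_closure ⟨n, hn, rfl⟩

theorem HQ_mono (α : W) (τ : Task) {A B : Set ℕ} (h : A ⊆ B) : T.HQ α τ A ≤ T.HQ α τ B := by
  rw [HQ_eq, HQ_eq]
  exact Subgroup.closure_mono (Set.image_mono fun n hn => ⟨h hn.1, hn.2⟩)

variable {T} {α : W} {τ : Task} {A : Set ℕ}

theorem h_mem_Ab (hw : WF α τ) {n : ℕ} (hn : τ.β < lad α n) : T.h α τ n ∈ T.Ab τ.β := by
  rw [h_eq]
  exact mul_mem (mul_mem (T.pr_mem_Mn (hw.main n)).1 (T.x_mem_Ab _ _)) (T.d_mem_Ab hn.le)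

theorem om_h (hw : WF α τ) {n : ℕ} (hn : τ.β < lad α n) (γ : W) :
    T.om γ (T.h α τ n) = T.om γ (T.pr (τ.m n)) + T.om γ (T.x τ.β (inl (τ.c n + 1))) +
      T.om γ (T.d (lad α n)) := by
  have h1 := (T.pr_mem_Mn (hw.main n)).1
  rw [h_eq, om_mul_Ab (mul_mem h1 (T.x_mem_Ab _ _)).1 (T.d_mem_Ab hn.le),
    om_mul_Ab h1.1 (T.x_mem_Ab _ _)]

theorem δ_h (hw : WF α τ) {n : ℕ} (hn : τ.β < lad α n) (γ : W) :
    T.δ γ (T.h α τ n) = if lad α n = γ then 1 else 0 := by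
  have h1 := T.pr_mem_Mn (hw.main n)
  have h2 : T.δ γ (T.pr (τ.m n)) = 0 := by
    by_cases h : γ = τ.β
    · subst h
      by_contra h3
      exact absurd (h1.2.2 _ h3) (by simp)
    · rw [δ, h1.2.1 γ h]; rfl
  have h3 : T.δ γ (T.x τ.β (inl (τ.c n + 1))) = 0 := by
    by_cases h : τ.β = γ
    · subst h
      rw [δ, T.om_x_self]
      exact Finsupp.single_eq_of_ne fun h4 => by simpa using congrArg Pt.col h4
    · rw [δ, T.om_x_ne h]; rfl
  rw [h_eq, δ_mul, δ_mul, h2, h3, δ_d, zero_add, zero_add]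

open Classical in
theorem pad_h (hw : WF α τ) {n : ℕ} (hn : τ.β < lad α n) {p : Pt G} {c : ℕ}
    (hp : p.col = inl (c + 1)) :
    T.om τ.β (T.h α τ n) p = if T.base τ.β (inl (τ.c n + 1)) = p then 1 else 0 := by
  have h1 := T.pr_mem_Mn (hw.main n)
  have h2 : T.om τ.β (T.pr (τ.m n)) p = 0 := by
    by_contra h3
    have := h1.2.2 _ h3
    simp [hp] at this
  rw [om_h hw hn, Finsupp.add_apply, Finsupp.add_apply, h2, d, T.om_x_ne hn.ne', T.om_x_self,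
    Finsupp.single_apply]
  simp

theorem h_mem_Q (hw : WF α τ) (n : ℕ) : T.h α τ n ∈ T.Q α := by
  rw [h_eq]
  refine mul_mem (mul_mem (T.mem_Q_of_om fun γ hγ => ?_) (T.x_mem_Q hw.lt _))
    (T.x_mem_Q (hw.lim.isLad.lt n) _)
  exact (T.pr_mem_Mn (hw.main n)).2.1 γ (hw.lt.trans_le hγ).ne'

theorem HQ_le_Q (hw : WF α τ) : T.HQ α τ A ≤ T.Q α := by
  rw [HQ_eq, Subgroup.closure_le]
  rintro _ ⟨n, -, rfl⟩
  exact h_mem_Q hw n

variable (T) in
/-- `e` is the exponent vector of `k`. -/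
structure Ex (α : W) (τ : Task) (A : Set ℕ) (k : G) (e : ℕ →₀ ZMod 3) : Prop where
  ab : k ∈ T.Ab τ.β
  supp : ∀ n, e n ≠ 0 → n ∈ AI α τ A
  om : ∀ γ, T.om γ k = Finsupp.linearCombination (ZMod 3) (fun n => T.om γ (T.h α τ n)) e

theorem Ex.one : T.Ex α τ A 1 0 := ⟨one_mem _, by simp, fun γ => by rw [T.om_one, map_zero]⟩

theorem Ex.gen (hw : WF α τ) {n : ℕ} (hn : n ∈ AI α τ A) :
    T.Ex α τ A (T.h α τ n) (Finsupp.single n 1) :=
  ⟨h_mem_Ab hw hn.2, fun _ hm => (Finsupp.single_apply_ne_zero.1 hm).1 ▸ hn, fun γ => by simp⟩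

theorem Ex.mul {k k' : G} {e e' : ℕ →₀ ZMod 3} (h : T.Ex α τ A k e) (h' : T.Ex α τ A k' e') :
    T.Ex α τ A (k * k') (e + e') := by
  refine ⟨mul_mem h.ab h'.ab, fun n hn => ?_, fun γ => ?_⟩
  · by_cases h0 : e n = 0
    · exact h'.supp n (by simpa [h0] using hn)
    · exact h.supp n h0
  · rw [om_mul_Ab h.ab.1 h'.ab, map_add, h.om, h'.om]

theorem Ex.inv {k : G} {e : ℕ →₀ ZMod 3} (h : T.Ex α τ A k e) : T.Ex α τ A k⁻¹ (-e) :=
  ⟨inv_mem h.ab, fun n hn => h.supp n (by simpa using hn), fun γ => by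
    rw [T.om_inv, act_Ab (inv_mem h.ab.1) h.ab, map_neg, h.om]⟩

theorem Ex.unique {k k' : G} {e : ℕ →₀ ZMod 3} {B : Set ℕ} (h : T.Ex α τ A k e)
    (h' : T.Ex α τ B k' e) : k = k' :=
  T.ext_om (h.ab.1.1.trans h'.ab.1.1.symm) fun γ => (h.om γ).trans (h'.om γ).symm

theorem exists_Ex (hw : WF α τ) {k : G} (hk : k ∈ T.HQ α τ A) : ∃ e, T.Ex α τ A k e := by
  rw [HQ_eq] at hk
  induction hk using Subgroup.closure_induction with
  | mem _ h => obtain ⟨n, hn, rfl⟩ := h; exact ⟨_, Ex.gen hw hn⟩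
  | one => exact ⟨_, Ex.one⟩
  | mul g h _ _ pg ph => obtain ⟨e, he⟩ := pg; obtain ⟨e', he'⟩ := ph; exact ⟨_, he.mul he'⟩
  | inv g _ pg => obtain ⟨e, he⟩ := pg; exact ⟨_, he.inv⟩

theorem Ex.apply {k : G} {e : ℕ →₀ ZMod 3} (h : T.Ex α τ A k e) (γ : W) (p : Pt G) :
    T.om γ k p = ∑ n ∈ e.support, e n * T.om γ (T.h α τ n) p := by
  rw [h.om, Finsupp.linearCombination_apply, Finsupp.sum, Finsupp.finsetSum_apply]
  rfl

theorem Ex.δ_ne (hw : WF α τ) {k : G} {e : ℕ →₀ ZMod 3} (h : T.Ex α τ A k e) {γ : W}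
    (h0 : T.δ γ k ≠ 0) : ∃ n ∈ AI α τ A, lad α n = γ := by
  rw [δ, h.apply] at h0
  obtain ⟨n, hn, h1⟩ := Finset.exists_ne_zero_of_sum_ne_zero h0
  have h2 := h.supp n (Finsupp.mem_support_iff.1 hn)
  refine ⟨n, h2, by_contra fun h3 => h1 ?_⟩
  rw [← δ, δ_h hw h2.2, if_neg h3, mul_zero]

theorem Ex.δ_lad (hw : WF α τ) {k : G} {e : ℕ →₀ ZMod 3} (h : T.Ex α τ A k e) (n : ℕ) :
    T.δ (lad α n) k = e n := by
  rw [δ, h.apply, Finset.sum_eq_single n]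
  · by_cases h0 : e n = 0
    · rw [h0, zero_mul]
    · rw [← δ, δ_h hw (h.supp n h0).2, if_pos rfl, mul_one]
  · intro m hm hmn
    rw [← δ, δ_h hw (h.supp m (Finsupp.mem_support_iff.1 hm)).2,
      if_neg fun h1 => hmn (hw.lim.isLad.inj h1), mul_zero]
  · intro hn
    rw [Finsupp.notMem_support_iff.1 hn, zero_mul]

theorem Ex.pad (hw : WF α τ) {k : G} {e : ℕ →₀ ZMod 3} (h : T.Ex α τ A k e) (n : ℕ) :
    T.om τ.β k (T.base τ.β (inl (τ.c n + 1))) = e n := by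
  rw [h.apply, Finset.sum_eq_single n]
  · by_cases h0 : e n = 0
    · rw [h0, zero_mul]
    · rw [pad_h hw (h.supp n h0).2 rfl, if_pos rfl, mul_one]
  · intro m hm hmn
    rw [pad_h hw (h.supp m (Finsupp.mem_support_iff.1 hm)).2 rfl, if_neg fun h1 => hmn ?_,
      mul_zero]
    have h2 := congrArg Pt.col h1
    simp only [PreTw.base_col, inl.injEq, Nat.add_right_cancel_iff] at h2
    exact hw.inj h2
  · intro hn
    rw [Finsupp.notMem_support_iff.1 hn, zero_mul]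

theorem Ex.pad_eq (hw : WF α τ) {k : G} {e : ℕ →₀ ZMod 3} (h : T.Ex α τ A k e) {p : Pt G} {c : ℕ}
    (hp : p.col = inl (c + 1)) (h0 : T.om τ.β k p ≠ 0) : p = T.base τ.β (inl (c + 1)) := by
  rw [h.apply] at h0
  obtain ⟨n, hn, h1⟩ := Finset.exists_ne_zero_of_sum_ne_zero h0
  rw [pad_h hw (h.supp n (Finsupp.mem_support_iff.1 hn)).2 hp] at h1
  have h2 : T.base τ.β (inl (τ.c n + 1)) = p := by_contra fun h3 => h1 (by rw [if_neg h3, mul_zero])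
  rw [← hp, ← h2]
  rfl

theorem HQ_le_Ab (hw : WF α τ) : T.HQ α τ A ≤ T.Ab τ.β := fun _ hk =>
  (exists_Ex hw hk).choose_spec.ab

theorem HQ_δ_inj (hw : WF α τ) {k k' : G} (hk : k ∈ T.HQ α τ A) (hk' : k' ∈ T.HQ α τ A)
    (h : ∀ n, T.δ (lad α n) k = T.δ (lad α n) k') : k = k' := by
  obtain ⟨e, he⟩ := exists_Ex hw hk
  obtain ⟨e', he'⟩ := exists_Ex hw hk'
  have : e = e' := Finsupp.ext fun n => by rw [← he.δ_lad hw, ← he'.δ_lad hw, h]
  exact he.unique (this ▸ he')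

theorem HQ_eq_one (hw : WF α τ) {k : G} (hk : k ∈ T.HQ α τ A) (h : T.om τ.β k = 0) : k = 1 := by
  obtain ⟨e, he⟩ := exists_Ex hw hk
  have : e = 0 := Finsupp.ext fun n => by rw [← he.pad hw, h]; rfl
  exact he.unique (A := A) (B := A) (this ▸ Ex.one)

theorem HQ_δ_ne (hw : WF α τ) {k : G} (hk : k ∈ T.HQ α τ A) {γ : W} (h0 : T.δ γ k ≠ 0) :
    ∃ n ∈ AI α τ A, lad α n = γ :=
  (exists_Ex hw hk).choose_spec.δ_ne hw h0

theorem HQ_finite (hw : WF α τ) {N : Set ℕ} (hN : N.Finite) :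
    {k | k ∈ T.HQ α τ A ∧ ∀ n, T.δ (lad α n) k ≠ 0 → n ∈ N}.Finite := by
  have := hN.to_subtype
  refine Set.Finite.of_finite_image (f := fun k (n : N) => T.δ (lad α n) k) (Set.toFinite _) ?_
  intro k hk k' hk' h
  refine HQ_δ_inj hw hk.1 hk'.1 fun n => ?_
  by_cases hn : n ∈ N
  · exact congrFun h ⟨n, hn⟩
  · rw [by_contra fun h1 => hn (hk.2 n h1), by_contra fun h1 => hn (hk'.2 n h1)]

theorem HQ_infinite (hw : WF α τ) (hA : A.Infinite) :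
    (AI α τ A).Infinite ∧ Set.InjOn (T.h α τ) (AI α τ A) := by
  refine ⟨(hA.sdiff (hw.lim.isLad.fin _ hw.lt)).mono fun n hn => ⟨hn.1, not_le.1 hn.2⟩,
    fun n hn m hm h => ?_⟩
  have h1 := δ_h (T := T) hw hn.2 (lad α n)
  rw [h, δ_h hw hm.2, if_pos rfl] at h1
  by_contra h2
  rw [if_neg fun h3 => h2 (hw.lim.isLad.inj h3).symm] at h1
  exact zero_ne_one h1

end MT

end Pool.Agent.MP_82452b_an.H8
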