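import Pool.Agent.MP_82452b_an.H8.Base

/-!
# Involutive automorphisms of a group von Neumann algebra
-/

namespace Pool.Agent.MP_82452b_an.H8

open Filter Topology Pool.Agent.MP_755d6b_an.H98
open scoped InnerProductSpace

variable {G : Type} [Group G]

/-- `S` implements a trace preserving involutive automorphism `y ↦ S y S` of `L(G)`. -/
structure RT (S : L2 G →L[ℂ] L2 G) : Prop where
  sq : S * S = 1
  sa : star S = S
  fix : S (dl 1) = dl 1
  mem : ∀ y ∈ LG G, S * y * S ∈ LG G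

/-- The vector `ξ` is supported in `D`. -/
def Supp (ξ : L2 G) (D : Set G) : Prop := ∀ q, ξ q ≠ 0 → q ∈ D

/-- The subgroup `Γ` is invariant under the automorphism. -/
def Inv (S : L2 G →L[ℂ] L2 G) (Γ : Subgroup G) : Prop := ∀ g ∈ Γ, Supp (S (dl g)) Γ

/-- Infinite conjugacy classes. -/
def Icc (Γ : Subgroup G) : Prop := ∀ k ∈ Γ, k ≠ 1 → {q | ∃ g ∈ Γ, g⁻¹ * k * g = q}.Infinite

/-- `κ` is a retraction onto `Γ`. -/
structure Retr (κ : G →* G) (Γ : Subgroup G) : Prop where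
  mem : ∀ g, κ g ∈ Γ
  fix : ∀ g ∈ Γ, κ g = g

/-- The automorphism is implemented on `Γ` by a unitary of `L(Γ)`. -/
def InnerOn (S : L2 G →L[ℂ] L2 G) (Γ : Subgroup G) : Prop :=
  ∃ w ∈ LG G, star w * w = 1 ∧ w * star w = 1 ∧ Supp (w (dl 1)) Γ ∧
    ∀ g ∈ Γ, S * lam g * S * w = w * lam g

variable {S : L2 G →L[ℂ] L2 G}

theorem RT.apply_apply (h : RT S) (ξ : L2 G) : S (S ξ) = ξ := by
  rw [← mul_apply_eq_comp, h.sq, one_apply_eq_self]

theorem RT.inner_left (h : RT S) (ξ η : L2 G) : ⟪S ξ, η⟫_ℂ = ⟪ξ, S η⟫_ℂ := by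
  rw [← inner_star_apply, h.sa]

theorem RT.norm_apply (h : RT S) (ξ : L2 G) : ‖S ξ‖ = ‖ξ‖ := by
  rw [norm_eq_sqrt_re_inner (𝕜 := ℂ), h.inner_left, h.apply_apply, ← norm_eq_sqrt_re_inner]

theorem RT.u_dl (h : RT S) (g : G) : (S * lam g * S) (dl 1) = S (dl g) := by
  rw [mul_apply_eq_comp, mul_apply_eq_comp, h.fix, lam_dl, mul_one]

theorem RT.u_mul (h : RT S) (g k : G) :
    S * lam (g * k) * S = (S * lam g * S) * (S * lam k * S) := by
  rw [lam_mul]
  calc S * (lam g * lam k) * S = S * lam g * (S * S) * lam k * S := by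
        rw [h.sq]; simp only [mul_one, mul_assoc]
    _ = _ := by simp only [mul_assoc]

theorem RT.coeff_symm (h : RT S) (g k : G) : S (dl g) k = (starRingEnd ℂ) (S (dl k) g) := by
  rw [← inner_dl, ← inner_dl, ← h.inner_left, inner_conj_symm]

theorem RT.ne_zero_symm (h : RT S) {g k : G} (hk : S (dl g) k ≠ 0) : S (dl k) g ≠ 0 := by
  rw [h.coeff_symm] at hk
  exact fun h0 => hk (by rw [h0, map_zero])

omit [Group G] in
theorem finite_le_norm (ξ : L2 G) {ε : ℝ} (hε : 0 < ε) : {q | ε ≤ ‖ξ q‖}.Finite := by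
  have h1 := (hasSum_sq ξ).summable.tendsto_cofinite_zero.eventually
    (gt_mem_nhds (show (0 : ℝ) < ε ^ 2 by positivity))
  refine (eventually_cofinite.1 h1).subset fun x hx => ?_
  exact not_lt.2 (pow_le_pow_left₀ hε.le hx 2)

theorem RT.finite_coeff (h : RT S) (q : G) {ε : ℝ} (hε : 0 < ε) :
    {k | ε ≤ ‖S (dl k) q‖}.Finite := by
  refine (finite_le_norm (S (dl q)) hε).subset fun k hk => ?_
  rw [Set.mem_ofPred_eq, h.coeff_symm, Complex.norm_conj]
  exact hk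

omit [Group G] in
theorem countable_supp (ξ : L2 G) : {q | ξ q ≠ 0}.Countable := by
  refine (Set.countable_iUnion fun n : ℕ =>
    (finite_le_norm ξ (ε := 1 / ((n : ℝ) + 1)) (by positivity)).countable).mono fun q hq => ?_
  obtain ⟨n, hn⟩ := exists_nat_one_div_lt (norm_pos_iff.2 hq)
  exact Set.mem_iUnion.2 ⟨n, hn.le⟩

end Pool.Agent.MP_82452b_an.H8
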