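import Pool.Agent.MP_82452b_an.H8.Coc

/-!
# Retractions onto closed subtowers, levels and commutation
-/

namespace Pool.Agent.MP_82452b_an.H8

open Sum
open FreeGroup (of)

open Classical in
/-- Killing the generators outside `A`. -/
noncomputable def kill (A : Set Gen) : F →* F := FreeGroup.lift fun s => if s ∈ A then of s else 1

theorem kill_mem {A : Set Gen} {s : Gen} (h : s ∈ A) : kill A (of s) = of s := by simp [kill, h]

theorem kill_notMem {A : Set Gen} {s : Gen} (h : s ∉ A) : kill A (of s) = 1 := by simp [kill, h]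

/-- The generators below a level. -/
def low (α : W) : Set Gen
  | inl _ => True
  | inr (γ, _) => γ < α

theorem low_mono {α β : W} (h : α ≤ β) : low α ⊆ low β := by
  rintro (s | ⟨γ, j⟩) hs
  · trivial
  · exact lt_of_lt_of_le hs h

namespace PreTw

variable {G : Type} [Group G] (T : PreTw G)

/-- A set of generators containing the base and the stabilisers of its base points. -/
structure Closed (A : Set Gen) : Prop where
  base : ∀ s, inl s ∈ A
  stab : ∀ γ j, inr (γ, j) ∈ A → T.K γ j = ⊤ ∨ ∀ g ∈ T.K γ j, ∃ k ∈ T.Γ A, k⁻¹ * g ∈ T.Z γ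

theorem pr_kill_mem (A : Set Gen) (f : F) : T.pr (kill A f) ∈ T.Γ A := by
  induction f using FreeGroup.induction_on with
  | C1 => simp only [map_one]; exact one_mem _
  | of s =>
    by_cases h : s ∈ A
    · rw [kill_mem h]; exact T.gen_mem h
    · rw [kill_notMem h, map_one]; exact one_mem _
  | inv_of s hs => simp only [map_inv]; exact inv_mem hs
  | mul f g hf hg => simp only [map_mul]; exact mul_mem hf hg

theorem exists_kill_eq {A : Set Gen} {k : G} (hk : k ∈ T.Γ A) :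
    ∃ f, T.pr f = k ∧ kill A f = f := by
  refine T.Γ_induction (p := fun k => ∃ f, T.pr f = k ∧ kill A f = f) ⟨1, map_one _, map_one _⟩
    (fun s hs => ⟨of s, rfl, kill_mem hs⟩) ?_ ?_ hk
  · rintro _ - ⟨f, rfl, hf⟩
    exact ⟨f⁻¹, map_inv _ _, by rw [map_inv, hf]⟩
  · rintro _ - _ - ⟨f, rfl, hf⟩ ⟨g, rfl, hg⟩
    exact ⟨f * g, map_mul _ _ _, by rw [map_mul, hf, hg]⟩

theorem b_kill {A : Set Gen} (hA : ∀ s, inl s ∈ A) (f : F) :
    T.b (T.pr (kill A f)) = T.b (T.pr f) := by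
  have : (T.b.comp T.pr).comp (kill A) = T.b.comp T.pr := FreeGroup.ext_hom _ _ fun s => by
    by_cases h : s ∈ A
    · simp only [MonoidHom.comp_apply, kill_mem h]
    · obtain s | s := s
      · exact absurd (hA s) h
      · simp only [MonoidHom.comp_apply, kill_notMem h, map_one, T.b_inr]
  exact DFunLike.congr_fun this f

/-- The image of a point under the retraction. -/
def push (A : Set Gen) (γ : W) (p : Pt G) : Pt G :=
  ⟨p.col, {y | ∃ f, T.pr f ∈ p.set ∧ (T.pr (kill A f))⁻¹ * y ∈ T.K γ p.col}⟩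

theorem push_smul (A : Set Gen) (γ : W) (f : F) (p : Pt G) :
    T.push A γ (T.pr f • p) = T.pr (kill A f) • T.push A γ p := by
  refine Pt.ext rfl (Set.ext fun y => ⟨?_, ?_⟩)
  · rintro ⟨g, hg, h⟩
    refine ⟨f⁻¹ * g, by rwa [map_mul, map_inv], ?_⟩
    simpa [mul_assoc] using h
  · rintro ⟨g, hg, h⟩
    refine ⟨f * g, ?_, ?_⟩
    · rw [mem_smul_set, map_mul, inv_mul_cancel_left]; exact hg
    · simpa [mul_assoc] using h

theorem om_kill {A : Set Gen} {γ : W}
    (h : ∀ j, inr (γ, j) ∈ A → ∀ f, T.pr f ∈ T.K γ j → T.pr (kill A f) ∈ T.K γ j) (f : F)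
    (hf : T.om γ (T.pr f) = 0) : T.om γ (T.pr (kill A f)) = 0 := by
  classical
  let L : V G →+ V G := (Finsupp.mapDomain.addMonoidHom (T.push A γ)).comp
    (Finsupp.filterAddHom fun p : Pt G => inr (γ, p.col) ∈ A)
  have hL1 : ∀ p c, L (Finsupp.single p c) =
      if inr (γ, p.col) ∈ A then Finsupp.single (T.push A γ p) c else 0 := fun p c => by
    show Finsupp.mapDomain _ (Finsupp.filter _ _) = _
    split_ifs with h1
    · rw [Finsupp.filter_single_of_pos (fun p : Pt G => inr (γ, p.col) ∈ A) h1, Finsupp.mapDomain_single]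
    · rw [Finsupp.filter_single_of_neg (fun p : Pt G => inr (γ, p.col) ∈ A) h1, Finsupp.mapDomain_zero]
  have hL2 : ∀ g v, L (act (T.pr g) v) = act (T.pr (kill A g)) (L v) := fun g v => by
    induction v using Finsupp.induction_linear with
    | zero => simp
    | add v w hv hw => simp only [map_add, hv, hw]
    | single p c =>
      rw [act_single, hL1, hL1, smul_col]
      split_ifs
      · rw [act_single, push_smul]
      · rw [map_zero]
  have key := cocycle_ext (φ := T.pr.comp (kill A)) (u := fun f => T.om γ (T.pr (kill A f)))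
    (v := fun f => L (T.om γ (T.pr f))) (fun f g => by simp only [map_mul, T.om_mul]; rfl)
    (fun f g => by simp only [map_mul, T.om_mul, map_add, hL2]; rfl) (fun s => ?_) f
  · rw [key, hf, map_zero]
  by_cases hs : s ∈ A
  · rw [kill_mem hs]
    obtain s | ⟨γ', j⟩ := s
    · rw [T.om_inl, map_zero]
    · by_cases h1 : γ' = γ
      · subst h1
        rw [T.om_self, hL1, if_pos hs]
        congr 1
        refine Pt.ext rfl (Set.ext fun y => ⟨fun hy => ⟨1, ?_, by simpa using hy⟩, ?_⟩)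
        · rw [map_one]; exact one_mem (T.K γ' j)
        · rintro ⟨g, hg, h2⟩
          exact ((T.K γ' j).mul_mem_cancel_left (inv_mem (h j hs g hg))).1 h2
      · rw [T.om_ne _ _ _ h1, map_zero]
  · rw [kill_notMem hs, map_one, T.om_one]
    obtain s | ⟨γ', j⟩ := s
    · rw [T.om_inl, map_zero]
    · by_cases h1 : γ' = γ
      · subst h1
        rw [T.om_self, hL1, if_neg hs]
      · rw [T.om_ne _ _ _ h1, map_zero]

variable {T}

theorem Closed.kill_K {A : Set Gen} (hA : T.Closed A) {γ : W}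
    (ih : ∀ f, T.pr f ∈ T.Z γ → T.pr (kill A f) ∈ T.Z γ) (j : J) (hj : inr (γ, j) ∈ A) (f : F)
    (hf : T.pr f ∈ T.K γ j) : T.pr (kill A f) ∈ T.K γ j := by
  rcases hA.stab γ j hj with h | h
  · rw [h]; trivial
  · obtain ⟨k, hk, h1⟩ := h _ hf
    obtain ⟨g, rfl, hg⟩ := T.exists_kill_eq hk
    have h2 := ih (g⁻¹ * f) (by rwa [map_mul, map_inv])
    rw [map_mul, map_inv, hg, map_mul, map_inv] at h2
    have h3 : T.pr g ∈ T.K γ j := by
      have := mul_mem hf (inv_mem (T.Z_le_K γ j h1))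
      simpa using this
    exact ((T.K γ j).mul_mem_cancel_left (inv_mem h3)).1 (T.Z_le_K γ j h2)

theorem Closed.kill_Z {A : Set Gen} (hA : T.Closed A) (γ : W) :
    ∀ f, T.pr f ∈ T.Z γ → T.pr (kill A f) ∈ T.Z γ := by
  induction γ using WellFoundedLT.induction with
  | ind γ ih =>
    exact fun f hf => ⟨(T.b_kill hA.base f).trans hf.1, fun γ' h =>
      T.om_kill (hA.kill_K (ih γ' h)) f (hf.2 γ' h)⟩

variable (T)

/-- The subgroup below a level. -/
def Q (α : W) : Subgroup G := T.Γ (low α)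

theorem Q_mono : Monotone T.Q := fun _ _ h => T.Γ_mono (low_mono h)

theorem x_mem_Q {γ α : W} (h : γ < α) (j : J) : T.x γ j ∈ T.Q α := T.gen_mem h

theorem x_mem_Z {γ α : W} (h : α ≤ γ) (j : J) : T.x γ j ∈ T.Z α :=
  ⟨T.b_x γ j, fun _ h' => T.om_x_ne (lt_of_lt_of_le h' h).ne' j⟩

theorem om_of_mem_Q {α γ : W} {g : G} (hg : g ∈ T.Q α) (h : α ≤ γ) : T.om γ g = 0 :=
  T.om_eq_zero hg fun _ hj => absurd (show γ < α from hj) (not_lt.2 h)

theorem kill_low (α : W) (f : F) : (T.pr (kill (low α) f))⁻¹ * T.pr f ∈ T.Z α := by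
  induction f using FreeGroup.induction_on with
  | C1 => simp only [map_one, inv_one, mul_one]; exact one_mem _
  | of s =>
    by_cases h : s ∈ low α
    · rw [kill_mem h, inv_mul_cancel]; exact one_mem _
    · rw [kill_notMem h, map_one, inv_one, one_mul]
      obtain s | ⟨γ, j⟩ := s
      · exact absurd trivial h
      · exact T.x_mem_Z (not_lt.1 h) j
  | inv_of s hs =>
    simp only [map_inv, inv_inv]
    have h4 := T.conj_mem_Z α _ (inv_mem hs) (T.pr (of s))
    simpa [mul_assoc] using h4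
  | mul f g hf hg =>
    have h1 := T.conj_mem_Z α _ hf (T.pr (kill (low α) g))⁻¹
    have h2 := mul_mem h1 hg
    simpa [mul_assoc] using h2

theorem closed_low (α : W) : T.Closed (low α) := by
  refine ⟨fun _ => trivial, fun γ j hj => Or.inr fun g _ => ?_⟩
  obtain ⟨f, rfl⟩ := T.surj g
  exact ⟨_, T.Γ_mono (low_mono (le_of_lt hj)) (T.pr_kill_mem _ f), T.kill_low γ f⟩

theorem finite_levels (g : G) : {γ | T.om γ g ≠ 0}.Finite := by
  refine T.Γ_induction (p := fun g => {γ | T.om γ g ≠ 0}.Finite) ?_ ?_ ?_ ?_ (T.mem_Γ_univ g)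
  · simp [T.om_one]
  · rintro (s | ⟨γ, j⟩) -
    · simp [gen, T.om_inl]
    · exact (Set.finite_singleton γ).subset fun γ' h => by
        by_contra h1
        exact h (T.om_ne _ _ _ (Ne.symm h1))
  · intro g _ hg
    exact hg.subset fun γ h h0 => h (by rw [T.om_inv, h0, map_zero, neg_zero])
  · intro g _ h _ hg hh
    refine (hg.union hh).subset fun γ h1 => ?_
    by_contra h2
    simp only [Set.mem_union, Set.mem_ofPred_eq, not_or, not_not] at h2
    exact h1 (by rw [T.om_mul, h2.1, h2.2, map_zero, add_zero])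

theorem exists_finite_Γ {A : Set Gen} {g : G} (hg : g ∈ T.Γ A) :
    ∃ B, B ⊆ A ∧ B.Finite ∧ g ∈ T.Γ B := by
  refine T.Γ_induction (p := fun g => ∃ B, B ⊆ A ∧ B.Finite ∧ g ∈ T.Γ B)
    ⟨∅, Set.empty_subset _, Set.finite_empty, one_mem _⟩
    (fun s hs => ⟨{s}, Set.singleton_subset_iff.2 hs, Set.finite_singleton s, T.gen_mem rfl⟩)
    (fun g _ ⟨B, h1, h2, h3⟩ => ⟨B, h1, h2, inv_mem h3⟩) ?_ hg
  rintro g - h - ⟨B, h1, h2, h3⟩ ⟨C, h4, h5, h6⟩
  exact ⟨B ∪ C, Set.union_subset h1 h4, h2.union h5,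
    mul_mem (T.Γ_mono Set.subset_union_left h3) (T.Γ_mono Set.subset_union_right h6)⟩

end PreTw

namespace Tw

variable {G : Type} [Group G] (T : Tw G)

theorem ext_om {g h : G} (hb : T.b g = T.b h) (ho : ∀ γ, T.om γ g = T.om γ h) : g = h := by
  refine inv_mul_eq_one.1 (T.sep _ (by rw [map_mul, map_inv, hb, inv_mul_cancel]) fun γ => ?_)
  rw [T.om_mul, T.toPreTw.om_inv, ho, neg_add_cancel]

/-- The retraction onto the subgroup generated by a closed set. -/
noncomputable def κ {A : Set Gen} (hA : T.Closed A) : G →* G :=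
  T.pr.liftOfSurjective T.surj ⟨T.pr.comp (kill A), fun f hf => by
    have h1 : T.pr f = 1 := hf
    refine T.sep _ ((T.toPreTw.b_kill hA.base f).trans (by rw [h1, map_one])) fun γ => ?_
    exact T.toPreTw.om_kill (hA.kill_K (hA.kill_Z γ)) f (by rw [h1, T.toPreTw.om_one])⟩

variable {T}

theorem κ_pr {A : Set Gen} (hA : T.Closed A) (f : F) : T.κ hA (T.pr f) = T.pr (kill A f) :=
  T.pr.liftOfRightInverse_comp_apply _ _ _ f

theorem κ_mem {A : Set Gen} (hA : T.Closed A) (g : G) : T.κ hA g ∈ T.Γ A := by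
  obtain ⟨f, rfl⟩ := T.surj g
  rw [κ_pr]
  exact T.toPreTw.pr_kill_mem A f

theorem κ_fix {A : Set Gen} (hA : T.Closed A) {g : G} (hg : g ∈ T.Γ A) : T.κ hA g = g := by
  obtain ⟨f, rfl, hf⟩ := T.toPreTw.exists_kill_eq hg
  rw [κ_pr, hf]

theorem κ_mem_Z {A : Set Gen} (hA : T.Closed A) {γ : W} {g : G} (hg : g ∈ T.Z γ) :
    T.κ hA g ∈ T.Z γ := by
  obtain ⟨f, rfl⟩ := T.surj g
  rw [κ_pr]
  exact hA.kill_Z γ f hg

theorem κ_mem_Γ {A : Set Gen} (hA : T.Closed A) {B : Set Gen} {g : G} (hg : g ∈ T.Γ B) :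
    T.κ hA g ∈ T.Γ B := by
  refine T.toPreTw.Γ_induction (p := fun g => T.κ hA g ∈ T.Γ B) ?_ (fun s hs => ?_)
    (fun g _ h => ?_) (fun g _ h _ h1 h2 => ?_) hg
  · rw [map_one]; exact one_mem _
  · rw [PreTw.gen, κ_pr]
    by_cases h : s ∈ A
    · rw [kill_mem h]; exact T.toPreTw.gen_mem hs
    · rw [kill_notMem h, map_one]; exact one_mem _
  · rw [map_inv]; exact inv_mem h
  · rw [map_mul]; exact mul_mem h1 h2

variable (T)

theorem eq_one_of_mem {α : W} {g : G} (h1 : g ∈ T.Q α) (h2 : g ∈ T.Z α) : g = 1 :=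
  T.sep g h2.1 fun γ => (lt_or_ge γ α).elim (h2.2 γ) (T.toPreTw.om_of_mem_Q h1)

theorem eq_one_of_κ {A : Set Gen} (hA : T.Closed A) {α : W} (h : A ⊆ low α) {g : G}
    (hg : g ∈ T.Z α) : T.κ hA g = 1 :=
  T.eq_one_of_mem (T.toPreTw.Γ_mono h (κ_mem hA g)) (κ_mem_Z hA hg)

/-- The retraction onto the subgroup below a level. -/
noncomputable def ρ (α : W) : G →* G := T.κ (T.toPreTw.closed_low α)

theorem ρ_mem (α : W) (g : G) : T.ρ α g ∈ T.Q α := κ_mem _ g

theorem ρ_fix {α : W} {g : G} (hg : g ∈ T.Q α) : T.ρ α g = g := κ_fix _ hg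

theorem ρ_inv_mul (α : W) (g : G) : (T.ρ α g)⁻¹ * g ∈ T.Z α := by
  obtain ⟨f, rfl⟩ := T.surj g
  rw [ρ, κ_pr]
  exact T.toPreTw.kill_low α f

theorem mem_Z_iff {α : W} {g : G} : g ∈ T.Z α ↔ T.ρ α g = 1 := by
  refine ⟨T.eq_one_of_κ _ subset_rfl, fun h => ?_⟩
  have := T.ρ_inv_mul α g
  rwa [h, inv_one, one_mul] at this

theorem om_ρ {α γ : W} (h : γ < α) (g : G) : T.om γ (T.ρ α g) = T.om γ g := by
  have := T.om_mul γ (T.ρ α g) ((T.ρ α g)⁻¹ * g)
  rw [mul_inv_cancel_left, (T.ρ_inv_mul α g).2 γ h, map_zero, add_zero] at this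
  exact this.symm

theorem b_ρ (α : W) (g : G) : T.b (T.ρ α g) = T.b g := by
  have := (T.ρ_inv_mul α g).1
  rwa [map_mul, map_inv, inv_mul_eq_one] at this

theorem mem_Q_of_om {α : W} {g : G} (h : ∀ γ, α ≤ γ → T.om γ g = 0) : g ∈ T.Q α := by
  have : T.ρ α g = g := T.ext_om (T.b_ρ α g) fun γ => (lt_or_ge γ α).elim (T.om_ρ · g)
    fun h' => (T.toPreTw.om_of_mem_Q (T.ρ_mem α g) h').trans (h γ h').symm
  exact this ▸ T.ρ_mem α g

theorem comm_of {g h : G} (hb : T.b g = 1)
    (h1 : ∀ γ, act g (T.om γ h) = T.om γ h) (h2 : ∀ γ, act h (T.om γ g) = T.om γ g) :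
    g * h = h * g :=
  T.ext_om (by rw [map_mul, map_mul, hb, one_mul, mul_one]) fun γ => by
    rw [T.om_mul, T.om_mul, h1, h2, add_comm]

theorem x_comm {γ : W} {j : J} {g : G} (h1 : g ∈ T.Q γ) (h2 : g ∈ T.K γ j) :
    g * T.x γ j = T.x γ j * g := by
  refine (T.comm_of (T.toPreTw.b_x γ j) (fun γ' => ?_) fun γ' => ?_).symm
  · rcases le_or_gt γ' γ with h | h
    · exact T.toPreTw.act_om (T.toPreTw.x_mem_Z h j) g
    · rw [T.toPreTw.om_of_mem_Q h1 h.le, map_zero]
  · by_cases h : γ = γ'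
    · subst h
      rw [T.toPreTw.om_x_self, act_single, T.toPreTw.smul_base.2 h2]
    · rw [T.toPreTw.om_x_ne h, map_zero]

theorem gen_cube (s : Gen) : T.gen s ^ 3 = 1 := by
  obtain s | ⟨γ, j⟩ := s
  · refine T.sep _ ?_ fun γ => ?_
    · rw [map_pow, PreTw.gen, T.b_inl, ← Pi.mulSingle_pow, s.2.2, Pi.mulSingle_one]
    · exact T.toPreTw.om_eq_zero (A := Set.range inl)
        (pow_mem (T.toPreTw.gen_mem (Set.mem_range_self s)) 3) (by simp)
  · refine T.sep _ ?_ fun γ' => ?_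
    · rw [map_pow, PreTw.gen, T.b_inr, one_pow]
    · by_cases h : γ = γ'
      · subst h
        have h1 := T.toPreTw.act_om (T.toPreTw.x_mem_Z le_rfl j (γ := γ))
        show T.om γ (T.x γ j ^ 3) = 0
        rw [pow_three, T.om_mul, h1, T.om_mul, h1, T.toPreTw.om_x_self, ← Finsupp.single_add,
          ← Finsupp.single_add]
        exact Finsupp.single_eq_zero.2 rfl
      · refine T.toPreTw.om_eq_zero (A := {inr (γ, j)})
          (pow_mem (T.toPreTw.gen_mem (Set.mem_singleton _)) 3) fun j' hj => h ?_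
        simp only [Set.mem_singleton_iff, inr.injEq, Prod.mk.injEq] at hj
        exact hj.1.symm

end Tw

end Pool.Agent.MP_82452b_an.H8
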