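import Pool.Agent.MP_82452b_an.H8.Base

/-!
# The tower data used on the ultrapower side
-/

namespace Pool.Agent.MP_82452b_an.H8

/-- An increasing tower of subgroups with commuting elements of order three, and a sequence of
commuting dihedral groups of order eight at the bottom. -/
structure TData (W G : Type) [LinearOrder W] [Group G] where
  Qs : W → Subgroup G
  mono : Monotone Qs
  cover : ∀ g, ∃ γ, g ∈ Qs γ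
  d : W → G
  d_cube : ∀ γ, d γ ^ 3 = 1
  d_notMem : ∀ γ, d γ ∉ Qs γ
  d_mem : ∀ γ γ', γ < γ' → d γ ∈ Qs γ'
  d_comm : ∀ γ, ∀ g ∈ Qs γ, g * d γ = d γ * g
  icc : ∀ γ, ∃ ξ, γ ≤ ξ ∧ ∀ k ∈ Qs ξ, k ≠ 1 → {q | ∃ g ∈ Qs ξ, g⁻¹ * k * g = q}.Infinite
  a : ℕ → G
  b : ℕ → G
  Λ : ℕ → Subgroup G
  Λ_mono : Monotone Λ
  Λ_le : ∀ n γ, Λ n ≤ Qs γ
  a_mem : ∀ n, a n ∈ Λ (n + 1)
  b_mem : ∀ n, b n ∈ Λ (n + 1)
  a_comm : ∀ n, ∀ g ∈ Λ n, g * a n = a n * g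
  b_comm : ∀ n, ∀ g ∈ Λ n, g * b n = b n * g
  a_sq : ∀ n, a n ^ 2 = 1
  b_sq : ∀ n, b n ^ 2 = 1
  ab_four : ∀ n, (a n * b n) ^ 4 = 1
  z_notMem : ∀ n, (a n * b n) ^ 2 ∉ Λ n

end Pool.Agent.MP_82452b_an.H8
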