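import Pool.Agent.MP_82452b_an.H8.WM
import Pool.Agent.MP_82452b_an.H8.TData
import Pool.Agent.MP_82452b_an.H71.Inner
import Pool.Agent.MP_82452b_an.H48.Patch

/-!
# Involutive automorphisms of the group von Neumann algebra of the marked tower are inner
-/

namespace Pool.Agent.MP_82452b_an.H8

open Sum Filter Topology Pool.Agent.MP_755d6b_an.H98
open FreeGroup (of)

variable {G : Type} [Group G] {S : L2 G →L[ℂ] L2 G}

namespace MT

variable {T : MT G}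

theorem om_conj_lamp {γ : W} {m : G} (hm : m ∈ T.Z γ) (k : G) :
    T.om γ (m⁻¹ * k * m) = T.om γ k + (act k (T.om γ m) - T.om γ m) := by
  rw [T.om_mul, T.om_mul, act_mul, T.act_om (inv_mem hm), T.om_inv, T.act_om (inv_mem hm)]
  have h1 : act m⁻¹ (act k (T.om γ m)) = act k (T.om γ m) := by
    have h2 := T.act_om (inv_mem hm) (k * m)
    rw [T.om_mul, map_add, T.act_om (inv_mem hm)] at h2
    exact add_left_cancel h2
  rw [h1]
  abel

theorem infinite_conj {X : Type} [Infinite X] {γ : W} {k : G} {m : X → G} {p : X → Pt G}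
    (hp : Function.Injective p) (hm : ∀ i, m i ∈ T.Z γ) {e : ZMod 3} (he : e ≠ 0)
    (h1 : ∀ i, T.om γ (m i) = Finsupp.single (p i) e) (h2 : ∀ i, k • p i ≠ p i) :
    (Set.range fun i => (m i)⁻¹ * k * m i).Infinite := by
  intro hfin
  refine Set.infinite_range_of_injective hp ((hfin.biUnion fun q _ =>
    (T.om γ q - T.om γ k).support.finite_toSet).subset ?_)
  rintro _ ⟨i, rfl⟩
  refine Set.mem_biUnion (Set.mem_range_self i) ?_
  rw [Finset.mem_coe, Finsupp.mem_support_iff, om_conj_lamp (hm i), add_sub_cancel_left, h1,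
    act_single, Finsupp.sub_apply, Finsupp.single_eq_same, Finsupp.single_eq_of_ne (h2 i).symm,
    zero_sub]
  exact neg_ne_zero.2 he

theorem infinite_conj_x {γ : W} {k : G} (hk : k ∈ T.Q γ) (h1 : k ≠ 1) :
    (Set.range fun c : ℕ => (T.x γ (inl c))⁻¹ * k * T.x γ (inl c)).Infinite :=
  infinite_conj (p := fun c => T.base γ (inl c)) (fun c c' h => by simpa using congrArg Pt.col h)
    (fun _ => T.x_mem_Z le_rfl _) one_ne_zero (fun _ => T.om_x_self _ _)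
    fun _ h => h1 (T.eq_one_of_mem hk (T.smul_free.1 h))

theorem exists_lt_mem_Q {α : W} (hl : Lim α) {g : G} (hg : g ∈ T.Q α) : ∃ γ < α, g ∈ T.Q γ := by
  obtain ⟨δ, hδ, h⟩ := hl.exists_bound (T.finite_levels g) fun γ h => not_le.1 fun h1 =>
    h (T.om_of_mem_Q hg h1)
  exact ⟨δ, hδ, T.mem_Q_of_om fun γ h1 => by_contra fun h2 => (h γ h2).not_ge h1⟩

theorem icc_of {Γ : Subgroup G} {α : W} (hl : Lim α) (hΓ : Γ ≤ T.Q α)
    (hX : ∀ γ < α, ∀ c, T.x γ (inl c) ∈ Γ) : Icc Γ := by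
  intro k hk h1
  obtain ⟨γ, hγ, h2⟩ := exists_lt_mem_Q hl (hΓ hk)
  refine (infinite_conj_x h2 h1).mono ?_
  rintro _ ⟨c, rfl⟩
  exact ⟨_, hX γ hγ c, rfl⟩

variable (T) in
theorem exists_mem_Q (g : G) : ∃ γ, g ∈ T.Q γ := by
  obtain ⟨α, h⟩ := exists_gt_countable (T.finite_levels g).countable
  exact ⟨α, T.mem_Q_of_om fun γ h1 => by_contra fun h2 => (h γ h2).not_ge h1⟩

variable (T S) in
/-- Countable closed invariant sets of generators. -/
structure Gd (A : Set Gen) : Prop where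
  countable : A.Countable
  closed : T.Closed A
  ne : ∃ γ j, inr (γ, j) ∈ A
  up : ∀ γ j, inr (γ, j) ∈ A → ∃ γ', γ < γ' ∧ inr (γ', cD) ∈ A
  down : ∀ γ j, inr (γ, j) ∈ A → ∀ γ' ≤ γ, inr (γ', cD) ∈ A ∧ ∀ c, inr (γ', inl c) ∈ A
  inv : ∀ s ∈ A, Supp (S (dl (T.gen s))) (T.Γ A)

variable (T S) in
theorem exists_gd {A₀ : Set Gen} (hA : A₀.Countable) {B : Set G} (hB : B.Countable) :
    ∃ A, A₀ ⊆ A ∧ B ⊆ T.Γ A ∧ Gd S T A := by
  obtain ⟨lt, hlt⟩ := T.exists_letters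
  choose nx hnx using fun γ : W => exists_gt_countable (Set.countable_singleton γ)
  let Ψ : Gen → Set Gen := fun s => match s with
    | inl _ => ∅
    | inr (γ, _) => ⋃ γ' ∈ insert (nx γ) (Set.Iio (nx γ)),
        insert (inr (γ', cD)) (Set.range fun c => inr (γ', inl c))
  have hΨ : ∀ s, (Ψ s).Countable := by
    rintro (s | ⟨γ, j⟩)
    · exact Set.countable_empty
    · exact ((countable_Iio _).insert _).biUnion fun _ _ => (Set.countable_range _).insert _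
  obtain ⟨γ₀⟩ : Nonempty W := inferInstance
  obtain ⟨A, h1, h2, h3, h4, h5, -⟩ := T.exists_closed
    (fun s => Ψ s ∪ ⋃ q ∈ {q | S (dl (T.gen s)) q ≠ 0}, lt q)
    (fun s => (hΨ s).union ((countable_supp _).biUnion fun q _ => (hlt q).1))
    (hA.insert (inr (γ₀, cD))) hB
  refine ⟨A, (Set.subset_insert _ _).trans h1, h4, h2, h3, ⟨_, _, h1 (Set.mem_insert _ _)⟩,
    fun γ j h => ⟨nx γ, hnx γ γ rfl, h5 _ h (Or.inl ?_)⟩, fun γ j h γ' h' => ?_,
    fun s hs q hq => T.Γ_mono (fun s' h => h5 s hs (Or.inr (Set.mem_biUnion hq h))) (hlt q).2⟩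
  · exact Set.mem_biUnion (Set.mem_insert _ _) (Set.mem_insert _ _)
  · have h6 : γ' ∈ insert (nx γ) (Set.Iio (nx γ)) := Or.inr (h'.trans_lt (hnx γ γ rfl))
    exact ⟨h5 _ h (Or.inl (Set.mem_biUnion h6 (Set.mem_insert _ _))),
      fun c => h5 _ h (Or.inl (Set.mem_biUnion h6 (Or.inr ⟨c, rfl⟩)))⟩

theorem Gd.height {A : Set Gen} (h : Gd S T A) : ∃ α, Lim α ∧ A ⊆ low α ∧
    ∀ γ < α, inr (γ, cD) ∈ A ∧ ∀ c, inr (γ, inl c) ∈ A := by
  have h1 : {α | A ⊆ low α}.Nonempty := by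
    obtain ⟨α, hα⟩ := exists_gt_countable (A := {γ | ∃ j, inr (γ, j) ∈ A})
      ((((h.countable.preimage_of_injOn inr_injective.injOn)).image Prod.fst).mono
        (by rintro γ ⟨j, hj⟩; exact ⟨(γ, j), hj, rfl⟩))
    refine ⟨α, ?_⟩
    rintro (s | ⟨γ, j⟩) hs
    · trivial
    · exact hα γ ⟨j, hs⟩
  obtain ⟨α, h2, h3⟩ := (wellFounded_lt (α := W)).has_min _ h1
  have h4 : ∀ γ < α, inr (γ, cD) ∈ A ∧ ∀ c, inr (γ, inl c) ∈ A := fun γ hγ => by
    obtain ⟨s, hs, h5⟩ := Set.not_subset.1 fun h5 : A ⊆ low γ => h3 γ h5 hγ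
    obtain s | ⟨γ', j⟩ := s
    · exact absurd trivial h5
    · exact h.down γ' j hs γ (not_lt.1 h5)
  obtain ⟨γ₀, j₀, h0⟩ := h.ne
  refine ⟨α, ⟨⟨γ₀, h2 h0⟩, fun γ hγ => ?_⟩, h2, h4⟩
  obtain ⟨γ', h5, h6⟩ := h.up γ _ (h4 γ hγ).1
  exact ⟨γ', h5, h2 h6⟩

theorem Gd.inv' (hS : RT S) {A : Set Gen} (h : Gd S T A) : Inv S (T.Γ A) := by
  intro g hg
  rw [← hS.uu_dl]
  refine H71.InN.supp (T.Γ_induction (p := fun g => H71.InN (T.Γ A) (H71.uu S g)) ?_
    (fun s hs => ?_) (fun g _ h1 => ?_) (fun g _ k _ h1 h2 => ?_) hg)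
  · rw [hS.uu_one]
    exact (mul_one _).trans (one_mul _).symm
  · exact H71.inN_of_supp (hS.uu_mem _) (by rw [hS.uu_dl]; exact h.inv s hs)
  · rw [← hS.star_uu]
    exact h1.star
  · rw [hS.uu_mul]
    exact h1.mul h2

theorem Gd.icc {A : Set Gen} (h : Gd S T A) : Icc (T.Γ A) := by
  obtain ⟨α, h1, h2, h3⟩ := h.height
  exact icc_of h1 (T.Γ_mono h2) fun γ hγ c => T.gen_mem ((h3 γ hγ).2 c)

theorem Gd.innerOn (hS : RT S) {A : Set Gen} (h : Gd S T A) : InnerOn S (T.Γ A) := by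
  obtain ⟨β, h1, h2, h3⟩ := h.height
  have hΓ : T.Γ A ≤ T.Q β := T.Γ_mono h2
  let V : Subgroup G := Subgroup.closure {m | ∃ g ∈ T.Γ A, m = g * T.x β (inl 0) * g⁻¹}
  have hV : ∀ m ∈ V, ∃ f ∈ mainF β, T.pr f = m := by
    refine (Subgroup.closure_le ((mainF β).map T.pr)).2 ?_
    rintro _ ⟨g, hg, rfl⟩
    exact T.exists_main (hΓ hg)
  have hVA : V ≤ T.Ab β := fun m hm => by
    obtain ⟨f, hf, rfl⟩ := hV m hm
    exact (T.pr_mem_Mn hf).1
  have hinf : (T.Γ A : Set G).Infinite := Set.infinite_of_injective_forall_mem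
    (T.d_injective.comp h1.isLad.inj) fun n => T.gen_mem (h3 _ (h1.isLad.lt n)).1
  have := hinf.to_subtype
  let m : ↥(T.Γ A : Set G) → G := fun g => g.1 * T.x β (inl 0) * g.1⁻¹
  have hm : ∀ g, m g ∈ V := fun g => Subgroup.subset_closure ⟨g.1, g.2, rfl⟩
  have hom : ∀ g, T.om β (m g) = Finsupp.single (g.1 • T.base β (inl 0)) 1 := fun g => by
    rw [T.om_conj (hΓ g.2), T.om_x_self, act_single]
  have hp : Function.Injective fun g : ↥(T.Γ A : Set G) => g.1 • T.base β (inl 0) := by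
    intro g g' hg
    have h4 : (g'.1⁻¹ * g.1) • T.base β (inl 0) = T.base β (inl 0) := by
      rw [mul_smul, inv_smul_eq_iff]; exact hg
    exact Subtype.ext (inv_mul_eq_one.1 (T.eq_one_of_mem
      (hΓ (mul_mem (inv_mem g'.2) g.2)) (T.smul_free.1 h4))).symm
  refine hS.innerOn (V := V) ⟨Tw.κ_mem h.closed, fun _ => Tw.κ_fix h.closed⟩ (h.inv' hS) h.icc
    (Subgroup.closure_mono ?_) ?_ (fun a ha b hb => Ab_comm (hVA ha) (hVA hb)) ?_ ?_ ?_
  · rintro _ ⟨s, hs, rfl⟩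
    exact ⟨T.gen_mem hs, T.gen_cube s⟩
  · refine Set.infinite_of_injective_forall_mem (f := m) (fun g g' hg => hp ?_) hm
    have h4 := hom g
    rw [hg, hom] at h4
    exact ((Finsupp.single_left_inj one_ne_zero).1 h4).symm
  · intro g hg
    refine (Subgroup.closure_le (V.comap (MulAut.conj g).toMonoidHom)).2 ?_
    rintro _ ⟨g', hg', rfl⟩
    refine Subgroup.subset_closure ⟨g * g', mul_mem hg hg', ?_⟩
    simp [mul_assoc]
  · intro e he k hk
    refine T.eq_one_of_κ h.closed h2 (by_contra fun h4 => ?_)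
    refine infinite_conj (m := fun g => m g ^ e) (e := (e : ZMod 3)) (k := k) hp
      (fun g => pow_mem (hVA (hm g)).1 e) (by rcases he with rfl | rfl <;> decide) (fun g => ?_)
      (fun g h5 => h4 ?_) (hk.subset ?_)
    · rcases he with rfl | rfl
      · rw [pow_one, hom, Nat.cast_one]
      · rw [pow_two, om_mul_Ab (hVA (hm g)).1 (hVA (hm g)), hom, ← Finsupp.single_add]
        rfl
    · have h6 : (g.1⁻¹ * k * g.1) • T.base β (inl 0) = T.base β (inl 0) := by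
        rw [mul_smul, mul_smul, h5, inv_smul_smul]
      simpa [mul_assoc] using T.conj_mem_Z β _ (T.smul_free.1 h6) g.1
    · rintro _ ⟨g, rfl⟩
      exact ⟨_, hm g, rfl⟩
  · obtain ⟨A', h4, -, h5⟩ := exists_gd S T (h.countable.insert (inr (β, inl 0)))
      Set.countable_empty
    obtain ⟨α, h6, h7, h8⟩ := h5.height
    have hβ : β < α := h7 (h4 (Set.mem_insert _ _))
    have h9 := not_wmix hS h5.closed h5.countable (h5.inv' hS) h6 hβ h7
      (fun γ hγ => T.gen_mem (h8 γ hγ).1) (fun c => T.gen_mem ((h8 β hβ).2 c)) (V := V) (by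
        refine (Subgroup.closure_le _).2 ?_
        rintro _ ⟨g, hg, rfl⟩
        have h10 := T.Γ_mono ((Set.subset_insert _ _).trans h4) hg
        exact mul_mem (mul_mem h10 (T.gen_mem ((h8 β hβ).2 0))) (inv_mem h10)) hV
    unfold WMix at h9
    push Not at h9
    exact h9

theorem Gd.iUnion {A : ℕ → Set Gen} (h : ∀ n, Gd S T (A n)) : Gd S T (⋃ n, A n) := by
  have hs := Set.subset_iUnion A
  refine ⟨Set.countable_iUnion fun n => (h n).countable, ⟨fun s => hs 0 ((h 0).closed.base s),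
    fun γ j hj => ?_⟩, ?_, fun γ j hj => ?_, fun γ j hj γ' h' => ?_, fun s hj q hq => ?_⟩
  · obtain ⟨n, hn⟩ := Set.mem_iUnion.1 hj
    refine ((h n).closed.stab γ j hn).imp_right fun h1 g hg => ?_
    obtain ⟨k, hk, h2⟩ := h1 g hg
    exact ⟨k, T.Γ_mono (hs n) hk, h2⟩
  · obtain ⟨γ, j, h1⟩ := (h 0).ne
    exact ⟨γ, j, hs 0 h1⟩
  · obtain ⟨n, hn⟩ := Set.mem_iUnion.1 hj
    obtain ⟨γ', h1, h2⟩ := (h n).up γ j hn
    exact ⟨γ', h1, hs n h2⟩
  · obtain ⟨n, hn⟩ := Set.mem_iUnion.1 hj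
    obtain ⟨h1, h2⟩ := (h n).down γ j hn γ' h'
    exact ⟨hs n h1, fun c => hs n (h2 c)⟩
  · obtain ⟨n, hn⟩ := Set.mem_iUnion.1 hj
    exact T.Γ_mono (hs n) ((h n).inv s hn q hq)

variable (T) in
include T in
theorem rigid (hS : RT S) :
    ∃ w ∈ LG G, star w * w = 1 ∧ w * star w = 1 ∧ ∀ y ∈ LG G, S * y * S = w * y * star w := by
  have : Nonempty {A // Gd S T A} := by
    obtain ⟨A, -, -, h⟩ := exists_gd S T Set.countable_empty Set.countable_empty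
    exact ⟨⟨A, h⟩⟩
  refine hS.patch (ι := {A // Gd S T A}) (fun A => T.Γ A.1) (fun A B h => T.Γ_mono h)
    (fun B hB A => ?_) (fun f hf => ?_)
    (fun A => ⟨_, Tw.κ_mem A.2.closed, fun _ => Tw.κ_fix A.2.closed⟩) (fun A => A.2.icc)
    (fun A => A.2.inv' hS) fun A => A.2.innerOn hS
  · obtain ⟨A', h1, h2, h3⟩ := exists_gd S T A.2.countable hB
    exact ⟨⟨A', h3⟩, h1, h2⟩
  · refine ⟨⟨⋃ n, (f n).1, Gd.iUnion fun n => (f n).2⟩,
      fun n => Set.subset_iUnion (fun n => (f n).1) n, fun g hg => ?_⟩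
    refine T.Γ_induction (p := fun g => ∃ n, g ∈ T.Γ (f n).1) ⟨0, one_mem _⟩ (fun s hs => ?_)
      (fun g _ ⟨n, hn⟩ => ⟨n, inv_mem hn⟩) (fun g _ k _ ⟨n, hn⟩ ⟨m, hm⟩ => ⟨max n m, mul_mem
        (T.Γ_mono (hf (le_max_left n m)) hn) (T.Γ_mono (hf (le_max_right n m)) hm)⟩) hg
    obtain ⟨n, hn⟩ := Set.mem_iUnion.1 hs
    exact ⟨n, T.gen_mem hn⟩

variable (T) in
include T in
theorem icc_top (k : G) (hk : k ≠ 1) : {q | ∃ g, g⁻¹ * k * g = q}.Infinite := by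
  obtain ⟨γ, h⟩ := T.exists_mem_Q k
  refine (infinite_conj_x h hk).mono ?_
  rintro _ ⟨c, rfl⟩
  exact ⟨_, rfl⟩

theorem exists_lim (γ : W) : ∃ ξ, γ ≤ ξ ∧ Lim ξ := by
  choose nx hnx using fun γ : W => exists_gt_countable (Set.countable_singleton γ)
  let u : ℕ → W := fun n => nx^[n] γ
  have hu : ∀ n, u n < u (n + 1) := fun n => by
    simp only [u, Function.iterate_succ_apply']
    exact hnx _ _ rfl
  obtain ⟨ξ, h1, h2⟩ := (wellFounded_lt (α := W)).has_min {ξ | ∀ n, u n < ξ}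
    ((exists_gt_countable (Set.countable_range u)).imp fun _ h n => h _ ⟨n, rfl⟩)
  refine ⟨ξ, (h1 0).le, ⟨γ, h1 0⟩, fun δ hδ => ?_⟩
  obtain ⟨n, hn⟩ := not_forall.1 fun h : ∀ n, u n < δ => h2 δ h hδ
  exact ⟨u (n + 1), (not_lt.1 hn).trans_lt (hu n), h1 _⟩

/-- Three-cycles of six points. -/
def cyc (i : Fin 4) : {σ : Equiv.Perm (Fin 6) // σ ^ 3 = 1} :=
  ![⟨Equiv.swap 1 5 * Equiv.swap 1 4, by decide⟩, ⟨Equiv.swap 0 1 * Equiv.swap 0 5, by decide⟩,
    ⟨Equiv.swap 1 3 * Equiv.swap 1 2, by decide⟩, ⟨Equiv.swap 0 2 * Equiv.swap 0 1, by decide⟩] i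

theorem cyc_four : ((cyc 0).1 * (cyc 1).1 * ((cyc 2).1 * (cyc 3).1)) ^ 4 = 1 := by
  have h : (cyc 0).1 * (cyc 1).1 * ((cyc 2).1 * (cyc 3).1) =
      Equiv.swap 4 5 * (Equiv.swap 0 1 * (Equiv.swap 0 2 * Equiv.swap 1 3)) := by decide +kernel
  rw [h]
  decide +kernel

variable (T)

/-- The subgroups of the base group. -/
def Lam (n : ℕ) : Subgroup G where
  carrier := {g | (∀ γ, T.om γ g = 0) ∧ ∀ k, n ≤ k → T.b g k = 1}
  one_mem' := ⟨T.om_one, fun k _ => by rw [map_one]; rfl⟩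
  mul_mem' := fun {g h} hg hh => ⟨fun γ => by rw [T.om_mul, hg.1, hh.1, map_zero, add_zero],
    fun k hk => by rw [map_mul, Pi.mul_apply, hg.2 k hk, hh.2 k hk, mul_one]⟩
  inv_mem' := fun {g} hg => ⟨fun γ => by rw [T.om_inv, hg.1, map_zero, neg_zero],
    fun k hk => by rw [map_inv, Pi.inv_apply, hg.2 k hk, inv_one]⟩

/-- Products of two base generators. -/
def bs (n : ℕ) (i j : Fin 4) : G := T.gen (inl (n, cyc i)) * T.gen (inl (n, cyc j))

theorem b_bs (n : ℕ) (i j : Fin 4) :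
    T.b (T.bs n i j) = Pi.mulSingle n ((cyc i).1 * (cyc j).1) := by
  rw [bs, map_mul, PreTw.gen, PreTw.gen, T.b_inl, T.b_inl, Pi.mulSingle_mul]

theorem bs_mem (n : ℕ) (i j : Fin 4) : T.bs n i j ∈ T.Lam (n + 1) :=
  ⟨fun γ => by rw [bs, T.om_mul, PreTw.gen, PreTw.gen, T.om_inl, T.om_inl, map_zero, add_zero],
    fun k hk => by rw [b_bs, Pi.mulSingle_eq_of_ne (Nat.succ_le_iff.1 hk).ne']⟩

theorem Lam_ext {n m : ℕ} {g h : G} (hg : g ∈ T.Lam n) (hh : h ∈ T.Lam m) (hb : T.b g = T.b h) :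
    g = h :=
  T.ext_om hb fun γ => (hg.1 γ).trans (hh.1 γ).symm

theorem Lam_mono : Monotone T.Lam := fun _ _ h _ hg => ⟨hg.1, fun k hk => hg.2 k (h.trans hk)⟩

theorem bs_comm (n : ℕ) (i j : Fin 4) {g : G} (hg : g ∈ T.Lam n) :
    g * T.bs n i j = T.bs n i j * g := by
  have h1 := T.Lam_mono (Nat.le_succ n) hg
  refine T.Lam_ext (mul_mem h1 (T.bs_mem n i j)) (mul_mem (T.bs_mem n i j) h1) (funext fun k => ?_)
  rw [map_mul, map_mul, Pi.mul_apply, Pi.mul_apply, b_bs]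
  by_cases h : k = n
  · rw [hg.2 k h.ge, one_mul, mul_one]
  · rw [Pi.mulSingle_eq_of_ne h, one_mul, mul_one]

/-- The tower data. -/
noncomputable def tdata : TData W G where
  Qs := T.Q
  mono := T.Q_mono
  cover := T.exists_mem_Q
  d := T.d
  d_cube γ := T.gen_cube _
  d_notMem γ h := by
    have h1 := T.δ_of_mem_Q h le_rfl
    rw [T.δ_d, if_pos rfl] at h1
    exact one_ne_zero h1
  d_mem γ γ' h := T.x_mem_Q h _
  d_comm γ g hg := T.d_comm hg
  icc γ := (exists_lim γ).imp fun ξ h => ⟨h.1, icc_of h.2 le_rfl fun _ h' _ => T.x_mem_Q h' _⟩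
  a n := T.bs n 0 1
  b n := T.bs n 2 3
  Λ := T.Lam
  Λ_mono := T.Lam_mono
  Λ_le n γ g hg := T.mem_Q_of_om fun γ' _ => hg.1 γ'
  a_mem n := T.bs_mem n 0 1
  b_mem n := T.bs_mem n 2 3
  a_comm n g hg := T.bs_comm n 0 1 hg
  b_comm n g hg := T.bs_comm n 2 3 hg
  a_sq n := T.Lam_ext (pow_mem (T.bs_mem n 0 1) 2) (one_mem (T.Lam 0)) (by
    rw [map_pow, b_bs, ← Pi.mulSingle_pow, map_one,
      show ((cyc 0).1 * (cyc 1).1) ^ 2 = 1 by decide, Pi.mulSingle_one])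
  b_sq n := T.Lam_ext (pow_mem (T.bs_mem n 2 3) 2) (one_mem (T.Lam 0)) (by
    rw [map_pow, b_bs, ← Pi.mulSingle_pow, map_one,
      show ((cyc 2).1 * (cyc 3).1) ^ 2 = 1 by decide, Pi.mulSingle_one])
  ab_four n := T.Lam_ext (pow_mem (mul_mem (T.bs_mem n 0 1) (T.bs_mem n 2 3)) 4)
    (one_mem (T.Lam 0)) (by
      rw [map_pow, map_mul, b_bs, b_bs, ← Pi.mulSingle_mul, ← Pi.mulSingle_pow, map_one,
        cyc_four,
        Pi.mulSingle_one])
  z_notMem n h := by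
    have h1 := h.2 n le_rfl
    rw [map_pow, map_mul, b_bs, b_bs, ← Pi.mulSingle_mul, ← Pi.mulSingle_pow,
      Pi.mulSingle_eq_same] at h1
    revert h1
    decide

end MT

end Pool.Agent.MP_82452b_an.H8
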