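import Pool.Agent.MP_82452b_an.H8.Marker

/-!
# Stabilisers and centralisers of markers; existence of good assignments
-/

namespace Pool.Agent.MP_82452b_an.H8

open Sum Filter Topology
open FreeGroup (of)
open scoped ENNReal

theorem infinite_stab {G : Type} [Group G] {S : Set G} (hS : S.Infinite) {v : V G}
    (h : ∀ s ∈ S, act s v = v) {p : Pt G} (hp : v p ≠ 0) :
    ∃ s₀ ∈ S, {s | s ∈ S ∧ (s₀⁻¹ * s) • p = p}.Infinite := by
  by_contra h1
  push Not at h1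
  refine hS ((v.support.finite_toSet.biUnion (t := fun q => {s | s ∈ S ∧ s • p = q})
    fun q _ => ?_).subset fun s hs => ?_)
  · rcases Set.eq_empty_or_nonempty {s | s ∈ S ∧ s • p = q} with h2 | ⟨s₀, h2, h3⟩
    · rw [h2]; exact Set.finite_empty
    · refine (h1 s₀ h2).subset fun s hs => ⟨hs.1, ?_⟩
      rw [mul_smul, hs.2, ← h3, inv_smul_smul]
  · refine Set.mem_biUnion (x := s • p) ?_ ⟨hs, rfl⟩
    rw [Finset.mem_coe, Finsupp.mem_support_iff, ← h s hs, act_smul]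
    exact hp

theorem countable_closure {G : Type} [Group G] {S : Set G} (hS : S.Countable) :
    (Subgroup.closure S : Set G).Countable := by
  have := hS.to_subtype
  have h1 := FreeGroup.range_lift_eq_closure (f := (Subtype.val : S → G))
  rw [Subtype.range_coe] at h1
  rw [← h1]
  exact Set.countable_range _

namespace MT

variable {G : Type} [Group G] {T : MT G} {α : W} {τ : Task} {A : Set ℕ}

theorem stab_cases {γ : W} {j : J} {c s : G} (h : s • c • T.base γ j = c • T.base γ j)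
    (hj : j ≠ cD) : s ∈ T.Z γ ∨ ∃ t, j = inr (some t) ∧ Valid γ (T.R γ) (dec t) ∧
      ∃ k ∈ T.Mk γ t, k⁻¹ * (c⁻¹ * s * c) ∈ T.Z γ := by
  have h1 : c⁻¹ * s * c ∈ T.K γ j := by
    rw [← T.smul_base, mul_smul, mul_smul, h, inv_smul_smul]
  have h2 : c⁻¹ * s * c ∈ T.Z γ → s ∈ T.Z γ := fun h3 => by
    simpa [mul_assoc] using T.conj_mem_Z γ _ h3 c
  obtain c' | _ | t := j
  · rw [T.K_free] at h1
    exact Or.inl (h2 h1)
  · exact absurd rfl hj
  · by_cases hv : Valid γ (T.R γ) (dec t)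
    · rw [T.K_valid γ t hv] at h1
      obtain ⟨k, hk, z, hz, h3⟩ := Subgroup.mem_sup_of_normal_right.1 h1
      exact Or.inr ⟨t, rfl, hv, k, hk, by rwa [← h3, inv_mul_cancel_left]⟩
    · rw [T.K_inv γ t hv] at h1
      exact Or.inl (h2 h1)

theorem δ_eq_of_stab {γ γ' : W} {c s k : G} (h : k⁻¹ * (c⁻¹ * s * c) ∈ T.Z γ) (h' : γ' < γ) :
    T.δ γ' k = T.δ γ' s := by
  have h1 := T.δ_of_mem_Z h h'
  simp only [δ_mul, δ_inv] at h1
  linear_combination -h1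

/-- Finiteness of stabilisers, from a bound on the central coefficients. -/
theorem finite_stab_aux {S : Subgroup G} {γ : W} {j : J} (hj : j ≠ cD) (c : G)
    (h1 : ∀ s ∈ S, s ∈ T.Z γ → s = 1)
    (h2 : ∀ t, j = inr (some t) → Valid γ (T.R γ) (dec t) →
      {n | n ∈ AD (asg γ (T.R γ) t) ∧ ∃ s ∈ S, T.δ (lad γ n) s ≠ 0}.Finite) :
    {s | s ∈ S ∧ s • c • T.base γ j = c • T.base γ j}.Finite := by
  by_cases hv : ∃ t, j = inr (some t) ∧ Valid γ (T.R γ) (dec t)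
  · obtain ⟨t, rfl, hv⟩ := hv
    refine (((HQ_finite (T := T) (A := AD (asg γ (T.R γ) t)) hv.toWF (h2 t rfl hv)).biUnion
      (t := fun k => {s | s ∈ S ∧ k⁻¹ * (c⁻¹ * s * c) ∈ T.Z γ}) fun k _ =>
        Set.Subsingleton.finite fun s hs s' hs' => ?_).insert 1).subset fun s hs => ?_
    · refine inv_mul_eq_one.1 (h1 _ (mul_mem (inv_mem hs.1) hs'.1) ?_)
      simpa [mul_assoc] using T.conj_mem_Z γ _ (mul_mem (inv_mem hs.2) hs'.2) c
    · rcases stab_cases hs.2 hj with h3 | ⟨t', h3, -, k, hk, h4⟩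
      · exact Or.inl (h1 s hs.1 h3)
      · obtain rfl : t = t' := by simpa using h3
        refine Or.inr (Set.mem_biUnion (x := k) ⟨hk, fun n hn => ?_⟩ ⟨hs.1, h4⟩)
        obtain ⟨m, hm, h5⟩ := HQ_δ_ne hv.toWF hk hn
        obtain rfl := hv.lim.isLad.inj h5
        exact ⟨hm.1, s, hs.1, by rwa [← δ_eq_of_stab h4 (hv.lim.isLad.lt m)]⟩
  · refine (Set.finite_singleton 1).subset fun s hs => ?_
    rcases stab_cases hs.2 hj with h3 | ⟨t, h3, h4, -⟩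
    · exact h1 s hs.1 h3
    · exact absurd ⟨t, h3, h4⟩ hv

theorem finite_stab_HQ (hw : WF α τ) {γ : W} (hγ : τ.β < γ) {j : J} (hj : j ≠ cD) (c : G)
    (hA : ∀ t, j = inr (some t) → Valid γ (T.R γ) (dec t) → γ = α →
      (AD (asg γ (T.R γ) t) ∩ A).Finite) :
    {s | s ∈ T.HQ α τ A ∧ s • c • T.base γ j = c • T.base γ j}.Finite := by
  refine finite_stab_aux hj c (fun s hs h => HQ_eq_one hw hs (h.2 _ hγ)) fun t ht hv => ?_
  have hl := hv.lim.isLad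
  rcases lt_trichotomy γ α with h | h | h
  · refine (((hw.lim.isLad.fin γ h).image (lad α)).preimage hl.inj.injOn).subset ?_
    rintro n ⟨-, s, hs, h1⟩
    obtain ⟨m, -, h2⟩ := HQ_δ_ne hw hs h1
    exact ⟨m, (h2.trans_lt (hl.lt n)).le, h2⟩
  · refine (hA t ht hv h).subset ?_
    rintro n ⟨hn, s, hs, h1⟩
    obtain ⟨m, hm, h2⟩ := HQ_δ_ne hw hs h1
    subst h
    exact ⟨hn, hl.inj h2 ▸ hm.1⟩
  · refine (hl.fin α h).subset ?_
    rintro n ⟨-, s, hs, h1⟩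
    by_contra h2
    exact h1 (T.δ_of_mem_Q (HQ_le_Q hw hs) (not_le.1 h2).le)

theorem finite_stab_Q {S : Subgroup G} (hS : S ≤ T.Q α) {γ : W} (hγ : α ≤ γ) {j : J} (hj : j ≠ cD)
    (c : G) (hA : ∀ t, j = inr (some t) → Valid γ (T.R γ) (dec t) → γ ≠ α) :
    {s | s ∈ S ∧ s • c • T.base γ j = c • T.base γ j}.Finite := by
  refine finite_stab_aux hj c (fun s hs h => T.eq_one_of_mem (T.Q_mono hγ (hS hs)) h)
    fun t ht hv => (hv.lim.isLad.fin α (lt_of_le_of_ne hγ (hA t ht hv).symm)).subset ?_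
  rintro n ⟨-, s, hs, h1⟩
  by_contra h2
  exact h1 (T.δ_of_mem_Q (hS hs) (not_le.1 h2).le)

theorem eq_conj_of_stab {c s k : G} (hs : s ∈ T.Q α) (hk : k ∈ T.Q α)
    (h : k⁻¹ * (c⁻¹ * s * c) ∈ T.Z α) : s = T.ρ α c * k * (T.ρ α c)⁻¹ := by
  have h1 := T.mem_Z_iff.1 h
  simp only [map_mul, map_inv, T.ρ_fix hs, T.ρ_fix hk] at h1
  rw [inv_mul_eq_one.1 h1]
  group

theorem comm_HQ (hw : WF α τ) {z : G} {S : Set G} (hS : S.Infinite) (hSK : S ⊆ T.HQ α τ A)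
    (hz : ∀ s ∈ S, s * z = z * s)
    (hfix : ∀ γ, τ.β < γ → ∀ p, T.om γ z p ≠ 0 → p.col ≠ cD →
      {s | s ∈ T.HQ α τ A ∧ s • p = p}.Infinite → ∀ k ∈ T.HQ α τ A, k • p = p) :
    ∀ k ∈ T.HQ α τ A, k * z = z * k := by
  have hzZ : z ∈ T.Z τ.β := by
    obtain ⟨s, hs, hs1⟩ := hS.nontrivial.exists_ne 1
    obtain ⟨e, he⟩ := exists_Ex hw (hSK hs)
    have h1 := congrArg (T.om τ.β) (hz s hs)
    rw [T.om_mul, T.om_mul, T.act_om he.ab.1, add_comm, add_right_inj] at h1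
    obtain ⟨n, hn⟩ : ∃ n, e n ≠ 0 := by
      by_contra h2
      push Not at h2
      exact hs1 (he.unique (B := A) ((Finsupp.ext h2 : e = 0) ▸ Ex.one))
    rw [← he.pad hw, ← act_smul z, ← h1] at hn
    exact T.smul_free.1 (he.pad_eq hw rfl hn)
  intro k hk
  refine T.comm_of (HQ_le_Ab hw hk).1.1 (fun γ => ?_) (act_Ab hzZ (HQ_le_Ab hw hk))
  rcases le_or_gt γ τ.β with h | h
  · exact T.act_om (T.Z_anti h (HQ_le_Ab hw hk).1) z
  refine act_eq_self fun p hp => ?_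
  by_cases hc : p.col = cD
  · rw [T.eq_baseD hp hc, T.smul_baseD]
  obtain ⟨s₀, h0, h1⟩ := infinite_stab hS (v := T.om γ z) (fun s hs => by
    have h1 := congrArg (T.om γ) (hz s hs)
    rwa [T.om_mul, T.om_mul, act_Ab hzZ (HQ_le_Ab hw (hSK hs)), add_comm, add_left_inj] at h1) hp
  refine hfix γ h p hp hc ((h1.image (f := fun s => s₀⁻¹ * s)
    (mul_right_injective _).injOn).mono ?_) k hk
  rintro _ ⟨s, hs, rfl⟩
  exact ⟨mul_mem (inv_mem (hSK h0)) (hSK hs.1), hs.2⟩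

theorem comm_HQ_low (hw : WF α τ) {z : G} (hzQ : z ∈ T.Q α) {S : Set G} (hS : S.Infinite)
    (hSK : S ⊆ T.HQ α τ A) (hz : ∀ s ∈ S, s * z = z * s) : ∀ k ∈ T.HQ α τ A, k * z = z * k := by
  refine comm_HQ hw hS hSK hz fun γ hγ p hp hc hinf => absurd hinf (Set.not_infinite.2 ?_)
  obtain ⟨c, h1⟩ := T.supp_orbit hp
  rw [h1]
  refine finite_stab_HQ hw hγ hc c fun t _ _ h => absurd ?_ hp
  rw [T.om_of_mem_Q hzQ h.ge]; rfl

theorem comm_Mk {t : TT} (hv : Valid α (T.R α) (dec t)) (hg : Good α (T.R α) (asg α (T.R α)))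
    {z : G} {S : Set G} (hS : S.Infinite) (hSK : S ⊆ T.Mk α t) (hz : ∀ s ∈ S, s * z = z * s) :
    ∀ k ∈ T.Mk α t, k * z = z * k := by
  refine comm_HQ hv.toWF hS hSK hz fun γ hγ p hp hc hinf k hk => ?_
  obtain ⟨c, h1⟩ := T.supp_orbit hp
  by_cases h2 : γ = α ∧ p.col = inr (some t)
  · obtain ⟨rfl, h2⟩ := h2
    rw [h2] at h1
    subst h1
    have h3 := comm_HQ_low hv.toWF (T.ρ_mem γ c) hinf (fun s hs => hs.1) (fun s hs => by
      rcases stab_cases hs.2 (by simp) with h4 | ⟨t', h4, -, k, hk, h5⟩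
      · rw [HQ_eq_one hv.toWF hs.1 (h4.2 _ hγ), one_mul, mul_one]
      · obtain rfl : t = t' := by simpa using h4
        have h6 := eq_conj_of_stab (HQ_le_Q hv.toWF hs.1) (HQ_le_Q hv.toWF hk) h5
        have h7 : k = s := HQ_δ_inj hv.toWF hk hs.1 fun n => by rw [h6, δ_conj]
        rw [h7] at h6
        exact (eq_mul_inv_iff_mul_eq.1 h6)) k hk
    rw [← mul_inv_cancel_left (T.ρ γ c) c, mul_smul, T.smul_base.2 (T.Z_le_K γ _ (T.ρ_inv_mul γ c)),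
      ← mul_smul, h3, mul_smul, T.smul_base.2]
    rw [T.K_valid γ t hv]
    exact Subgroup.mem_sup_left hk
  · refine absurd hinf (Set.not_infinite.2 ?_)
    rw [h1]
    refine finite_stab_HQ hv.toWF hγ hc c fun t' h3 _ h => ?_
    subst h
    exact AD_inter (hg.2 t' t fun h4 => h2 ⟨rfl, h4 ▸ h3⟩).1

variable (T)

theorem exists_letters : ∃ lt : G → Set Gen, ∀ g, (lt g).Countable ∧ g ∈ T.Γ (lt g) := by
  choose lt _ h2 h3 using fun g => T.exists_finite_Γ (T.mem_Γ_univ g)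
  exact ⟨lt, fun g => ⟨(h2 g).countable, h3 g⟩⟩

theorem exists_closed (Φ : Gen → Set Gen) (hΦ : ∀ s, (Φ s).Countable) {A₀ : Set Gen}
    (hA : A₀.Countable) {B : Set G} (hB : B.Countable) :
    ∃ A, A₀ ⊆ A ∧ A.Countable ∧ T.Closed A ∧ B ⊆ T.Γ A ∧ (∀ s ∈ A, Φ s ⊆ A) ∧
      ∀ γ t, inr (γ, inr (some t)) ∈ A → T.Mk γ t ≤ T.Γ A := by
  obtain ⟨lt, hlt⟩ := T.exists_letters
  let Ψ : Gen → Set Gen := fun s => match s with
    | inr (γ, inr (some t)) => ⋃ n, lt (T.h γ (dec t) n)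
    | _ => ∅
  have hΨ : ∀ s, (Ψ s).Countable := by
    rintro (s | ⟨γ, c | _ | t⟩)
    · exact Set.countable_empty
    · exact Set.countable_empty
    · exact Set.countable_empty
    · exact Set.countable_iUnion fun n => (hlt _).1
  obtain ⟨A, h1, h2, h3⟩ := exists_countable_closed (fun s => Φ s ∪ Ψ s)
    (fun s => (hΦ s).union (hΨ s))
    ((hA.union (Set.countable_range inl)).union (hB.biUnion fun g _ => (hlt g).1))
  have h4 : ∀ γ t, inr (γ, inr (some t)) ∈ A → T.Mk γ t ≤ T.Γ A := fun γ t h => by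
    rw [Tw.Mk, HQ_eq, Subgroup.closure_le]
    rintro _ ⟨n, -, rfl⟩
    exact T.Γ_mono (fun s hs => h3 _ h (Or.inr (Set.mem_iUnion.2 ⟨n, hs⟩))) (hlt _).2
  refine ⟨A, fun s hs => h1 (Or.inl (Or.inl hs)), h2, ⟨fun s => h1 (Or.inl (Or.inr ⟨s, rfl⟩)), ?_⟩,
    fun g hg => T.Γ_mono (fun s hs => h1 (Or.inr (Set.mem_biUnion hg hs))) (hlt g).2,
    fun s hs => Set.subset_union_left.trans (h3 s hs), h4⟩
  rintro γ (c | _ | t) h
  · exact Or.inr fun g hg => ⟨1, one_mem _, by rwa [inv_one, one_mul, ← T.K_free]⟩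
  · exact Or.inl (T.K_top γ)
  · refine Or.inr fun g hg => ?_
    by_cases hv : Valid γ (T.R γ) (dec t)
    · rw [T.K_valid γ t hv] at hg
      obtain ⟨k, hk, z, hz, rfl⟩ := Subgroup.mem_sup_of_normal_right.1 hg
      exact ⟨k, h4 γ t h hk, by rwa [inv_mul_cancel_left]⟩
    · exact ⟨1, one_mem _, by rwa [inv_one, one_mul, ← T.K_inv γ t hv]⟩

theorem countable_Γ {A : Set Gen} (hA : A.Countable) : (T.Γ A : Set G).Countable :=
  countable_closure (hA.image _)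

variable {T}

theorem DC_inter {τ' : Task} (hv : Valid α (T.R α) τ) (hw : WF α τ') {x x' : TT} (hx : x ≠ x')
    (E E' : Finset F) :
    (DC (T.R α) τ (HF α τ' (AD x)) E ∩ DC (T.R α) τ (HF α τ' (AD x')) E').Finite := by
  have hN : ∀ a b a' b' : F, (AD x ∩ AD x' ∪ lad α ⁻¹'
      {γ | T.δ γ (T.pr (a * b * (a' * b')⁻¹)) ≠ 0}).Finite := fun a b a' b' =>
    (AD_inter hx).union ((T.finite_δ _).preimage hw.lim.isLad.inj.injOn)
  refine (E.finite_toSet.biUnion fun a _ => E.finite_toSet.biUnion fun b _ =>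
    E'.finite_toSet.biUnion fun a' _ => E'.finite_toSet.biUnion fun b' _ =>
    (HQ_finite (T := T) (A := AD x) hw (hN a b a' b')).biUnion
      (t := fun h => {k | (T.pr (τ.g k))⁻¹ * (T.pr a * h * T.pr b) ∈ T.Z α}) fun h _ =>
        Set.Subsingleton.finite fun k hk k' hk' => hv.ginj k k' ?_).subset ?_
  · have := (T.Z α).mul_mem hk ((T.Z α).inv_mem hk')
    show T.pr _ ∈ T.Z α
    simpa [mul_assoc] using this
  · rintro k ⟨⟨a, ha, b, hb, h, hh, h1⟩, a', ha', b', hb', h', hh', h2⟩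
    simp only [Set.mem_iUnion]
    refine ⟨a, ha, b, hb, a', ha', b', hb', T.pr h, ⟨Subgroup.mem_map_of_mem _ hh, fun n hn => ?_⟩,
      by simpa [Tw.R] using h1⟩
    have h3 := T.δ_of_mem_Z h1 (hw.lim.isLad.lt n)
    have h4 := T.δ_of_mem_Z h2 (hw.lim.isLad.lt n)
    simp only [map_mul, map_inv, δ_mul, δ_inv] at h3 h4
    by_cases h5 : T.δ (lad α n) (T.pr h') = 0
    · refine Or.inr fun h6 => hn ?_
      simp only [map_mul, map_inv, δ_mul, δ_inv] at h6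
      linear_combination h3 - h4 + h5 - h6
    · obtain ⟨m, hm, h6⟩ := HQ_δ_ne hw (Subgroup.mem_map_of_mem _ hh) hn
      obtain ⟨m', hm', h7⟩ := HQ_δ_ne hw (Subgroup.mem_map_of_mem _ hh') h5
      exact Or.inl ⟨hw.lim.isLad.inj h6 ▸ hm.1, hw.lim.isLad.inj h7 ▸ hm'.1⟩

theorem countable_Emb {τ' : Task} (hv : Valid α (T.R α) τ) (hw : WF α τ') {I : Set ℕ}
    (hI : I.Infinite) : {x | Emb (T.R α) τ I (HF α τ' (AD x))}.Countable :=
  countable_emb τ.w hv.tot hv.null _ (fun _ _ hx => DC_inter hv hw hx) hI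

theorem mem_Idx {τ' : Task} (hw : WF α τ') (c : F) (i : ℕ) :
    i ∈ Idx (T.R α) τ c (HF α τ' A) ↔ ∃ h ∈ T.HQ α τ' A,
      T.ρ α (T.pr (τ.g i)) = T.ρ α (T.pr c) * h * (T.ρ α (T.pr c))⁻¹ := by
  have key : ∀ h ∈ HF α τ' A, (τ.g i)⁻¹ * (c * h * c⁻¹) ∈ T.R α ↔
      T.ρ α (T.pr (τ.g i)) = T.ρ α (T.pr c) * T.pr h * (T.ρ α (T.pr c))⁻¹ := fun h hh => by
    rw [Tw.R, Set.mem_ofPred_eq, T.mem_Z_iff]
    simp only [map_mul, map_inv, T.ρ_fix (HQ_le_Q hw (Subgroup.mem_map_of_mem _ hh)),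
      inv_mul_eq_one]
  exact ⟨fun ⟨h, hh, h1⟩ => ⟨_, Subgroup.mem_map_of_mem _ hh, (key h hh).1 h1⟩,
    fun ⟨_, ⟨h, hh, rfl⟩, h1⟩ => ⟨h, hh, (key h hh).2 h1⟩⟩

theorem countable_Idx {τ' : Task} (hv : Valid α (T.R α) τ) (hw : WF α τ') :
    {I | I.Infinite ∧ ∃ c, I = Idx (T.R α) τ c (HF α τ' A)}.Countable := by
  obtain ⟨B, -, hB, hc, h1, -⟩ := T.exists_closed (fun _ => ∅) (fun _ => Set.countable_empty)
    Set.countable_empty ((Set.countable_range fun i => T.ρ α (T.pr (τ.g i))).union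
      (Set.countable_range (T.h α τ')))
  have hH : T.HQ α τ' A ≤ T.Γ B := by
    rw [HQ_eq, Subgroup.closure_le]
    rintro _ ⟨n, -, rfl⟩
    exact h1 (Or.inr ⟨n, rfl⟩)
  refine ((T.countable_Γ hB).image fun c =>
    {i | ∃ h ∈ T.HQ α τ' A, T.ρ α (T.pr (τ.g i)) = c * h * c⁻¹}).mono ?_
  rintro _ ⟨hI, c, rfl⟩
  set c₀ := T.ρ α (T.pr c) with hc₀
  have hc1 : c₀ ∈ T.Q α := T.ρ_mem α _
  refine ⟨T.κ hc c₀, Tw.κ_mem hc _, ?_⟩
  have h2 : {h | h ∈ T.HQ α τ' A ∧ c₀ * h * c₀⁻¹ ∈ T.Γ B}.Infinite := by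
    intro hfin
    refine hI ((hfin.biUnion (t := fun h => {i | T.ρ α (T.pr (τ.g i)) = c₀ * h * c₀⁻¹})
      fun h _ => Set.Subsingleton.finite fun i hi k hk => hv.ginj i k ?_).subset fun i hi => ?_)
    · rw [Tw.R, Set.mem_ofPred_eq, T.mem_Z_iff]
      simp only [map_mul, map_inv, inv_mul_eq_one]
      exact hi.trans hk.symm
    · obtain ⟨h, hh, h3⟩ := (mem_Idx hw c i).1 hi
      exact Set.mem_biUnion (x := h) ⟨hh, h3 ▸ h1 (Or.inl ⟨i, rfl⟩)⟩ h3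
  have h3 := comm_HQ_low hw (mul_mem (inv_mem (Tw.κ_mem_Γ hc hc1)) hc1) h2 (fun s hs => hs.1)
    fun s hs => by
      have h4 := Tw.κ_fix hc hs.2
      rw [map_mul, map_mul, map_inv, Tw.κ_fix hc (hH hs.1)] at h4
      calc s * ((T.κ hc c₀)⁻¹ * c₀)
          = (T.κ hc c₀)⁻¹ * (T.κ hc c₀ * s * (T.κ hc c₀)⁻¹) * c₀ := by group
        _ = _ := by rw [h4]; group
  have h4 : ∀ h ∈ T.HQ α τ' A, T.κ hc c₀ * h * (T.κ hc c₀)⁻¹ = c₀ * h * c₀⁻¹ := fun h hh => by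
    calc T.κ hc c₀ * h * (T.κ hc c₀)⁻¹
        = T.κ hc c₀ * (h * ((T.κ hc c₀)⁻¹ * c₀)) * c₀⁻¹ := by group
      _ = _ := by rw [h3 h hh]; group
  ext i
  rw [mem_Idx hw]
  exact ⟨fun ⟨h, hh, h5⟩ => ⟨h, hh, h5.trans (h4 h hh)⟩,
    fun ⟨h, hh, h5⟩ => ⟨h, hh, h5.trans (h4 h hh).symm⟩⟩

variable (T) in
theorem good (α : W) : Good α (T.R α) (asg α (T.R α)) := by
  refine good_asg (exists_assignment (fun t x => Bad α (T.R α) (dec t) x)
    (fun t x t' x' => Conf α (T.R α) (dec t) x (dec t') x') (fun t => ?_) (fun t x t' => ?_)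
    fun t t' x' => ?_)
  · by_cases hv : Valid α (T.R α) (dec t)
    · refine (Set.countable_iUnion fun N => Set.countable_iUnion
        fun h : (Tl α (T.R α) (dec t) N).Infinite => countable_Emb hv hv.toWF h).mono ?_
      rintro x ⟨-, N, h1, h2⟩
      exact Set.mem_iUnion.2 ⟨N, Set.mem_iUnion.2 ⟨h1, h2⟩⟩
    · exact Set.countable_empty.mono fun x hx => hv hx.1
  · rcases Set.eq_empty_or_nonempty {x' | Conf α (T.R α) (dec t) x (dec t') x'} with h | ⟨y, hy⟩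
    · rw [h]; exact Set.countable_empty
    · exact (countable_Emb hy.1 hy.2.1.toWF hy.2.2.2.1).mono fun x' hx' => hx'.2.2.2.2
  · rcases Set.eq_empty_or_nonempty {x | Conf α (T.R α) (dec t) x (dec t') x'} with h | ⟨y, hy⟩
    · rw [h]; exact Set.countable_empty
    · refine ((countable_Idx (A := AD x') hy.1 hy.2.1.toWF).biUnion fun I hI =>
        countable_Emb hy.1 hy.1.toWF hI.1).mono ?_
      rintro x ⟨-, -, ⟨c, h1, h2⟩, -⟩
      exact Set.mem_iUnion₂.2 ⟨_, ⟨h1, c, rfl⟩, h2⟩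

end MT

end Pool.Agent.MP_82452b_an.H8
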