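import Mathlib

/-!
# II₁ factors in standard form, tracial ultrapowers and index 2 subfactors

A II₁ factor `M` with trace `τ` is taken in its standard form: it acts on `H = L²(M, τ)`, with the
cyclic trace vector `Ω` (the image of `1`).
-/

namespace Pool.Agent.MP_82452b_an.Stmt

open Filter Topology
open scoped ComplexOrder InnerProductSpace

variable {H : Type} [NormedAddCommGroup H] [InnerProductSpace ℂ H] [CompleteSpace H]

/-- The restriction of `τ` to `N` is a faithful normal tracial state. Normality is continuity on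
the unit ball of `N` for the weak operator topology. -/
structure IsTrace (N : VonNeumannAlgebra H) (τ : (H →L[ℂ] H) → ℂ) : Prop where
  add : ∀ x ∈ N, ∀ y ∈ N, τ (x + y) = τ x + τ y
  smul : ∀ c : ℂ, ∀ x ∈ N, τ (c • x) = c * τ x
  unital : τ 1 = 1
  positive : ∀ x ∈ N, x.IsPositive → 0 ≤ τ x
  tracial : ∀ x ∈ N, ∀ y ∈ N, τ (x * y) = τ (y * x)
  faithful : ∀ x ∈ N, τ (star x * x) = 0 → x = 0
  normal : ∀ (l : Filter (H →L[ℂ] H)), ∀ x ∈ N, (∀ᶠ y in l, y ∈ N ∧ ‖y‖ ≤ 1) →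
    (∀ ξ η : H, Tendsto (fun y : H →L[ℂ] H => ⟪ξ, y η⟫_ℂ) l (𝓝 ⟪ξ, x η⟫_ℂ)) →
    Tendsto τ l (𝓝 (τ x))

/-- `N` has trivial centre. -/
def IsFactor (N : VonNeumannAlgebra H) : Prop :=
  ∀ z ∈ N, (∀ x ∈ N, z * x = x * z) → ∃ c : ℂ, z = c • (1 : H →L[ℂ] H)

/-- `M` is a II₁ factor acting on `H = L²(M, τ)`: an infinite-dimensional factor on which
`τ = ⟪Ω, · Ω⟫` is a faithful normal tracial state, with `MΩ` dense in `H`. -/
structure IsStdII1 (M : VonNeumannAlgebra H) (Ω : H) : Prop where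
  trace : IsTrace M (fun x => ⟪Ω, x Ω⟫_ℂ)
  factor : IsFactor M
  infinite : ¬ FiniteDimensional ℂ M.toStarSubalgebra
  cyclic : Dense {ξ | ∃ x ∈ M, x Ω = ξ}

/-- The orthogonal projection `[Pξ]` onto the closure of `Pξ`. -/
noncomputable def cycProj (P : VonNeumannAlgebra H) (ξ : H) : H →L[ℂ] H :=
  (Submodule.span ℂ {η | ∃ x ∈ P, x ξ = η}).topologicalClosure.starProjection

/-- `P` is an index 2 subfactor of `M` acting on `H = L²(M, τ)`: `P ⊆ M` is a factor, its commutant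
`P'` is finite with normalised trace `tr`, and the Murray-von Neumann coupling constant
`τ([P'Ω]) / tr([PΩ])` of the `P`-module `H` is `2`. -/
structure IndexTwo (P M : VonNeumannAlgebra H) (Ω : H) : Prop where
  le : ∀ x ∈ P, x ∈ M
  factor : IsFactor P
  coupling : ∃ tr : (H →L[ℂ] H) → ℂ, IsTrace P.commutant tr ∧
    ⟪Ω, cycProj P.commutant Ω Ω⟫_ℂ = 2 * tr (cycProj P Ω)

/-- `x` belongs to `ℓ^∞(ℕ, M)`. -/
def IsBdd (M : VonNeumannAlgebra H) (x : ℕ → (H →L[ℂ] H)) : Prop :=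
  (∀ i, x i ∈ M) ∧ ∃ C : ℝ, ∀ i, ‖x i‖ ≤ C

variable {K : Type} [NormedAddCommGroup K] [InnerProductSpace ℂ K] [CompleteSpace K]

/-- `L`, a II₁ factor acting on `K = L²(L)` with trace vector `Ψ`, is the tracial ultrapower `M^U`:
the restriction of `π` to `ℓ^∞(ℕ, M)` is a ⋆-homomorphism onto `L` with
`τ_L(π x) = lim_U τ(x_i)`. (As `τ_L` is faithful, its kernel is `{x : lim_U τ(x_i⋆ x_i) = 0}`.) -/
structure IsUltrapower (M : VonNeumannAlgebra H) (Ω : H) (U : Ultrafilter ℕ)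
    (L : VonNeumannAlgebra K) (Ψ : K) (π : (ℕ → (H →L[ℂ] H)) → (K →L[ℂ] K)) : Prop where
  std : IsStdII1 L Ψ
  add : ∀ x y, IsBdd M x → IsBdd M y → π (fun i => x i + y i) = π x + π y
  mul : ∀ x y, IsBdd M x → IsBdd M y → π (fun i => x i * y i) = π x * π y
  smul : ∀ (c : ℂ) x, IsBdd M x → π (fun i => c • x i) = c • π x
  star : ∀ x, IsBdd M x → π (fun i => star (x i)) = star (π x)
  onto : ∀ y, y ∈ L ↔ ∃ x, IsBdd M x ∧ π x = y
  trace : ∀ x, IsBdd M x → Tendsto (fun i => ⟪Ω, x i Ω⟫_ℂ) U (𝓝 ⟪Ψ, π x Ψ⟫_ℂ)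

end Pool.Agent.MP_82452b_an.Stmt
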