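import Pool.Agent.MP_82452b_an.H8.Retr
import Pool.Agent.MP_82452b_an.H8.Choice

/-!
# Tasks, markers and the marked tower
-/

namespace Pool.Agent.MP_82452b_an.H8

open Sum Filter Topology Cardinal
open FreeGroup (of)
open scoped ENNReal

/-- A guess for the restriction of an automorphism to a countable subgroup, together with a
sequence to be marked. -/
structure Task where
  β : W
  m : ℕ → F
  c : ℕ → ℕ
  g : ℕ → F
  w : ℕ → ℕ → ℝ≥0∞

theorem exists_dec : ∃ dec : TT → Task, Function.Surjective dec := by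
  have hW : #W ≤ 𝔠 := mk_W ▸ aleph_one_le_continuum
  have hJ : #J ≤ 𝔠 := by
    simp [add_one_eq aleph0_le_continuum]
  have hG : #Gen ≤ 𝔠 := by
    rw [mk_sum, lift_id, lift_id, mk_prod W J, lift_id, lift_id]
    refine (add_le_add (mk_le_aleph0.trans aleph0_le_continuum) (mul_le_mul' hW hJ)).trans ?_
    simp
  have hF : #F ≤ 𝔠 := by
    have : Nonempty Gen := ⟨inl (0, ⟨1, one_pow 3⟩)⟩
    rw [mk_freeGroup]
    exact max_le hG aleph0_le_continuum
  have hE : #ℝ≥0∞ ≤ 𝔠 := by
    have h1 : #NNReal ≤ 𝔠 := (mk_subtype_le _).trans mk_real.le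
    have h2 : #ℝ≥0∞ = #NNReal + 1 := mk_option
    rw [h2]
    refine (add_le_add h1 (one_le_aleph0.trans aleph0_le_continuum)).trans ?_
    simp
  have hp : ∀ X : Type, #X ≤ 𝔠 → #(ℕ → X) ≤ 𝔠 := fun X hX => by
    rw [mk_pi, prod_const, lift_id, lift_id, mk_nat]
    exact (power_le_power_right hX).trans continuum_power_aleph0.le
  have hm : ∀ X Y : Type, #X ≤ 𝔠 → #Y ≤ 𝔠 → #(X × Y) ≤ 𝔠 := fun X Y hX hY => by
    rw [mk_prod, lift_id, lift_id]
    exact (mul_le_mul' hX hY).trans continuum_mul_self.le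
  have hT : #Task ≤ #TT := by
    rw [mk_TT]
    refine (mk_le_of_injective (f := fun τ : Task => (τ.β, τ.m, τ.c, τ.g, τ.w)) ?_).trans
      (hm _ _ hW (hm _ _ (hp _ hF) (hm _ _ (hp _ (mk_nat.le.trans aleph0_le_continuum)) (hm _ _ (hp _ hF)
        (hp _ (hp _ hE))))))
    rintro ⟨_, _, _, _, _⟩ ⟨_, _, _, _, _⟩ h
    simp only [Prod.mk.injEq] at h
    obtain ⟨rfl, rfl, rfl, rfl, rfl⟩ := h
    rfl
  obtain ⟨e⟩ := (le_def _ _).1 hT
  have : Nonempty W := inferInstance
  have : Nonempty Task := ⟨⟨Classical.arbitrary W, 1, 0, 1, 0⟩⟩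
  exact ⟨_, Function.invFun_surjective e.injective⟩

/-- An enumeration of the tasks. -/
noncomputable def dec : TT → Task := exists_dec.choose

theorem dec_surj : Function.Surjective dec := exists_dec.choose_spec

/-- The words in the lamps of the main column. -/
def mainF (β : W) : Subgroup F := Subgroup.closure
  {f | ∃ c ∈ Subgroup.closure (of '' low β), f = c * of (inr (β, inl 0)) * c⁻¹}

/-- The generators of the markers. -/
noncomputable def hF (α : W) (τ : Task) (n : ℕ) : F :=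
  τ.m n * of (inr (τ.β, inl (τ.c n + 1))) * of (inr (lad α n, cD))

/-- The index set of a marker. -/
def AI (α : W) (τ : Task) (A : Set ℕ) : Set ℕ := {n | n ∈ A ∧ τ.β < lad α n}

/-- The markers. -/
def HF (α : W) (τ : Task) (A : Set ℕ) : Subgroup F := Subgroup.closure (hF α τ '' AI α τ A)

/-- Well-formed tasks. -/
structure WF (α : W) (τ : Task) : Prop where
  lim : Lim α
  lt : τ.β < α
  main : ∀ n, τ.m n ∈ mainF τ.β
  inj : Function.Injective τ.c

/-- Valid tasks. -/
structure Valid (α : W) (R : Set F) (τ : Task) : Prop extends WF α τ where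
  ginj : ∀ k k', (τ.g k)⁻¹ * τ.g k' ∈ R → k = k'
  tot : ∀ i, ∑' k, τ.w i k ≤ 1
  null : ∀ k, Tendsto (fun i => τ.w i k) atTop (𝓝 0)

/-- The indices in a finite union of translates of `H`. -/
def DC (R : Set F) (τ : Task) (H : Subgroup F) (E : Finset F) : Set ℕ :=
  {k | ∃ a ∈ E, ∃ b ∈ E, ∃ h ∈ H, (τ.g k)⁻¹ * (a * h * b) ∈ R}

/-- The elements with index in `I` have mass bounded below on translates of `H`. -/
def Emb (R : Set F) (τ : Task) (I : Set ℕ) (H : Subgroup F) : Prop :=
  ∃ (E : Finset F) (δ : ℝ≥0∞), 0 < δ ∧ ∀ i ∈ I, δ ≤ mass (τ.w i) (DC R τ H E)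

/-- The indices in a conjugate of `H`. -/
def Idx (R : Set F) (τ : Task) (c : F) (H : Subgroup F) : Set ℕ :=
  {i | ∃ h ∈ H, (τ.g i)⁻¹ * (c * h * c⁻¹) ∈ R}

/-- The indices of a tail of the ladder. -/
def Tl (α : W) (R : Set F) (τ : Task) (N : ℕ) : Set ℕ :=
  {i | ∃ n, N ≤ n ∧ (τ.g i)⁻¹ * of (inr (lad α n, cD)) ∈ R}

/-- Forbidden choices. -/
def Bad (α : W) (R : Set F) (τ : Task) (x : TT) : Prop :=
  Valid α R τ ∧ ∃ N, (Tl α R τ N).Infinite ∧ Emb R τ (Tl α R τ N) (HF α τ (AD x))

/-- Conflicting choices. -/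
def Conf (α : W) (R : Set F) (τ : Task) (x : TT) (τ' : Task) (x' : TT) : Prop :=
  Valid α R τ ∧ Valid α R τ' ∧
    (∃ c, (Idx R τ c (HF α τ' (AD x'))).Infinite ∧
      Emb R τ (Idx R τ c (HF α τ' (AD x'))) (HF α τ (AD x))) ∧
    (Idx R τ 1 (HF α τ (AD x))).Infinite ∧ Emb R τ (Idx R τ 1 (HF α τ (AD x))) (HF α τ' (AD x'))

/-- Good assignments. -/
def Good (α : W) (R : Set F) (f : TT → TT) : Prop :=
  (∀ t, ¬ Bad α R (dec t) (f t)) ∧
    ∀ t t', t ≠ t' → f t ≠ f t' ∧ ¬ Conf α R (dec t) (f t) (dec t') (f t')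

open Classical in
/-- The chosen assignment. -/
noncomputable def asg (α : W) (R : Set F) : TT → TT :=
  if h : ∃ f, Good α R f then h.choose else id

theorem good_asg {α : W} {R : Set F} (h : ∃ f, Good α R f) : Good α R (asg α R) := by
  rw [asg, dif_pos h]
  exact h.choose_spec

open Classical in
/-- The stabilisers at a level. -/
noncomputable def Step (α : W) (R : Set F) : J → Subgroup F
  | inl _ => Subgroup.closure R
  | inr none => ⊤
  | inr (some t) => if Valid α R (dec t) then HF α (dec t) (AD (asg α R t)) ⊔ Subgroup.closure R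
      else Subgroup.closure R

namespace Tw

variable {G : Type} [Group G] (T : Tw G)

/-- The words which are trivial below a level. -/
def R (α : W) : Set F := {f | T.pr f ∈ T.Z α}

/-- The markers in the group. -/
def HQ (α : W) (τ : Task) (A : Set ℕ) : Subgroup G := (HF α τ A).map T.pr

/-- The marker of a column. -/
noncomputable def Mk (α : W) (t : TT) : Subgroup G := T.HQ α (dec t) (AD (asg α (T.R α) t))

end Tw

/-- The marked tower. -/
structure MT (G : Type) [Group G] extends Tw G where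
  K_free : ∀ α c, K α (inl c) = toTw.Z α
  K_top : ∀ α, K α cD = ⊤
  K_valid : ∀ α t, Valid α (toTw.R α) (dec t) → K α (inr (some t)) = toTw.Mk α t ⊔ toTw.Z α
  K_inv : ∀ α t, ¬ Valid α (toTw.R α) (dec t) → K α (inr (some t)) = toTw.Z α

theorem exists_mt : ∃ (G : Type) (_ : Group G), Nonempty (MT G) := by
  obtain ⟨G, _, T, h⟩ := exists_tw Step fun α R j => by
    obtain c | _ | t := j
    · exact Subgroup.subset_closure
    · exact le_top
    · simp only [Step]
      split_ifs
      · exact le_sup_of_le_right Subgroup.subset_closure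
      · exact Subgroup.subset_closure
  have h1 : ∀ α, (Subgroup.closure ((T.toPreTw.Z α).comap T.pr : Set F)).map T.pr = T.Z α :=
    fun α => by rw [Subgroup.closure_eq, Subgroup.map_comap_eq_self_of_surjective T.surj]
  refine ⟨G, inferInstance, ⟨⟨T, fun α c => (h α _).trans (h1 α), fun α => ?_, fun α t ht => ?_,
    fun α t ht => ?_⟩⟩⟩
  · rw [h]
    exact Subgroup.map_top_of_surjective _ T.surj
  · refine (h α _).trans ((congrArg (Subgroup.map T.pr) (if_pos ht)).trans ?_)
    rw [Subgroup.map_sup, h1]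
    rfl
  · exact (h α _).trans ((congrArg (Subgroup.map T.pr) (if_neg ht)).trans (h1 α))

end Pool.Agent.MP_82452b_an.H8
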