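import Pool.Agent.MP_82452b_an.H8.Contra

/-!
# The main lamps are not weakly mixing
-/

namespace Pool.Agent.MP_82452b_an.H8

open Sum Filter Topology Pool.Agent.MP_755d6b_an.H98
open FreeGroup (of)
open scoped ENNReal

variable {G : Type} [Group G] {S : L2 G →L[ℂ] L2 G}

/-- Weak mixing of the automorphism along `V`. -/
def WMix (S : L2 G →L[ℂ] L2 G) (V : Subgroup G) : Prop :=
  ∀ (z : G) (F : Finset G) (ε : ℝ), 0 < ε → ∃ m ∈ V, ∀ a ∈ F, ∀ b ∈ F, ∀ e : ℕ, e < 3 →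
    ‖S (dl (m * z)) (a * m ^ e * b)‖ < ε

theorem WMix.enn {V : Subgroup G} (h : WMix S V) (z : G) (F : Finset G) {η : ℝ≥0∞} (hη : 0 < η) :
    ∃ m ∈ V, ∀ a ∈ F, ∀ b ∈ F, ∀ e : ℕ, e < 3 → ‖S (dl (m * z)) (a * m ^ e * b)‖ₑ ^ 2 ≤ η := by
  obtain ⟨r, h1, h2⟩ := ENNReal.lt_iff_exists_nnreal_btwn.1 hη
  have h3 : (0 : ℝ) < r := by exact_mod_cast h1
  obtain ⟨m, hm, h4⟩ := h z F (√r) (Real.sqrt_pos.2 h3)
  refine ⟨m, hm, fun a ha b hb e he => le_trans ?_ h2.le⟩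
  rw [← ofReal_norm, ← ENNReal.ofReal_pow (norm_nonneg _), ← ENNReal.ofReal_coe_nnreal]
  refine ENNReal.ofReal_le_ofReal ?_
  rw [← Real.sq_sqrt h3.le]
  exact pow_le_pow_left₀ (norm_nonneg _) (h4 a ha b hb e he).le 2

namespace MT

variable {T : MT G}

theorem eventually_pad (β : W) (q : G) :
    ∀ᶠ c in atTop, T.om β q (T.base β (inl (c + 1))) = 0 := by
  rw [← Nat.cofinite_eq_atTop, eventually_cofinite]
  refine ((T.om β q).support.finite_toSet.preimage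
    (f := fun c : ℕ => T.base β (inl (c + 1))) (Function.Injective.injOn fun c c' h => ?_)).subset
    fun c hc => Finsupp.mem_support_iff.2 hc
  simpa using congrArg Pt.col h

theorem wm_step {V : Subgroup G} (h : WMix S V) {β : W} (hV : V ≤ T.Ab β) (z : G)
    (P Y : Finset G) {ε : ℝ≥0∞} (hε : 0 < ε) (c : ℕ) :
    ∃ m ∈ V, ∃ N, c < N ∧ (z ∈ T.Ab β → ∀ a ∈ P, ∀ b ∈ P, ms (S (dl (m * z)))
      {q | (∃ y ∈ Y, ∃ e < 3, a⁻¹ * q * b⁻¹ = y * (m * z) ^ e) ∨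
        ∃ c', N ≤ c' ∧ T.om β (a⁻¹ * q * b⁻¹) (T.base β (inl (c' + 1))) ≠ 0} ≤ ε) := by
  classical
  have hε2 : ε / 2 ≠ 0 := (ENNReal.half_pos hε.ne').ne'
  obtain ⟨η, hη, h1⟩ := ENNReal.exists_pos_mul_lt
    (a := ((Y ×ˢ Finset.range 3).card : ℝ≥0∞)) (ENNReal.natCast_ne_top _) hε2
  obtain ⟨m, hm, h2⟩ := h.enn z ((P ×ˢ Y).image (fun p => p.1 * p.2) ∪
    (P ×ˢ Finset.range 3).image fun p => z ^ p.2 * p.1) hη
  obtain ⟨E, hE⟩ := exists_ms_compl_le (S (dl (m * z))) (pos_iff_ne_zero.2 hε2)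
  obtain ⟨N, hN⟩ := eventually_atTop.1 ((Finset.eventually_all (E ×ˢ P ×ˢ P)).2
    fun p _ => eventually_pad (T := T) β (p.2.1⁻¹ * p.1 * p.2.2⁻¹))
  refine ⟨m, hm, max N (c + 1), lt_max_of_lt_right (Nat.lt_succ_self c), fun hz a ha b hb => ?_⟩
  have hc : Commute m z := Ab_comm (hV hm) hz
  refine le_trans (ms_mono (D' := {q | ∃ p ∈ Y ×ˢ Finset.range 3,
    q ∈ ({a * p.1 * m ^ p.2 * (z ^ p.2 * b)} : Set G)} ∪ (E : Set G)ᶜ) ?_)
    ((ms_union_le _ _ _).trans ?_)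
  · rintro q (⟨y, hy, e, he, h3⟩ | ⟨c', h3, h4⟩)
    · refine Or.inl ⟨(y, e), Finset.mk_mem_product hy (Finset.mem_range.2 he), ?_⟩
      rw [hc.mul_pow] at h3
      calc q = a * (a⁻¹ * q * b⁻¹) * b := by group
        _ = _ := by rw [h3]; simp only [mul_assoc]
    · exact Or.inr fun hq => h4 (hN c' (le_of_max_le_left h3) (q, a, b)
        (Finset.mk_mem_product hq (Finset.mk_mem_product ha hb)))
  · rw [← ENNReal.add_halves ε]
    refine add_le_add ((ms_biUnion_le _ _ _).trans (le_trans (Finset.sum_le_card_nsmul _ _ η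
      fun p hp => ?_) ?_)) hE
    · rw [ms_singleton]
      obtain ⟨h3, h4⟩ := Finset.mem_product.1 hp
      exact h2 _ (Finset.mem_union_left _ (Finset.mem_image_of_mem _
        (Finset.mk_mem_product ha h3))) _ (Finset.mem_union_right _ (Finset.mem_image_of_mem _
        (Finset.mk_mem_product hb h4))) _ (Finset.mem_range.1 h4)
    · rw [nsmul_eq_mul, mul_comm]
      exact h1.le

theorem Ex.pow {α : W} {τ : Task} {A : Set ℕ} {k : G} {e : ℕ →₀ ZMod 3} (h : T.Ex α τ A k e)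
    (i : ℕ) : T.Ex α τ A (k ^ i) (i • e) := by
  induction i with
  | zero => rw [pow_zero, zero_smul]; exact Ex.one
  | succ i ih => rw [pow_succ, succ_nsmul]; exact ih.mul h

theorem wm_seq {V : Subgroup G} (h : WMix S V) {α β : W} (hl : Lim α) (hβ : β < α)
    (hV : ∀ m ∈ V, ∃ f ∈ mainF β, T.pr f = m) (g : ℕ → F) (w : ℕ → ℕ → ℝ≥0∞) (P : ℕ → Finset G) :
    ∃ τ : Task, τ.β = β ∧ τ.g = g ∧ τ.w = w ∧ WF α τ ∧ (∀ n, T.pr (τ.m n) ∈ V) ∧
      ∀ n, β < lad α n → ∀ a ∈ P n, ∀ b ∈ P n, ms (S (dl (T.h α τ n)))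
        {q | a⁻¹ * q * b⁻¹ ∈ T.HQ α τ Set.univ} ≤ (n : ℝ≥0∞)⁻¹ := by
  classical
  have hV' : V ≤ T.Ab β := fun m hm => by
    obtain ⟨f, hf, rfl⟩ := hV m hm
    exact (T.pr_mem_Mn hf).1
  let z : ℕ → ℕ → G := fun n c => T.x β (inl (c + 1)) * T.d (lad α n)
  choose m hm N hN hms using fun (n : ℕ) (s : ℕ × Finset G) => wm_step h hV' (z n s.1) (P n) s.2
    (ε := (n : ℝ≥0∞)⁻¹) (ENNReal.inv_pos.2 (by simp)) s.1
  let st : ℕ → ℕ × Finset G := fun n => Nat.rec (0, {1}) (fun n s => (N n s,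
    (s.2 ×ˢ Finset.range 3).image fun p => p.1 * (m n s * z n s.1) ^ p.2)) n
  choose mf hmf1 hmf2 using fun n => hV _ (hm n (st n))
  have hc : StrictMono fun n => (st n).1 := strictMono_nat_of_lt_succ fun n => hN n (st n)
  let τ : Task := ⟨β, mf, fun n => (st n).1, g, w⟩
  have hw : WF α τ := ⟨hl, hβ, hmf1, hc.injective⟩
  have hh : ∀ n, T.h α τ n = m n (st n) * z n (st n).1 := fun n => by
    rw [h_eq, mul_assoc, ← hmf2]
  have hY : ∀ n (e : ℕ →₀ ZMod 3), (∀ i, e i ≠ 0 → i < n ∧ i ∈ AI α τ Set.univ) →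
      ∃ y ∈ (st n).2, T.Ex α τ Set.univ y e := by
    intro n
    induction n with
    | zero =>
      intro e he
      have : e = 0 := Finsupp.ext fun i => by_contra fun h0 => Nat.not_lt_zero _ (he i h0).1
      exact ⟨1, Finset.mem_singleton_self 1, this ▸ Ex.one⟩
    | succ n ih =>
      intro e he
      obtain ⟨y, hy, h1⟩ := ih (e.erase n) fun i hi => by
        have h2 : i ≠ n := fun h3 => hi (by rw [h3, Finsupp.erase_same])
        rw [Finsupp.erase_ne h2] at hi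
        exact ⟨lt_of_le_of_ne (Nat.lt_succ_iff.1 (he i hi).1) h2, (he i hi).2⟩
      refine ⟨_, Finset.mem_image_of_mem _ (Finset.mk_mem_product hy
        (Finset.mem_range.2 (ZMod.val_lt (e n)))), ?_⟩
      rw [← hh]
      by_cases h0 : e n = 0
      · have h2 : e.erase n = e := Finsupp.erase_of_notMem_support (by simpa using h0)
        simpa [h0, h2] using h1
      · have h2 := h1.mul ((Ex.gen hw (he n h0).2).pow (e n).val)
        rwa [Finsupp.smul_single, nsmul_eq_mul, mul_one, ZMod.natCast_zmod_val,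
          Finsupp.erase_add_single] at h2
  refine ⟨τ, rfl, rfl, rfl, hw, fun n => (hmf2 n).symm ▸ hm n (st n), fun n hn a ha b hb => ?_⟩
  rw [hh]
  refine le_trans (ms_mono fun q hq => ?_)
    (hms n (st n) (mul_mem (T.x_mem_Ab _ _) (T.d_mem_Ab hn.le)) a ha b hb)
  obtain ⟨e, he⟩ := exists_Ex hw hq
  by_cases h1 : ∀ i, e i ≠ 0 → i < n + 1
  · obtain ⟨y, hy, h2⟩ := hY (n + 1) e fun i hi => ⟨h1 i hi, he.supp i hi⟩
    obtain ⟨p, hp, rfl⟩ := Finset.mem_image.1 hy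
    obtain ⟨h3, h4⟩ := Finset.mem_product.1 hp
    exact Or.inl ⟨p.1, h3, p.2, Finset.mem_range.1 h4, he.unique h2⟩
  · push Not at h1
    obtain ⟨i, hi, h2⟩ := h1
    exact Or.inr ⟨(st i).1, hc.monotone h2, by rwa [← he.pad hw] at hi⟩

theorem not_wmix (hS : RT S) {A : Set Gen} (hA : T.Closed A) (hcount : A.Countable)
    (hinv : Inv S (T.Γ A)) {α β : W} (hl : Lim α) (hβ : β < α) (hlow : A ⊆ low α)
    (hD : ∀ γ < α, T.d γ ∈ T.Γ A) (hX : ∀ c, T.x β (inl c) ∈ T.Γ A) {V : Subgroup G}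
    (hVΓ : V ≤ T.Γ A) (hV : ∀ m ∈ V, ∃ f ∈ mainF β, T.pr f = m) : ¬ WMix S V := by
  classical
  intro h
  have hΓ : T.Γ A ≤ T.Q α := T.Γ_mono hlow
  have hinf : (T.Γ A : Set G).Infinite := Set.infinite_of_injective_forall_mem
    (T.d_injective.comp hl.isLad.inj) fun n => hD _ (hl.isLad.lt n)
  have := (T.countable_Γ hcount).to_subtype
  have := hinf.to_subtype
  obtain ⟨D⟩ := nonempty_denumerable (T.Γ A : Set G)
  let gQ : ℕ → G := fun n => ((Denumerable.eqv (T.Γ A : Set G)).symm n).1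
  have hg : Function.Injective gQ := Subtype.val_injective.comp (Equiv.injective _)
  have hr : Set.range gQ = T.Γ A := by
    rw [show gQ = Subtype.val ∘ _ from rfl, (Equiv.surjective _).range_comp, Subtype.range_coe]
  have hgm : ∀ i, gQ i ∈ T.Γ A := fun i => (Subtype.prop _ :)
  choose s hs using T.surj
  obtain ⟨τ, h1, h2, h3, hw, h4, h5⟩ := wm_seq h hl hβ hV (fun i => s (gQ i))
    (fun i k => ‖S (dl (gQ i)) (gQ k)‖ₑ ^ 2) fun n => (Finset.range n).image gQ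
  obtain ⟨t, rfl⟩ := dec_surj τ
  have h6 : (fun i => T.pr ((dec t).g i)) = gQ := by rw [h2]; exact funext fun i => hs _
  have h7 : ∀ i, T.pr ((dec t).g i) = gQ i := congrFun h6
  have hv : Valid α (T.R α) (dec t) := by
    refine ⟨hw, fun k k' hk => hg ?_, fun i => ?_, fun k => ?_⟩
    · have h8 : T.pr _ ∈ T.Z α := hk
      rw [map_mul, map_inv, h7, h7] at h8
      exact inv_mul_eq_one.1 (T.eq_one_of_mem (hΓ (mul_mem (inv_mem (hgm k)) (hgm k'))) h8)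
    · have h8 := mass_eq_ms hg (hr ▸ hinv _ (hgm i)) Set.univ
      rw [Set.preimage_univ, mass, Set.indicator_univ] at h8
      rw [h3, h8]
      exact hS.ms_le_one _ _
    · rw [h3, ← Nat.cofinite_eq_atTop]
      exact (hS.tendsto_coeff (gQ k)).comp hg.tendsto_cofinite
  have hH : T.HQ α (dec t) Set.univ ≤ T.Γ A := by
    rw [HQ_eq, Subgroup.closure_le]
    rintro _ ⟨n, -, rfl⟩
    rw [h_eq, h1]
    exact mul_mem (mul_mem (hVΓ (h4 n)) (hX _)) (hD _ (hl.isLad.lt n))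
  have hle : T.Mk α t ≤ T.HQ α (dec t) Set.univ := T.HQ_mono _ _ (Set.subset_univ _)
  refine contra hS hA hinv hlow hD hv (h6 ▸ hg) (h6 ▸ hr) (fun i k => by rw [h3, h7, h7])
    (hle.trans hH) ?_
  rintro ⟨E, δ, hδ, h8⟩
  have h9 : ∀ a ∈ T.Γ A, ∀ᶠ n in atTop, a ∈ (Finset.range n).image gQ := fun a ha => by
    obtain ⟨i, rfl⟩ : a ∈ Set.range gQ := hr ▸ ha
    exact (eventually_gt_atTop i).mono fun n hn => Finset.mem_image_of_mem _ (Finset.mem_range.2 hn)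
  have h10 : Tendsto (fun n : ℕ => (E.card : ℝ≥0∞) * (n : ℝ≥0∞)⁻¹) atTop (𝓝 0) := by
    simpa using ENNReal.Tendsto.const_mul (a := (E.card : ℝ≥0∞))
      ENNReal.tendsto_inv_nat_nhds_zero (Or.inr (by simp))
  obtain ⟨N, hN⟩ := eventually_atTop.1 (((Finset.eventually_all E).2 fun p _ =>
    (h9 _ (Tw.κ_mem hA p.1)).and (h9 _ (Tw.κ_mem hA p.2))).and (h10.eventually (gt_mem_nhds hδ)))
  obtain ⟨n, hn, hnN⟩ := (HQ_infinite (T := T) hw (AD_infinite (asg α (T.R α) t))).1.exists_gt N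
  refine (hN n hnN.le).2.not_ge ((h8 _ (T.h_mem hn)).trans (le_trans (ms_mono' (D' :=
    {q | ∃ p ∈ E, q ∈ {q | (T.κ hA p.1)⁻¹ * q * (T.κ hA p.2)⁻¹ ∈ T.HQ α (dec t) Set.univ}}) ?_)
    ((ms_biUnion_le _ _ _).trans ?_)))
  · rintro q ⟨p, hp, h11⟩ hq
    have h12 := Tw.κ_fix hA (hH (hle h11))
    rw [map_mul, map_mul, map_inv, map_inv, Tw.κ_fix hA (hinv _ (hH (hle (T.h_mem hn))) q hq)] at h12
    exact ⟨p, hp, by rw [Set.mem_ofPred_eq, h12]; exact hle h11⟩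
  · rw [← nsmul_eq_mul]
    exact Finset.sum_le_card_nsmul _ _ _ fun p hp => h5 n (h1 ▸ hn.2) _
      ((hN n hnN.le).1 p hp).1 _ ((hN n hnN.le).1 p hp).2

end MT

end Pool.Agent.MP_82452b_an.H8
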